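import Mathlib

open NumberField IsDedekindDomain Filter Topology
open scoped ENNReal

namespace Pool.Agent.H3.TatePole

section EulerIdeal

variable {R : Type*} [CommRing R] [IsDedekindDomain R]

/-- nonzero ideals all of whose prime factors lie in `T` -/
def idealsOver (T : Finset (HeightOneSpectrum R)) : Set (Ideal R) :=
  {I | I ≠ ⊥ ∧ ∀ v : HeightOneSpectrum R, v.asIdeal ∣ I → v ∈ T}

lemma idealsOver_empty : idealsOver (∅ : Finset (HeightOneSpectrum R)) = {1} := by
  ext I
  constructor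
  · rintro ⟨h0, h⟩
    by_contra h1
    have h1' : I ≠ ⊤ := by simpa [Ideal.one_eq_top] using h1
    obtain ⟨M, hM, hIM⟩ := Ideal.exists_le_maximal I h1'
    have hM0 : M ≠ ⊥ := by
      rintro rfl
      exact h0 (le_bot_iff.mp hIM)
    have := h ⟨M, hM.isPrime, hM0⟩ (Ideal.dvd_iff_le.mpr hIM)
    simp at this
  · rintro rfl
    refine ⟨by simp [Ideal.one_eq_top], fun v hv => ?_⟩
    exact absurd (isUnit_of_dvd_one hv) v.prime.not_isUnit

open scoped Classical in
lemma bij_insert {T : Finset (HeightOneSpectrum R)} {v : HeightOneSpectrum R} (hv : v ∉ T) :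
    ∃ e : ℕ × idealsOver T ≃ idealsOver (insert v T : Finset (HeightOneSpectrum R)),
      ∀ x, (e x : Ideal R) = v.asIdeal ^ x.1 * x.2 := by
  have hmem : ∀ x : ℕ × idealsOver T, v.asIdeal ^ x.1 * (x.2 : Ideal R) ∈
      idealsOver (insert v T : Finset (HeightOneSpectrum R)) := by
    rintro ⟨n, I, hI0, hI⟩
    refine ⟨mul_ne_zero (pow_ne_zero _ v.ne_bot) hI0, fun u hu => ?_⟩
    rcases (u.prime.dvd_or_dvd hu) with h | h
    · have h2 := u.prime.dvd_of_dvd_pow h
      have : u = v := by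
        ext1
        have hle := Ideal.dvd_iff_le.mp h2
        exact ((v.isMaximal.eq_of_le u.isPrime.ne_top hle)).symm
      simp [this]
    · exact Finset.mem_insert_of_mem (hI u h)
  have hndvd : ∀ I : idealsOver T, ¬ v.asIdeal ∣ (I : Ideal R) := fun I h => hv (I.2.2 v h)
  let f : ℕ × idealsOver T → idealsOver (insert v T : Finset (HeightOneSpectrum R)) :=
    fun x => ⟨_, hmem x⟩
  have hinj_aux : ∀ (n m : ℕ) (I J : idealsOver T), n ≤ m →
      v.asIdeal ^ n * (I : Ideal R) = v.asIdeal ^ m * J → n = m ∧ I = J := by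
    intro n m I J hnm h
    obtain ⟨d, rfl⟩ := Nat.exists_eq_add_of_le hnm
    rw [pow_add, mul_assoc] at h
    have h' := mul_left_cancel₀ (pow_ne_zero n v.ne_bot) h
    rcases Nat.eq_zero_or_pos d with rfl | hd
    · refine ⟨rfl, Subtype.ext ?_⟩
      simpa using h'
    · exfalso
      apply hndvd I
      rw [h']
      exact Dvd.dvd.mul_right (dvd_pow_self _ hd.ne') _
  have hf : Function.Bijective f := by
    constructor
    · rintro ⟨n, I⟩ ⟨m, J⟩ h
      have h' : v.asIdeal ^ n * (I : Ideal R) = v.asIdeal ^ m * J := congrArg Subtype.val h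
      rcases le_total n m with hnm | hnm
      · obtain ⟨h1, h2⟩ := hinj_aux n m I J hnm h'
        simp [h1, h2]
      · obtain ⟨h1, h2⟩ := hinj_aux m n J I hnm h'.symm
        simp [h1, h2]
    · rintro ⟨J, hJ0, hJ⟩
      obtain ⟨I, hJI, hnd⟩ :=
        (FiniteMultiplicity.of_prime_left v.prime hJ0).exists_eq_pow_mul_and_not_dvd
      refine ⟨(multiplicity v.asIdeal J, ⟨I, ?_, ?_⟩), ?_⟩
      · rintro rfl
        apply hJ0
        rw [hJI]
        exact mul_zero _
      · intro u hu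
        have := hJ u (hJI ▸ Dvd.dvd.mul_left hu _)
        rcases Finset.mem_insert.mp this with h | h
        · exact absurd (h ▸ hu) hnd
        · exact h
      · exact Subtype.ext hJI.symm
  exact ⟨Equiv.ofBijective f hf, fun x => rfl⟩

/-- finite Euler product over a finite set of primes -/
lemma tsum_idealsOver (w : Ideal R →* ℝ≥0∞) (T : Finset (HeightOneSpectrum R)) :
    ∑' I : idealsOver T, w I = ∏ v ∈ T, (1 - w v.asIdeal)⁻¹ := by
  classical
  induction T using Finset.induction_on with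
  | empty =>
    rw [idealsOver_empty]
    have : w ⊤ = 1 := by rw [← Ideal.one_eq_top]; exact map_one w
    simp [this]
  | insert v T hv ih =>
    obtain ⟨e, he⟩ := bij_insert hv
    rw [Finset.prod_insert hv, ← ih, ← e.tsum_eq]
    have h1 : ∀ c : ℕ × idealsOver T, w (e c : Ideal R) = w v.asIdeal ^ c.1 * w c.2 := by
      intro c
      rw [he, map_mul, map_pow]
    rw [tsum_congr h1, ENNReal.tsum_prod (f := fun (n : ℕ) (I : idealsOver T) =>
      w v.asIdeal ^ n * w I), ← ENNReal.tsum_geometric, ← ENNReal.tsum_mul_right]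
    refine tsum_congr fun n => ?_
    rw [← ENNReal.tsum_mul_left]

/-- upper bound: the full sum over nonzero ideals is the supremum of the finite Euler products -/
lemma tsum_nonzero_ideals (w : Ideal R →* ℝ≥0∞) :
    ∑' I : {I : Ideal R // I ≠ ⊥}, w I =
      ⨆ T : Finset (HeightOneSpectrum R), ∏ v ∈ T, (1 - w v.asIdeal)⁻¹ := by
  classical
  apply le_antisymm
  · rw [ENNReal.tsum_eq_iSup_sum]
    refine iSup_le fun F => ?_
    -- all primes dividing a member of `F`
    have hfin : ∀ I : {I : Ideal R // I ≠ ⊥}, {v : HeightOneSpectrum R | v.asIdeal ∣ I}.Finite :=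
      fun I => Ideal.finite_factors I.2
    let T : Finset (HeightOneSpectrum R) := F.biUnion fun I => (hfin I).toFinset
    refine le_trans ?_ (le_iSup _ T)
    rw [← tsum_idealsOver]
    have hmem : ∀ I ∈ F, (I : Ideal R) ∈ idealsOver T := by
      intro I hI
      refine ⟨I.2, fun v hv => ?_⟩
      simp only [T, Finset.mem_biUnion]
      exact ⟨I, hI, by simpa using hv⟩
    calc ∑ I ∈ F, w I = ∑ I : F, w (I : {I : Ideal R // I ≠ ⊥}) := by
          rw [← Finset.sum_coe_sort]
      _ = ∑' I : F, w (I : {I : Ideal R // I ≠ ⊥}) := by rw [tsum_fintype]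
      _ ≤ ∑' I : idealsOver T, w I := by
          let g : F → idealsOver T := fun I => ⟨(I : {I : Ideal R // I ≠ ⊥}), hmem I I.2⟩
          have hg : Function.Injective g := by
            intro I J h
            have := congrArg Subtype.val h
            exact Subtype.ext (Subtype.ext this)
          exact ENNReal.tsum_comp_le_tsum_of_injective hg (fun I : idealsOver T => w I)
  · refine iSup_le fun T => ?_
    rw [← tsum_idealsOver]
    let g : idealsOver T → {I : Ideal R // I ≠ ⊥} := fun I => ⟨I, I.2.1⟩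
    have hg : Function.Injective g := by
      intro I J h
      have : (g I : Ideal R) = g J := congrArg Subtype.val h
      exact Subtype.ext this
    exact ENNReal.tsum_comp_le_tsum_of_injective hg (fun I : {I : Ideal R // I ≠ ⊥} => w I)

end EulerIdeal

section Zeta

variable (K : Type*) [Field K] [NumberField K]

/-- `I ↦ N(I)^{-s}` as a monoid homomorphism to `[0,∞]`. -/
noncomputable def normWeight (s : ℝ) : Ideal (𝓞 K) →* ℝ≥0∞ where
  toFun I := ENNReal.ofReal ((Ideal.absNorm I : ℝ) ^ (-s))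
  map_one' := by simp
  map_mul' I J := by
    rw [map_mul, Nat.cast_mul, Real.mul_rpow (by positivity) (by positivity),
      ENNReal.ofReal_mul (by positivity)]

lemma tsum_normWeight (s : ℝ) (hsum : LSeriesSummable
      (fun n ↦ (Nat.card {I : Ideal (𝓞 K) // Ideal.absNorm I = n} : ℂ)) s) :
    ∑' I : {I : Ideal (𝓞 K) // I ≠ ⊥}, normWeight K s I =
      ENNReal.ofReal (dedekindZeta K s).re := by
  classical
  let a : ℕ → ℕ := fun n => Nat.card {I : Ideal (𝓞 K) // Ideal.absNorm I = n}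
  let t : ℕ → ℝ := fun n => if n = 0 then 0 else (a n : ℝ) * (n : ℝ) ^ (-s)
  have hterm : ∀ n : ℕ, LSeries.term (fun n ↦ (a n : ℂ)) s n = (t n : ℂ) := by
    intro n
    by_cases hn : n = 0
    · simp [hn, t]
    · rw [LSeries.term_of_ne_zero hn]
      simp only [t, hn, if_false]
      push_cast
      rw [Complex.ofReal_cpow (by positivity)]
      push_cast
      rw [Complex.cpow_neg, div_eq_mul_inv]
  have hsumt : Summable t := by
    have : Summable (fun n => (t n : ℂ)) := by
      have h := hsum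
      unfold LSeriesSummable at h
      refine h.congr fun n => ?_
      rw [← hterm n]
    exact_mod_cast this
  have hnonneg : ∀ n, 0 ≤ t n := by
    intro n
    simp only [t]
    split_ifs
    · exact le_rfl
    · positivity
  have hz : dedekindZeta K s = ((∑' n, t n : ℝ) : ℂ) := by
    unfold dedekindZeta LSeries
    rw [Complex.ofReal_tsum]
    exact tsum_congr hterm
  rw [hz, Complex.ofReal_re, ENNReal.ofReal_tsum_of_nonneg hnonneg hsumt]
  rw [← ENNReal.tsum_fiberwise _ (fun I : {I : Ideal (𝓞 K) // I ≠ ⊥} => Ideal.absNorm (I : Ideal (𝓞 K)))]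
  refine tsum_congr fun n => ?_
  by_cases hn : n = 0
  · subst hn
    have : ∀ b : ((fun I : {I : Ideal (𝓞 K) // I ≠ ⊥} => Ideal.absNorm (I : Ideal (𝓞 K))) ⁻¹' {0}), False := by
      rintro ⟨⟨I, hI⟩, h⟩
      have h' : Ideal.absNorm I = 0 := h
      exact hI (Ideal.absNorm_eq_zero_iff.mp h')
    have hE : IsEmpty ((fun I : {I : Ideal (𝓞 K) // I ≠ ⊥} => Ideal.absNorm (I : Ideal (𝓞 K))) ⁻¹' {0}) := ⟨this⟩
    rw [tsum_empty]
    simp [t]
  · have hval : ∀ b : ((fun I : {I : Ideal (𝓞 K) // I ≠ ⊥} => Ideal.absNorm (I : Ideal (𝓞 K))) ⁻¹' {n}),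
        normWeight K s (b : {I : Ideal (𝓞 K) // I ≠ ⊥}) = ENNReal.ofReal ((n : ℝ) ^ (-s)) := by
      rintro ⟨⟨I, hI⟩, h⟩
      have h' : Ideal.absNorm I = n := h
      simp [normWeight, h']
    rw [tsum_congr hval, ENNReal.tsum_const]
    have hcard : ENat.card ((fun I : {I : Ideal (𝓞 K) // I ≠ ⊥} => Ideal.absNorm (I : Ideal (𝓞 K))) ⁻¹' {n}) = (a n : ℕ∞) := by
      have hfin : Finite {I : Ideal (𝓞 K) // Ideal.absNorm I = n} :=
        Ideal.finite_setOfPred_absNorm_eq n
      rw [← ENat.card_eq_coe_natCard]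
      refine ENat.card_congr ⟨fun b => ⟨b.1.1, b.2⟩, fun I => ⟨⟨I.1, ?_⟩, I.2⟩, ?_, ?_⟩
      · intro h0
        apply hn
        rw [← I.2, h0]
        simp
      · intro b; rfl
      · intro I; rfl
    rw [hcard]
    simp only [t, hn, if_false]
    rw [ENNReal.ofReal_mul (by positivity)]
    simp

lemma one_lt_absNorm (v : HeightOneSpectrum (𝓞 K)) : 1 < Ideal.absNorm v.asIdeal := by
  have h0 : Ideal.absNorm v.asIdeal ≠ 0 := fun h => v.ne_bot (Ideal.absNorm_eq_zero_iff.mp h)
  have h1 : Ideal.absNorm v.asIdeal ≠ 1 := fun h =>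
    v.isPrime.ne_top (Ideal.absNorm_eq_one_iff.mp h)
  omega

lemma two_le_absNorm (v : HeightOneSpectrum (𝓞 K)) : (2 : ℝ) ≤ (Ideal.absNorm v.asIdeal : ℝ) := by
  exact_mod_cast one_lt_absNorm K v

/-- The Euler product of the Dedekind zeta function, in logarithmic form. -/
lemma log_zeta {s : ℝ} (hs : 0 < s) (hsum : LSeriesSummable
      (fun n ↦ (Nat.card {I : Ideal (𝓞 K) // Ideal.absNorm I = n} : ℂ)) s)
    (hpos : 0 < (dedekindZeta K s).re) :
    HasSum (fun v : HeightOneSpectrum (𝓞 K) => -Real.log (1 - (Ideal.absNorm v.asIdeal : ℝ) ^ (-s)))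
      (Real.log (dedekindZeta K s).re) := by
  classical
  set X := (dedekindZeta K s).re with hX
  set x : HeightOneSpectrum (𝓞 K) → ℝ := fun v => (Ideal.absNorm v.asIdeal : ℝ) ^ (-s) with hx
  have hx0 : ∀ v, 0 < x v := fun v => by
    have := two_le_absNorm K v
    simp only [hx]; positivity
  have hx1 : ∀ v, x v < 1 := fun v => by
    have := two_le_absNorm K v
    simp only [hx]
    exact Real.rpow_lt_one_of_one_lt_of_neg (by linarith) (by linarith)
  have key := (tsum_normWeight K s hsum).symm.trans (tsum_nonzero_ideals (normWeight K s))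
  rw [← hX] at key
  -- finite products
  have hprod : ∀ T : Finset (HeightOneSpectrum (𝓞 K)),
      ∏ v ∈ T, (1 - normWeight K s v.asIdeal)⁻¹ =
        ENNReal.ofReal (Real.exp (∑ v ∈ T, -Real.log (1 - x v))) := by
    intro T
    rw [Real.exp_sum, ENNReal.ofReal_prod_of_nonneg (fun i _ => (Real.exp_pos _).le)]
    refine Finset.prod_congr rfl fun v _ => ?_
    have h1 : 0 < 1 - x v := by linarith [hx1 v]
    rw [Real.exp_neg, Real.exp_log h1, ENNReal.ofReal_inv_of_pos h1,
      ENNReal.ofReal_sub _ (hx0 v).le]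
    simp [normWeight, hx]
  have hnn : ∀ v, 0 ≤ -Real.log (1 - x v) := fun v => by
    have := Real.log_nonpos (by linarith [hx1 v] : 0 ≤ 1 - x v) (by linarith [hx0 v])
    linarith
  have hle : ∀ T : Finset (HeightOneSpectrum (𝓞 K)), ∑ v ∈ T, -Real.log (1 - x v) ≤ Real.log X := by
    intro T
    rw [Real.le_log_iff_exp_le hpos]
    have : ENNReal.ofReal (Real.exp (∑ v ∈ T, -Real.log (1 - x v))) ≤ ENNReal.ofReal X := by
      rw [key, ← hprod T]
      exact le_iSup (fun T : Finset (HeightOneSpectrum (𝓞 K)) =>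
        ∏ v ∈ T, (1 - normWeight K s v.asIdeal)⁻¹) T
    exact (ENNReal.ofReal_le_ofReal_iff hpos.le).mp this
  have hS : Summable (fun v => -Real.log (1 - x v)) := summable_of_sum_le hnn hle
  have h1 : ∑' v, -Real.log (1 - x v) ≤ Real.log X := hS.tsum_le_of_sum_le hle
  have h2 : Real.log X ≤ ∑' v, -Real.log (1 - x v) := by
    rw [Real.log_le_iff_le_exp hpos]
    have : ENNReal.ofReal X ≤ ENNReal.ofReal (Real.exp (∑' v, -Real.log (1 - x v))) := by
      rw [key]
      refine iSup_le fun T => ?_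
      rw [hprod T]
      apply ENNReal.ofReal_le_ofReal
      apply Real.exp_le_exp.mpr
      exact hS.sum_le_tsum T (fun v _ => hnn v)
    exact (ENNReal.ofReal_le_ofReal_iff (Real.exp_pos _).le).mp this
  rw [le_antisymm h2 h1]
  exact hS.hasSum

lemma tendsto_re :
    Tendsto (fun s : ℝ ↦ (s - 1) * (dedekindZeta K s).re) (𝓝[>] 1) (𝓝 (dedekindZeta_residue K)) := by
  have h := (Complex.continuous_re.tendsto _).comp (tendsto_sub_one_mul_dedekindZeta_nhdsGT K)
  refine h.congr fun s => ?_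
  simp only [Function.comp_apply]
  rw [show ((s : ℂ) - 1) = ((s - 1 : ℝ) : ℂ) by push_cast; ring, Complex.re_ofReal_mul]

lemma eventually_summable_pos : ∀ᶠ s : ℝ in 𝓝[>] 1, LSeriesSummable
      (fun n ↦ (Nat.card {I : Ideal (𝓞 K) // Ideal.absNorm I = n} : ℂ)) s ∧
      0 < (dedekindZeta K s).re := by
  have h1 : ∀ᶠ s : ℝ in 𝓝[>] 1, 0 < (s - 1) * (dedekindZeta K s).re :=
    (tendsto_re K).eventually_const_lt (dedekindZeta_residue_pos K)
  filter_upwards [h1, self_mem_nhdsWithin] with s hs hs1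
  have hs1' : 0 < s - 1 := by simpa using hs1
  have hpos : 0 < (dedekindZeta K s).re := by
    by_contra hcon
    push Not at hcon
    have := mul_nonpos_of_nonneg_of_nonpos hs1'.le hcon
    linarith
  refine ⟨?_, hpos⟩
  by_contra hcon
  have : dedekindZeta K s = 0 := by
    unfold dedekindZeta LSeries
    exact tsum_eq_zero_of_not_summable hcon
  rw [this] at hpos
  simp at hpos

lemma log_bounds {x : ℝ} (hx0 : 0 ≤ x) (hx : x ≤ 1 / 2) :
    0 ≤ -Real.log (1 - x) - x ∧ -Real.log (1 - x) - x ≤ 2 * x ^ 2 := by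
  have hpos : 0 < 1 - x := by linarith
  constructor
  · have := Real.log_le_sub_one_of_pos hpos
    linarith
  · have := Real.one_sub_inv_le_log_of_pos hpos
    have h2 : (1 - x)⁻¹ - 1 - x = x ^ 2 / (1 - x) := by
      field_simp
      ring
    have h3 : x ^ 2 / (1 - x) ≤ 2 * x ^ 2 := by
      rw [div_le_iff₀ hpos]
      nlinarith [sq_nonneg x]
    linarith

lemma rpow_neg_le_half {s : ℝ} (hs : 1 ≤ s) (v : HeightOneSpectrum (𝓞 K)) :
    (Ideal.absNorm v.asIdeal : ℝ) ^ (-s) ≤ 1 / 2 := by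
  have h2 := two_le_absNorm K v
  calc (Ideal.absNorm v.asIdeal : ℝ) ^ (-s) ≤ (Ideal.absNorm v.asIdeal : ℝ) ^ (-1 : ℝ) :=
        Real.rpow_le_rpow_of_exponent_le (by linarith) (by linarith)
    _ = (Ideal.absNorm v.asIdeal : ℝ)⁻¹ := Real.rpow_neg_one _
    _ ≤ 2⁻¹ := by
        apply inv_anti₀ (by norm_num) h2
    _ = 1 / 2 := by norm_num

lemma summable_norm_rpow {s : ℝ} (hs : 1 < s) :
    Summable (fun v : HeightOneSpectrum (𝓞 K) => (Ideal.absNorm v.asIdeal : ℝ) ^ (-s)) := by
  have h1 := eventually_summable_pos K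
  have h2 : ∀ᶠ t : ℝ in 𝓝[>] 1, t < s := by
    have : Set.Iio s ∈ 𝓝 (1 : ℝ) := Iio_mem_nhds hs
    exact mem_nhdsWithin_of_mem_nhds this
  obtain ⟨t, ⟨⟨h3, h4⟩, h5⟩, h6⟩ := ((h1.and h2).and self_mem_nhdsWithin).exists
  have h6' : 1 < t := h6
  have hS := (log_zeta K (by linarith : 0 < t) h3 h4).summable
  refine Summable.of_nonneg_of_le (fun v => by positivity) (fun v => ?_) hS
  have hN := two_le_absNorm K v
  have ha := (log_bounds (x := (Ideal.absNorm v.asIdeal : ℝ) ^ (-t)) (by positivity)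
    (rpow_neg_le_half K h6'.le v)).1
  have hb : (Ideal.absNorm v.asIdeal : ℝ) ^ (-s) ≤ (Ideal.absNorm v.asIdeal : ℝ) ^ (-t) :=
    Real.rpow_le_rpow_of_exponent_le (by linarith) (by linarith)
  linarith

/-- `∑_𝔭 N(𝔭)^{-s}` over all primes of `K`. -/
noncomputable def primeSum (s : ℝ) : ℝ :=
  ∑' v : HeightOneSpectrum (𝓞 K), (Ideal.absNorm v.asIdeal : ℝ) ^ (-s)

lemma primeSum_close : ∃ C : ℝ, ∀ᶠ s : ℝ in 𝓝[>] 1,
    |Real.log (dedekindZeta K s).re - primeSum K s| ≤ C := by
  refine ⟨∑' v : HeightOneSpectrum (𝓞 K), 2 * (Ideal.absNorm v.asIdeal : ℝ) ^ (-(3 / 2) : ℝ), ?_⟩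
  filter_upwards [eventually_summable_pos K, self_mem_nhdsWithin] with s ⟨h1, h2⟩ hs
  have hs' : 1 < s := hs
  have hz := log_zeta K (by linarith : 0 < s) h1 h2
  have hp := summable_norm_rpow K hs'
  have h32 : Summable (fun v : HeightOneSpectrum (𝓞 K) =>
      2 * (Ideal.absNorm v.asIdeal : ℝ) ^ (-(3 / 2) : ℝ)) :=
    (summable_norm_rpow K (by norm_num : (1 : ℝ) < 3 / 2)).mul_left 2
  rw [← hz.tsum_eq, primeSum, ← hz.summable.tsum_sub hp]
  have hb : ∀ v : HeightOneSpectrum (𝓞 K),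
      0 ≤ -Real.log (1 - (Ideal.absNorm v.asIdeal : ℝ) ^ (-s)) - (Ideal.absNorm v.asIdeal : ℝ) ^ (-s) ∧
      -Real.log (1 - (Ideal.absNorm v.asIdeal : ℝ) ^ (-s)) - (Ideal.absNorm v.asIdeal : ℝ) ^ (-s) ≤
      2 * (Ideal.absNorm v.asIdeal : ℝ) ^ (-(3 / 2) : ℝ) := by
    intro v
    have hN := two_le_absNorm K v
    have := log_bounds (x := (Ideal.absNorm v.asIdeal : ℝ) ^ (-s)) (by positivity)
      (rpow_neg_le_half K hs'.le v)
    refine ⟨this.1, this.2.trans ?_⟩
    have : ((Ideal.absNorm v.asIdeal : ℝ) ^ (-s)) ^ 2 ≤ (Ideal.absNorm v.asIdeal : ℝ) ^ (-(3 / 2) : ℝ) := by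
      rw [← Real.rpow_natCast, ← Real.rpow_mul (by positivity)]
      exact Real.rpow_le_rpow_of_exponent_le (by linarith) (by push_cast; linarith)
    linarith
  rw [abs_of_nonneg (tsum_nonneg fun v => (hb v).1)]
  exact (hz.summable.sub hp).tsum_le_tsum (fun v => (hb v).2) h32

/-- `log (1/(s-1))` -/
noncomputable def Lam (s : ℝ) : ℝ := Real.log (1 / (s - 1))

lemma Lam_tendsto : Tendsto Lam (𝓝[>] 1) atTop := by
  unfold Lam
  have h : Tendsto (fun s : ℝ => s - 1) (𝓝[>] 1) (𝓝[>] 0) := by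
    rw [tendsto_nhdsWithin_iff]
    constructor
    · have : Tendsto (fun s : ℝ => s - 1) (𝓝 1) (𝓝 (1 - 1)) := tendsto_id.sub_const 1
      rw [sub_self] at this
      exact this.mono_left nhdsWithin_le_nhds
    · filter_upwards [self_mem_nhdsWithin] with s hs
      simpa using hs
  have h2 : Tendsto (fun s : ℝ => (s - 1)⁻¹) (𝓝[>] 1) atTop := tendsto_inv_nhdsGT_zero.comp h
  have h3 := Real.tendsto_log_atTop.comp h2
  refine h3.congr fun s => ?_
  simp

lemma tendsto_of_bounded_diff {f g : ℝ → ℝ} {c : ℝ} {C : ℝ}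
    (h : ∀ᶠ s : ℝ in 𝓝[>] 1, |f s - g s| ≤ C)
    (hf : Tendsto (fun s => f s / Lam s) (𝓝[>] 1) (𝓝 c)) :
    Tendsto (fun s => g s / Lam s) (𝓝[>] 1) (𝓝 c) := by
  have hL := Lam_tendsto
  have hC : Tendsto (fun s => C / Lam s) (𝓝[>] 1) (𝓝 0) := hL.const_div_atTop C
  have hd : Tendsto (fun s => (f s - g s) / Lam s) (𝓝[>] 1) (𝓝 0) := by
    refine squeeze_zero_norm' ?_ hC
    filter_upwards [h, hL.eventually_gt_atTop 0] with s hs hs2
    rw [Real.norm_eq_abs, abs_div, abs_of_pos hs2]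
    gcongr
  have := hf.sub hd
  rw [sub_zero] at this
  refine this.congr fun s => ?_
  ring

lemma log_zeta_asymp : Tendsto (fun s : ℝ => Real.log (dedekindZeta K s).re / Lam s)
    (𝓝[>] 1) (𝓝 1) := by
  have h1 : Tendsto (fun s : ℝ => Real.log ((s - 1) * (dedekindZeta K s).re) / Lam s)
      (𝓝[>] 1) (𝓝 0) := by
    have h2 : Tendsto (fun s : ℝ => Real.log ((s - 1) * (dedekindZeta K s).re)) (𝓝[>] 1)
        (𝓝 (Real.log (dedekindZeta_residue K))) :=
      (Real.continuousAt_log (dedekindZeta_residue_ne_zero K)).tendsto.comp (tendsto_re K)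
    exact h2.div_atTop Lam_tendsto
  have h3 : Tendsto (fun s : ℝ => Real.log ((s - 1) * (dedekindZeta K s).re) / Lam s + 1)
      (𝓝[>] 1) (𝓝 1) := by
    simpa using h1.add_const 1
  refine h3.congr' ?_
  filter_upwards [eventually_summable_pos K, self_mem_nhdsWithin, Lam_tendsto.eventually_gt_atTop 0]
    with s ⟨_, h2⟩ hs hL
  have hs' : 0 < s - 1 := by simpa using hs
  rw [Real.log_mul hs'.ne' h2.ne']
  have : Lam s = - Real.log (s - 1) := by
    unfold Lam
    rw [one_div, Real.log_inv]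
  field_simp
  rw [this]
  ring

lemma primeSum_asymp : Tendsto (fun s : ℝ => primeSum K s / Lam s) (𝓝[>] 1) (𝓝 1) := by
  obtain ⟨C, hC⟩ := primeSum_close K
  exact tendsto_of_bounded_diff hC (log_zeta_asymp K)

end Zeta
end Pool.Agent.H3.TatePole
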