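import Mathlib
import Pool.Agent.H3.TatePole.Zeta

open NumberField IsDedekindDomain Filter Topology

namespace Pool.Agent.H3.TatePole

section DegOne

variable (k K : Type*) [Field k] [NumberField k] [Field K] [NumberField K] [Algebra k K]

/-- number of primes of `K` above `𝔭` with the same residue field as `𝔭` (residue degree one) -/
noncomputable def degOne (𝔭 : HeightOneSpectrum (𝓞 k)) : ℕ :=
  Nat.card {𝔓 : HeightOneSpectrum (𝓞 K) // 𝔓.asIdeal.under (𝓞 k) = 𝔭.asIdeal ∧
    Ideal.absNorm 𝔓.asIdeal = Ideal.absNorm 𝔭.asIdeal}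

variable {k K}

instance finite_quot (𝔭 : HeightOneSpectrum (𝓞 k)) : Finite (𝓞 k ⧸ 𝔭.asIdeal) :=
  Ideal.finiteQuotientOfFreeOfNeBot _ 𝔭.ne_bot

lemma surj_of_algHom {𝔭 : HeightOneSpectrum (𝓞 k)} (f : 𝓞 K →ₐ[𝓞 k] 𝓞 k ⧸ 𝔭.asIdeal) :
    Function.Surjective f := by
  intro y
  obtain ⟨x, rfl⟩ := Ideal.Quotient.mk_surjective y
  exact ⟨algebraMap _ _ x, f.commutes x⟩

lemma ker_under {𝔭 : HeightOneSpectrum (𝓞 k)} (f : 𝓞 K →ₐ[𝓞 k] 𝓞 k ⧸ 𝔭.asIdeal) :
    (RingHom.ker f).under (𝓞 k) = 𝔭.asIdeal := by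
  ext x
  rw [Ideal.mem_comap, RingHom.mem_ker, f.commutes]
  exact Ideal.Quotient.eq_zero_iff_mem

/-- kernel of an algebra homomorphism to the residue field, as a prime of `K` -/
noncomputable def kerPrime {𝔭 : HeightOneSpectrum (𝓞 k)} (f : 𝓞 K →ₐ[𝓞 k] 𝓞 k ⧸ 𝔭.asIdeal) :
    HeightOneSpectrum (𝓞 K) where
  asIdeal := RingHom.ker f
  isPrime := RingHom.ker_isPrime f.toRingHom
  ne_bot := by
    intro h
    have h1 := ker_under f
    rw [h] at h1
    apply 𝔭.ne_bot
    rw [← h1]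
    ext x
    simp only [Ideal.mem_comap, Ideal.mem_bot]
    constructor
    · intro hx
      exact (FaithfulSMul.algebraMap_injective (𝓞 k) (𝓞 K)) (by rw [hx, map_zero])
    · rintro rfl
      simp

lemma degOne_eq (𝔭 : HeightOneSpectrum (𝓞 k)) :
    degOne k K 𝔭 = Nat.card (𝓞 K →ₐ[𝓞 k] 𝓞 k ⧸ 𝔭.asIdeal) := by
  unfold degOne
  symm
  have hnorm : ∀ f : 𝓞 K →ₐ[𝓞 k] 𝓞 k ⧸ 𝔭.asIdeal,
      Ideal.absNorm (kerPrime f).asIdeal = Ideal.absNorm 𝔭.asIdeal := by
    intro f
    have e : (𝓞 K ⧸ RingHom.ker f) ≃+* (𝓞 k ⧸ 𝔭.asIdeal) :=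
      RingHom.quotientKerEquivOfSurjective (f := f.toRingHom) (surj_of_algHom f)
    rw [Ideal.absNorm_apply, Ideal.absNorm_apply, Submodule.cardQuot_apply,
      Submodule.cardQuot_apply]
    exact Nat.card_congr e.toEquiv
  refine Nat.card_congr (Equiv.ofBijective (fun f => ⟨kerPrime f, ker_under f, hnorm f⟩) ⟨?_, ?_⟩)
  · intro f g hfg
    have h1 : RingHom.ker f = RingHom.ker g := by
      have := congrArg (fun z => z.1.asIdeal) hfg
      exact this
    ext a
    obtain ⟨r, hr⟩ := Ideal.Quotient.mk_surjective (f a)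
    have h2 : a - algebraMap _ _ r ∈ RingHom.ker f := by
      rw [RingHom.mem_ker, map_sub, f.commutes, ← hr]
      exact sub_self _
    rw [h1, RingHom.mem_ker, map_sub, g.commutes, sub_eq_zero] at h2
    rw [h2, ← hr]
    rfl
  · rintro ⟨𝔓, h1, h2⟩
    have hP : 𝔓.asIdeal.under (𝓞 k) = 𝔭.asIdeal := h1
    -- the injection of residue fields
    let φ : (𝓞 k ⧸ 𝔭.asIdeal) →ₐ[𝓞 k] (𝓞 K ⧸ 𝔓.asIdeal) :=
      Ideal.quotientMapₐ 𝔓.asIdeal (Algebra.ofId (𝓞 k) (𝓞 K)) (by rw [← hP]; exact le_rfl)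
    have hinj : Function.Injective φ := by
      intro x y hxy
      obtain ⟨x, rfl⟩ := Ideal.Quotient.mk_surjective x
      obtain ⟨y, rfl⟩ := Ideal.Quotient.mk_surjective y
      have h3 : Ideal.Quotient.mk 𝔓.asIdeal (algebraMap _ _ x) =
        Ideal.Quotient.mk 𝔓.asIdeal (algebraMap _ _ y) := hxy
      rw [Ideal.Quotient.eq, ← map_sub] at h3
      rw [Ideal.Quotient.eq, ← hP]
      exact h3
    have hbij : Function.Bijective φ := by
      rw [Nat.bijective_iff_injective_and_card]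
      refine ⟨hinj, ?_⟩
      rw [Ideal.absNorm_apply, Ideal.absNorm_apply, Submodule.cardQuot_apply,
        Submodule.cardQuot_apply] at h2
      exact h2.symm
    let e := AlgEquiv.ofBijective φ hbij
    refine ⟨(e.symm : (𝓞 K ⧸ 𝔓.asIdeal) →ₐ[𝓞 k] _).comp
      (Ideal.Quotient.mkₐ (𝓞 k) 𝔓.asIdeal), ?_⟩
    apply Subtype.ext
    apply HeightOneSpectrum.ext
    ext x
    change (e.symm (Ideal.Quotient.mk 𝔓.asIdeal x)) = 0 ↔ x ∈ 𝔓.asIdeal
    rw [map_eq_zero_iff _ e.symm.injective]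
    exact Ideal.Quotient.eq_zero_iff_mem

end DegOne

section Compositum

/-- common denominators for coordinates of algebraic integers -/
lemma exists_common_den {K L : Type*} [Field K] [NumberField K] [Field L] [NumberField L]
    [Algebra K L] {ι : Type*} [Finite ι] (b : Module.Basis ι K L) :
    ∃ N : ℕ, N ≠ 0 ∧ ∀ (y : 𝓞 L) (i : ι), ∃ c : 𝓞 K,
      algebraMap (𝓞 K) K c = N * b.repr (algebraMap (𝓞 L) L y) i := by
  classical
  cases nonempty_fintype ι
  -- each element of K has an integer denominator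
  have hden : ∀ x : K, ∃ N : ℕ, N ≠ 0 ∧ ∃ c : 𝓞 K, algebraMap (𝓞 K) K c = N * x := by
    intro x
    have hx : IsAlgebraic ℤ x := by
      have h1 : IsAlgebraic ℚ x := Algebra.IsAlgebraic.isAlgebraic x
      exact (IsFractionRing.isAlgebraic_iff ℤ ℚ K).mpr h1
    obtain ⟨y, hy0, hy⟩ := hx.exists_integral_multiple
    refine ⟨y.natAbs, by simpa using hy0, ?_⟩
    have hint : IsIntegral ℤ ((y.natAbs : K) * x) := by
      have h2 : IsIntegral ℤ ((y : K) * x) := by
        rwa [zsmul_eq_mul] at hy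
      have h4 : ((y.natAbs : ℤ) : K) = (y.natAbs : K) := Int.cast_natCast _
      rcases Int.natAbs_eq y with h | h
      · have h3 : (y.natAbs : K) = (y : K) := by rw [← h4, ← h]
        rw [h3]; exact h2
      · have h3 : (y.natAbs : K) = -(y : K) := by
          rw [← h4, eq_neg_iff_add_eq_zero, ← Int.cast_add]
          have : (y.natAbs : ℤ) + y = 0 := by omega
          rw [this, Int.cast_zero]
        rw [h3, neg_mul]; exact h2.neg
    exact ⟨⟨_, hint⟩, rfl⟩
  let β := RingOfIntegers.basis L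
  choose N hN0 hN using fun (j : Module.Free.ChooseBasisIndex ℤ (𝓞 L)) (i : ι) =>
    hden (b.repr (algebraMap (𝓞 L) L (β j)) i)
  refine ⟨∏ j, ∏ i, N j i, Finset.prod_ne_zero_iff.mpr fun j _ =>
    Finset.prod_ne_zero_iff.mpr fun i _ => hN0 j i, fun y i => ?_⟩
  have hcoord : ∀ j, ∃ c : 𝓞 K, algebraMap (𝓞 K) K c = ((∏ j, ∏ i, N j i : ℕ) : K) *
      b.repr (algebraMap (𝓞 L) L (β j)) i := by
    intro j
    obtain ⟨c, hc⟩ := hN j i
    have hdvd : N j i ∣ ∏ j, ∏ i, N j i :=
      (Finset.dvd_prod_of_mem (fun i => N j i) (Finset.mem_univ i)).trans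
        (Finset.dvd_prod_of_mem (fun j => ∏ i, N j i) (Finset.mem_univ j))
    obtain ⟨d, hd⟩ := hdvd
    refine ⟨(d : 𝓞 K) * c, ?_⟩
    rw [hd, map_mul, map_natCast, hc]
    push_cast
    ring
  choose c hc using hcoord
  refine ⟨∑ j, (β.repr y j) • c j, ?_⟩
  have hy : algebraMap (𝓞 L) L y = ∑ j, (β.repr y j) • (algebraMap (𝓞 L) L (β j)) := by
    conv_lhs => rw [← β.sum_repr y]
    rw [map_sum]
    refine Finset.sum_congr rfl fun j _ => ?_
    rw [map_zsmul]
  rw [hy, map_sum, map_sum, Finsupp.finset_sum_apply, Finset.mul_sum]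
  refine Finset.sum_congr rfl fun j _ => ?_
  rw [map_zsmul, hc, map_zsmul]
  simp only [Finsupp.smul_apply, zsmul_eq_mul]
  ring

/-- Algebra homomorphisms to a field in which a suitable integer is invertible: those of the
compositum correspond to pairs. -/
lemma card_algHom_compositum {k K K' L : Type*} [Field k] [NumberField k] [Field K]
    [Field K'] [Field L] [Algebra k K] [Algebra k K']
    [Algebra k L] [Algebra K L] [Algebra K' L] [IsScalarTower k K L] [IsScalarTower k K' L]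
    {ι : Type*} [Fintype ι] (b : Module.Basis ι k K) (b' : Module.Basis ι K' L)
    (hb : ∀ i, b' i = algebraMap K L (b i))
    (a : ι → 𝓞 K) (ha : ∀ i, algebraMap (𝓞 K) K (a i) = b i) (N₁ N₂ : ℕ)
    (ρ : 𝓞 K → ι → 𝓞 k) (hρ : ∀ x i, algebraMap (𝓞 k) k (ρ x i) = N₁ * b.repr (algebraMap (𝓞 K) K x) i)
    (c : 𝓞 L → ι → 𝓞 K')
    (hc : ∀ y i, algebraMap (𝓞 K') K' (c y i) = N₂ * b'.repr (algebraMap (𝓞 L) L y) i)
    (F : Type*) [Field F] [Algebra (𝓞 k) F] (h1 : (N₁ : F) ≠ 0) (h2 : (N₂ : F) ≠ 0) :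
    Function.Bijective (fun h : 𝓞 L →ₐ[𝓞 k] F =>
      ((h.comp (IsScalarTower.toAlgHom (𝓞 k) (𝓞 K) (𝓞 L)),
        h.comp (IsScalarTower.toAlgHom (𝓞 k) (𝓞 K') (𝓞 L))) :
        (𝓞 K →ₐ[𝓞 k] F) × (𝓞 K' →ₐ[𝓞 k] F))) := by
  classical
  have hL : Function.Injective (algebraMap (𝓞 L) L) := RingOfIntegers.coe_injective
  have hK' : Function.Injective (algebraMap (𝓞 K') K') := RingOfIntegers.coe_injective
  have hK : Function.Injective (algebraMap (𝓞 K) K) := RingOfIntegers.coe_injective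
  have hcompat : ∀ x : 𝓞 K, algebraMap (𝓞 L) L (algebraMap (𝓞 K) (𝓞 L) x) =
      algebraMap K L (algebraMap (𝓞 K) K x) := fun x => rfl
  have hcompat' : ∀ x : 𝓞 K', algebraMap (𝓞 L) L (algebraMap (𝓞 K') (𝓞 L) x) =
      algebraMap K' L (algebraMap (𝓞 K') K' x) := fun x => rfl
  -- expansion of `N₂ y`
  have hexp : ∀ y : 𝓞 L, (N₂ : 𝓞 L) * y =
      ∑ i, algebraMap (𝓞 K) (𝓞 L) (a i) * algebraMap (𝓞 K') (𝓞 L) (c y i) := by
    intro y
    apply hL
    rw [map_mul, map_natCast, map_sum]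
    conv_lhs => rw [← b'.sum_repr (algebraMap (𝓞 L) L y), Finset.mul_sum]
    refine Finset.sum_congr rfl fun i _ => ?_
    rw [map_mul, hcompat, hcompat', ha, hc, hb, Algebra.smul_def, map_mul, map_natCast]
    ring
  have hexpK : ∀ x : 𝓞 K, (N₁ : 𝓞 K) * x = ∑ i, algebraMap (𝓞 k) (𝓞 K) (ρ x i) * a i := by
    intro x
    apply hK
    rw [map_mul, map_natCast, map_sum]
    conv_lhs => rw [← b.sum_repr (algebraMap (𝓞 K) K x), Finset.mul_sum]
    refine Finset.sum_congr rfl fun i _ => ?_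
    have : algebraMap (𝓞 K) K (algebraMap (𝓞 k) (𝓞 K) (ρ x i)) =
      algebraMap k K (algebraMap (𝓞 k) k (ρ x i)) := rfl
    rw [map_mul, this, ha, hρ, Algebra.smul_def, map_mul, map_natCast]
    ring
  constructor
  · intro h h' hh
    have hh1 : ∀ x, h (algebraMap (𝓞 K) (𝓞 L) x) = h' (algebraMap (𝓞 K) (𝓞 L) x) := fun x =>
      DFunLike.congr_fun (congrArg Prod.fst hh) x
    have hh2 : ∀ x, h (algebraMap (𝓞 K') (𝓞 L) x) = h' (algebraMap (𝓞 K') (𝓞 L) x) := fun x =>
      DFunLike.congr_fun (congrArg Prod.snd hh) x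
    ext y
    have e1 := congrArg h (hexp y)
    have e2 := congrArg h' (hexp y)
    rw [map_mul, map_natCast, map_sum] at e1 e2
    apply mul_left_cancel₀ h2
    rw [e1, e2]
    refine Finset.sum_congr rfl fun i _ => ?_
    rw [map_mul, map_mul, hh1, hh2]
  · rintro ⟨f, g⟩
    let h0 : 𝓞 L → F := fun y => ∑ i, f (a i) * g (c y i)
    have hadd : ∀ y y', h0 (y + y') = h0 y + h0 y' := by
      intro y y'
      simp only [h0]
      rw [← Finset.sum_add_distrib]
      refine Finset.sum_congr rfl fun i _ => ?_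
      have : c (y + y') i = c y i + c y' i := by
        apply hK'
        rw [hc, map_add, map_add, map_add, hc, hc, Finsupp.add_apply]
        ring
      rw [this, map_add]
      ring
    have hnat : ∀ (n : ℕ) y, h0 ((n : 𝓞 L) * y) = n * h0 y := by
      intro n y
      simp only [h0]
      rw [Finset.mul_sum]
      refine Finset.sum_congr rfl fun i _ => ?_
      have : c ((n : 𝓞 L) * y) i = (n : 𝓞 K') * c y i := by
        apply hK'
        have e0 : algebraMap (𝓞 L) L ((n : 𝓞 L) * y) = (n : K') • algebraMap (𝓞 L) L y := by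
          rw [Algebra.smul_def, map_natCast, map_mul, map_natCast]
        rw [hc, map_mul (algebraMap (𝓞 K') K'), hc, map_natCast, e0, map_smul, Finsupp.smul_apply,
          smul_eq_mul]
        ring
      rw [this, map_mul, map_natCast]
      ring
    have hzero : h0 0 = 0 := by
      have := hadd 0 0
      rw [add_zero] at this
      simpa using this
    have hsum : ∀ {κ : Type _} (t : Finset κ) (y : κ → 𝓞 L), h0 (∑ j ∈ t, y j) = ∑ j ∈ t, h0 (y j) := by
      intro κ t y
      induction t using Finset.induction_on with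
      | empty => simpa using hzero
      | insert j t hj ih => rw [Finset.sum_insert hj, Finset.sum_insert hj, hadd, ih]
    have hpure : ∀ (x : 𝓞 K) (x' : 𝓞 K'),
        h0 (algebraMap (𝓞 K) (𝓞 L) x * algebraMap (𝓞 K') (𝓞 L) x') = N₂ * (f x * g x') := by
      intro x x'
      have hci : ∀ i, (N₁ : 𝓞 K') * c (algebraMap (𝓞 K) (𝓞 L) x * algebraMap (𝓞 K') (𝓞 L) x') i =
          (N₂ : 𝓞 K') * (algebraMap (𝓞 k) (𝓞 K') (ρ x i) * x') := by
        intro i
        apply hK'
        rw [map_mul (algebraMap (𝓞 K') K'), map_mul (algebraMap (𝓞 K') K'),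
          map_mul (algebraMap (𝓞 K') K'), hc, map_natCast, map_natCast]
        have e3 : algebraMap (𝓞 K') K' (algebraMap (𝓞 k) (𝓞 K') (ρ x i)) =
          algebraMap k K' (algebraMap (𝓞 k) k (ρ x i)) := rfl
        rw [e3, hρ, map_mul (algebraMap k K'), map_natCast]
        have e4 : algebraMap (𝓞 L) L (algebraMap (𝓞 K) (𝓞 L) x * algebraMap (𝓞 K') (𝓞 L) x') =
            ∑ j, (algebraMap k K' (b.repr (algebraMap (𝓞 K) K x) j) * algebraMap (𝓞 K') K' x') • b' j := by
          rw [map_mul, hcompat, hcompat']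
          conv_lhs => rw [← b.sum_repr (algebraMap (𝓞 K) K x), map_sum, Finset.sum_mul]
          refine Finset.sum_congr rfl fun j _ => ?_
          rw [hb, Algebra.smul_def, Algebra.smul_def, map_mul, map_mul,
            ← IsScalarTower.algebraMap_apply k K' L, ← IsScalarTower.algebraMap_apply k K L]
          ring
        have e5 : b'.repr (algebraMap (𝓞 L) L (algebraMap (𝓞 K) (𝓞 L) x *
            algebraMap (𝓞 K') (𝓞 L) x')) i =
            algebraMap k K' (b.repr (algebraMap (𝓞 K) K x) i) * algebraMap (𝓞 K') K' x' := by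
          rw [e4, map_sum, Finsupp.finset_sum_apply]
          simp only [map_smul, Module.Basis.repr_self, Finsupp.smul_single, smul_eq_mul, mul_one]
          rw [Finset.sum_eq_single i]
          · simp
          · intro j _ hj
            simp [Finsupp.single_apply, hj]
          · simp
        rw [e5]
        ring
      apply mul_left_cancel₀ h1
      have e6 : (N₁ : F) * h0 (algebraMap (𝓞 K) (𝓞 L) x * algebraMap (𝓞 K') (𝓞 L) x') =
          ∑ i, f (a i) * g ((N₁ : 𝓞 K') * c (algebraMap (𝓞 K) (𝓞 L) x *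
            algebraMap (𝓞 K') (𝓞 L) x') i) := by
        simp only [h0]
        rw [Finset.mul_sum]
        refine Finset.sum_congr rfl fun i _ => ?_
        rw [map_mul, map_natCast]
        ring
      rw [e6]
      simp only [hci]
      have e7 : (N₁ : F) * f x = ∑ i, algebraMap (𝓞 k) F (ρ x i) * f (a i) := by
        have := congrArg f (hexpK x)
        rw [map_mul, map_natCast, map_sum] at this
        rw [this]
        refine Finset.sum_congr rfl fun i _ => ?_
        rw [map_mul, f.commutes]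
      calc ∑ i, f (a i) * g ((N₂ : 𝓞 K') * (algebraMap (𝓞 k) (𝓞 K') (ρ x i) * x'))
          = ∑ i, (algebraMap (𝓞 k) F (ρ x i) * f (a i)) * (N₂ * g x') := by
            refine Finset.sum_congr rfl fun i _ => ?_
            rw [map_mul, map_mul, map_natCast, g.commutes]
            ring
        _ = (N₁ : F) * (N₂ * (f x * g x')) := by
            rw [← Finset.sum_mul, ← e7]
            ring
    have hmul : ∀ y y', (N₂ : F) * h0 (y * y') = h0 y * h0 y' := by
      intro y y'
      apply mul_left_cancel₀ h2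
      have e8 : ((N₂ : 𝓞 L) * y) * ((N₂ : 𝓞 L) * y') = ((N₂ * N₂ : ℕ) : 𝓞 L) * (y * y') := by
        push_cast; ring
      have e9 : (N₂ : F) * (N₂ * h0 (y * y')) = h0 (((N₂ : 𝓞 L) * y) * ((N₂ : 𝓞 L) * y')) := by
        rw [e8, hnat]; push_cast; ring
      rw [e9, hexp y, hexp y', Finset.sum_mul_sum, hsum]
      simp_rw [hsum]
      have e10 : ∀ i j, h0 (algebraMap (𝓞 K) (𝓞 L) (a i) * algebraMap (𝓞 K') (𝓞 L) (c y i) *
          (algebraMap (𝓞 K) (𝓞 L) (a j) * algebraMap (𝓞 K') (𝓞 L) (c y' j))) =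
          N₂ * ((f (a i) * g (c y i)) * (f (a j) * g (c y' j))) := by
        intro i j
        have : algebraMap (𝓞 K) (𝓞 L) (a i) * algebraMap (𝓞 K') (𝓞 L) (c y i) *
          (algebraMap (𝓞 K) (𝓞 L) (a j) * algebraMap (𝓞 K') (𝓞 L) (c y' j)) =
          algebraMap (𝓞 K) (𝓞 L) (a i * a j) * algebraMap (𝓞 K') (𝓞 L) (c y i * c y' j) := by
          rw [map_mul, map_mul]; ring
        rw [this, hpure, map_mul, map_mul]
        ring
      simp_rw [e10]
      simp only [h0]
      rw [Finset.sum_mul_sum, Finset.mul_sum]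
      refine Finset.sum_congr rfl fun i _ => ?_
      rw [Finset.mul_sum]
    let h : 𝓞 L →ₐ[𝓞 k] F :=
      { toFun := fun y => (N₂ : F)⁻¹ * h0 y
        map_one' := by
          have := hpure 1 1
          simp only [map_one, mul_one] at this
          rw [this, inv_mul_cancel₀ h2]
        map_mul' := fun y y' => by
          have := hmul y y'
          field_simp
          rw [← this]
        map_zero' := by rw [hzero, mul_zero]
        map_add' := fun y y' => by rw [hadd]; ring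
        commutes' := fun r => by
          have := hpure (algebraMap (𝓞 k) (𝓞 K) r) 1
          rw [map_one, map_one, mul_one, mul_one, f.commutes,
            ← IsScalarTower.algebraMap_apply] at this
          rw [this, ← mul_assoc, inv_mul_cancel₀ h2, one_mul] }
    refine ⟨h, ?_⟩
    apply Prod.ext
    · ext x
      change (N₂ : F)⁻¹ * h0 (algebraMap (𝓞 K) (𝓞 L) x) = f x
      have := hpure x 1
      rw [map_one, map_one, mul_one, mul_one] at this
      rw [this, ← mul_assoc, inv_mul_cancel₀ h2, one_mul]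
    · ext x
      change (N₂ : F)⁻¹ * h0 (algebraMap (𝓞 K') (𝓞 L) x) = g x
      have := hpure 1 x
      rw [map_one, map_one, one_mul, one_mul] at this
      rw [this, ← mul_assoc, inv_mul_cancel₀ h2, one_mul]

/-- Residue-degree-one primes multiply in a linearly disjoint compositum `L = K ⊗ K'`. -/
lemma degOne_mul {k K K' L : Type*} [Field k] [NumberField k] [Field K] [NumberField K]
    [Field K'] [NumberField K'] [Field L] [NumberField L] [Algebra k K] [Algebra k K']
    [Algebra k L] [Algebra K L] [Algebra K' L] [IsScalarTower k K L] [IsScalarTower k K' L]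
    {ι : Type*} [Fintype ι] (b : Module.Basis ι k K) (b' : Module.Basis ι K' L)
    (hb : ∀ i, b' i = algebraMap K L (b i)) (hint : ∀ i, IsIntegral ℤ (b i)) :
    {𝔭 : HeightOneSpectrum (𝓞 k) | degOne k L 𝔭 ≠ degOne k K 𝔭 * degOne k K' 𝔭}.Finite := by
  obtain ⟨N₁, hN₁, ρ⟩ := exists_common_den b
  obtain ⟨N₂, hN₂, c⟩ := exists_common_den b'
  choose ρ hρ using ρ
  choose c hc using c
  have hI : Ideal.span {((N₁ * N₂ : ℕ) : 𝓞 k)} ≠ ⊥ := by
    rw [Ne, Ideal.span_singleton_eq_bot]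
    exact_mod_cast mul_ne_zero hN₁ hN₂
  refine (Ideal.finite_factors hI).subset fun 𝔭 h𝔭 => ?_
  by_contra hcon
  apply h𝔭
  have hmem : ((N₁ * N₂ : ℕ) : 𝓞 k) ∉ 𝔭.asIdeal := by
    intro hm
    apply hcon
    change 𝔭.asIdeal ∣ _
    rw [Ideal.dvd_span_singleton]
    exact hm
  letI : Field (𝓞 k ⧸ 𝔭.asIdeal) := Ideal.Quotient.field 𝔭.asIdeal
  have hne : ((N₁ * N₂ : ℕ) : 𝓞 k ⧸ 𝔭.asIdeal) ≠ 0 := by
    intro h0
    apply hmem
    rw [← Ideal.Quotient.eq_zero_iff_mem, map_natCast]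
    exact h0
  push_cast at hne
  have hbij := card_algHom_compositum b b' hb (fun i => ⟨b i, hint i⟩) (fun i => rfl) N₁ N₂ ρ hρ c hc
    (𝓞 k ⧸ 𝔭.asIdeal) (left_ne_zero_of_mul hne) (right_ne_zero_of_mul hne)
  rw [degOne_eq, degOne_eq, degOne_eq, ← Nat.card_prod]
  exact Nat.card_congr (Equiv.ofBijective _ hbij)

end Compositum

end Pool.Agent.H3.TatePole
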