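import Mathlib
import Pool.Agent.H3.TatePole.DegOne

open NumberField IsDedekindDomain Filter Topology

namespace Pool.Agent.H3.TatePole

section Mean

variable {k : Type*} [Field k] [NumberField k]

/-- the norm of a prime as a real number -/
noncomputable def nrm (v : HeightOneSpectrum (𝓞 k)) : ℝ := (Ideal.absNorm v.asIdeal : ℝ)

lemma two_le_nrm (v : HeightOneSpectrum (𝓞 k)) : 2 ≤ nrm v := two_le_absNorm k v

lemma nrm_pos (v : HeightOneSpectrum (𝓞 k)) : 0 < nrm v := by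
  have := two_le_nrm v; linarith

lemma summable_nrm {s : ℝ} (hs : 1 < s) :
    Summable (fun v : HeightOneSpectrum (𝓞 k) => nrm v ^ (-s)) := summable_norm_rpow k hs

/-- weighted sum `∑ u(𝔭) N(𝔭)^{-s}` -/
noncomputable def wsum (u : HeightOneSpectrum (𝓞 k) → ℝ) (s : ℝ) : ℝ :=
  ∑' v : HeightOneSpectrum (𝓞 k), u v * nrm v ^ (-s)

/-- bounded functions on primes -/
def Bdd (u : HeightOneSpectrum (𝓞 k) → ℝ) : Prop := ∃ C : ℝ, ∀ v, |u v| ≤ C

lemma Bdd.summable {u : HeightOneSpectrum (𝓞 k) → ℝ} (hu : Bdd u) {s : ℝ} (hs : 1 < s) :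
    Summable (fun v : HeightOneSpectrum (𝓞 k) => u v * nrm v ^ (-s)) := by
  obtain ⟨C, hC⟩ := hu
  refine Summable.of_norm_bounded ((summable_nrm hs).mul_left C) fun v => ?_
  rw [norm_mul, Real.norm_eq_abs, Real.norm_of_nonneg (Real.rpow_nonneg (nrm_pos v).le _)]
  exact mul_le_mul_of_nonneg_right (hC v) (Real.rpow_nonneg (nrm_pos v).le _)

lemma Bdd.add {u w : HeightOneSpectrum (𝓞 k) → ℝ} (hu : Bdd u) (hw : Bdd w) :
    Bdd (fun v => u v + w v) := by
  obtain ⟨C, hC⟩ := hu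
  obtain ⟨D, hD⟩ := hw
  exact ⟨C + D, fun v => (abs_add_le _ _).trans (add_le_add (hC v) (hD v))⟩

lemma Bdd.mul {u w : HeightOneSpectrum (𝓞 k) → ℝ} (hu : Bdd u) (hw : Bdd w) :
    Bdd (fun v => u v * w v) := by
  obtain ⟨C, hC⟩ := hu
  obtain ⟨D, hD⟩ := hw
  refine ⟨C * D, fun v => ?_⟩
  rw [abs_mul]
  exact mul_le_mul (hC v) (hD v) (abs_nonneg _) ((abs_nonneg _).trans (hC v))

lemma Bdd.const (c : ℝ) : Bdd (fun _ : HeightOneSpectrum (𝓞 k) => c) := ⟨|c|, fun _ => le_rfl⟩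

lemma Bdd.sum {ι : Type*} (t : Finset ι) {u : ι → HeightOneSpectrum (𝓞 k) → ℝ}
    (hu : ∀ i ∈ t, Bdd (u i)) : Bdd (fun v => ∑ i ∈ t, u i v) := by
  classical
  induction t using Finset.induction_on with
  | empty => simpa using Bdd.const 0
  | insert i t hi ih =>
    have h1 := (hu i (Finset.mem_insert_self i t)).add
      (ih fun j hj => hu j (Finset.mem_insert_of_mem hj))
    refine (funext fun v => ?_ : (fun v => ∑ j ∈ insert i t, u j v) =
      (fun v => u i v + ∑ j ∈ t, u j v)) ▸ h1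
    rw [Finset.sum_insert hi]

lemma wsum_add {u w : HeightOneSpectrum (𝓞 k) → ℝ} (hu : Bdd u) (hw : Bdd w) {s : ℝ} (hs : 1 < s) :
    wsum (fun v => u v + w v) s = wsum u s + wsum w s := by
  unfold wsum
  rw [← (hu.summable hs).tsum_add (hw.summable hs)]
  exact tsum_congr fun v => by ring

lemma wsum_const_mul (c : ℝ) (u : HeightOneSpectrum (𝓞 k) → ℝ) (s : ℝ) :
    wsum (fun v => c * u v) s = c * wsum u s := by
  unfold wsum
  rw [← tsum_mul_left]
  exact tsum_congr fun v => by ring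

lemma wsum_sum {ι : Type*} (t : Finset ι) {u : ι → HeightOneSpectrum (𝓞 k) → ℝ}
    (hu : ∀ i ∈ t, Bdd (u i)) {s : ℝ} (hs : 1 < s) :
    wsum (fun v => ∑ i ∈ t, u i v) s = ∑ i ∈ t, wsum (u i) s := by
  unfold wsum
  rw [← Summable.tsum_finsetSum (fun i hi => (hu i hi).summable hs)]
  refine tsum_congr fun v => ?_
  rw [Finset.sum_mul]

lemma wsum_mono {u w : HeightOneSpectrum (𝓞 k) → ℝ} (hu : Bdd u) (hw : Bdd w)
    (h : ∀ v, u v ≤ w v) {s : ℝ} (hs : 1 < s) : wsum u s ≤ wsum w s :=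
  (hu.summable hs).tsum_le_tsum
    (fun v => mul_le_mul_of_nonneg_right (h v) (Real.rpow_nonneg (nrm_pos v).le _)) (hw.summable hs)

/-- Cauchy-Schwarz -/
lemma wsum_cs {u w : HeightOneSpectrum (𝓞 k) → ℝ} (hu : Bdd u) (hw : Bdd w) {s : ℝ} (hs : 1 < s) :
    (wsum (fun v => u v * w v) s) ^ 2 ≤ wsum (fun v => u v ^ 2) s * wsum (fun v => w v ^ 2) s := by
  have hu2 : Bdd (fun v => u v ^ 2) := by simpa [sq] using hu.mul hu
  have hw2 : Bdd (fun v => w v ^ 2) := by simpa [sq] using hw.mul hw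
  -- discriminant argument
  have key : ∀ x : ℝ, 0 ≤ wsum (fun v => w v ^ 2) s * (x * x) +
      2 * wsum (fun v => u v * w v) s * x + wsum (fun v => u v ^ 2) s := by
    intro x
    have h1 : wsum (fun v => (u v + x * w v) ^ 2) s =
        wsum (fun v => w v ^ 2) s * (x * x) + 2 * wsum (fun v => u v * w v) s * x +
          wsum (fun v => u v ^ 2) s := by
      have e : (fun v => (u v + x * w v) ^ 2) =
          fun v => ((x * x) * w v ^ 2 + (2 * x) * (u v * w v)) + u v ^ 2 := by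
        funext v; ring
      rw [e, wsum_add (((Bdd.const (x * x)).mul hw2).add ((Bdd.const (2 * x)).mul (hu.mul hw))) hu2 hs,
        wsum_add ((Bdd.const (x * x)).mul hw2) ((Bdd.const (2 * x)).mul (hu.mul hw)) hs,
        wsum_const_mul, wsum_const_mul]
      ring
    rw [← h1]
    exact tsum_nonneg fun v => mul_nonneg (sq_nonneg _) (Real.rpow_nonneg (nrm_pos v).le _)
  have := discrim_le_zero key
  unfold discrim at this
  nlinarith

/-- `u` has mean value `m` in the sense of logarithmic (Dirichlet) density, along the filter `𝓕` -/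
def HasMean (𝓕 : Filter ℝ) (u : HeightOneSpectrum (𝓞 k) → ℝ) (m : ℝ) : Prop :=
  Tendsto (fun s => wsum u s / Lam s) 𝓕 (𝓝 m)

lemma HasMean.mono {𝓕 𝓖 : Filter ℝ} (h : 𝓕 ≤ 𝓖) {u : HeightOneSpectrum (𝓞 k) → ℝ} {m : ℝ}
    (hu : HasMean 𝓖 u m) : HasMean 𝓕 u m := Tendsto.mono_left hu h

lemma hasMean_one : HasMean (𝓝[>] 1) (fun _ : HeightOneSpectrum (𝓞 k) => (1 : ℝ)) 1 := by
  refine (primeSum_asymp k).congr fun s => ?_
  unfold primeSum wsum
  simp [nrm]

lemma HasMean.add {𝓕 : Filter ℝ} (h𝓕 : 𝓕 ≤ 𝓝[>] 1) {u w : HeightOneSpectrum (𝓞 k) → ℝ} {m m' : ℝ}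
    (hbu : Bdd u) (hbw : Bdd w) (hu : HasMean 𝓕 u m) (hw : HasMean 𝓕 w m') :
    HasMean 𝓕 (fun v => u v + w v) (m + m') := by
  refine (Tendsto.add hu hw).congr' ?_
  have : ∀ᶠ s : ℝ in 𝓕, 1 < s := h𝓕 self_mem_nhdsWithin
  filter_upwards [this] with s hs
  rw [wsum_add hbu hbw hs]
  ring

lemma HasMean.const_mul {𝓕 : Filter ℝ} {u : HeightOneSpectrum (𝓞 k) → ℝ} {m : ℝ} (c : ℝ)
    (hu : HasMean 𝓕 u m) : HasMean 𝓕 (fun v => c * u v) (c * m) := by
  refine (Tendsto.const_mul c hu).congr fun s => ?_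
  rw [wsum_const_mul]
  ring

lemma HasMean.sum {𝓕 : Filter ℝ} (h𝓕 : 𝓕 ≤ 𝓝[>] 1) {ι : Type*} (t : Finset ι)
    {u : ι → HeightOneSpectrum (𝓞 k) → ℝ} {m : ι → ℝ}
    (hbu : ∀ i ∈ t, Bdd (u i)) (hu : ∀ i ∈ t, HasMean 𝓕 (u i) (m i)) :
    HasMean 𝓕 (fun v => ∑ i ∈ t, u i v) (∑ i ∈ t, m i) := by
  refine (tendsto_finset_sum t hu).congr' ?_
  have : ∀ᶠ s : ℝ in 𝓕, 1 < s := h𝓕 self_mem_nhdsWithin
  filter_upwards [this] with s hs
  rw [wsum_sum t hbu hs, Finset.sum_div]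

/-- changing finitely many values does not affect the mean -/
lemma hasMean_congr {u w : HeightOneSpectrum (𝓞 k) → ℝ} (hbu : Bdd u) (hbw : Bdd w)
    (hfin : {v | u v ≠ w v}.Finite) {m : ℝ} (hu : HasMean (𝓝[>] 1) u m) :
    HasMean (𝓝[>] 1) w m := by
  obtain ⟨C, hC⟩ := hbu
  obtain ⟨D, hD⟩ := hbw
  refine tendsto_of_bounded_diff (f := wsum u) (C := ∑ v ∈ hfin.toFinset, (C + D)) ?_ hu
  filter_upwards [self_mem_nhdsWithin] with s hs
  have hs' : 1 < s := hs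
  have h1 : wsum u s - wsum w s = ∑' v, (u v - w v) * nrm v ^ (-s) := by
    unfold wsum
    rw [← (Bdd.summable ⟨C, hC⟩ hs').tsum_sub (Bdd.summable ⟨D, hD⟩ hs')]
    exact tsum_congr fun v => by ring
  rw [h1, tsum_eq_sum (s := hfin.toFinset)]
  · refine (Finset.abs_sum_le_sum_abs _ _).trans (Finset.sum_le_sum fun v _ => ?_)
    rw [abs_mul]
    have h2 : |u v - w v| ≤ C + D := by
      have := abs_sub (u v) (w v)
      have h3 := hC v
      have h4 := hD v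
      linarith
    have h5 : |nrm v ^ (-s)| ≤ 1 := by
      rw [abs_of_nonneg (Real.rpow_nonneg (nrm_pos v).le _)]
      exact (Real.rpow_le_one_of_one_le_of_nonpos (by linarith [two_le_nrm v]) (by linarith))
    calc |u v - w v| * |nrm v ^ (-s)| ≤ (C + D) * 1 :=
          mul_le_mul h2 h5 (abs_nonneg _) ((abs_nonneg _).trans h2)
      _ = C + D := mul_one _
  · intro v hv
    have : u v = w v := by
      by_contra hne
      exact hv (by simpa using hne)
    rw [this, sub_self, zero_mul]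

end Mean

end Pool.Agent.H3.TatePole
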