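import Mathlib
import Pool.Agent.H3.TatePole.Mean

open NumberField IsDedekindDomain Filter Topology

namespace Pool.Agent.H3.TatePole

section Ext

variable {k K : Type*} [Field k] [NumberField k] [Field K] [NumberField K] [Algebra k K]

/-- the prime of `k` below a prime of `K` -/
noncomputable def below (k : Type*) {K : Type*} [Field k] [NumberField k] [Field K] [NumberField K]
    [Algebra k K] (P : HeightOneSpectrum (𝓞 K)) : HeightOneSpectrum (𝓞 k) where
  asIdeal := P.asIdeal.under (𝓞 k)
  isPrime := inferInstance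
  ne_bot := Ideal.IsIntegral.comap_ne_bot _ P.ne_bot

lemma below_asIdeal (P : HeightOneSpectrum (𝓞 K)) :
    (below k P).asIdeal = P.asIdeal.under (𝓞 k) := rfl

lemma fiber_card (p : HeightOneSpectrum (𝓞 k)) :
    Finite {P : HeightOneSpectrum (𝓞 K) // below k P = p} ∧
    Nat.card {P : HeightOneSpectrum (𝓞 K) // below k P = p} ≤ Module.finrank k K := by
  classical
  have hp : p.asIdeal.IsMaximal := p.isMaximal
  let f : {P : HeightOneSpectrum (𝓞 K) // below k P = p} →
      (IsDedekindDomain.primesOverFinset p.asIdeal (𝓞 K)) := fun P =>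
    ⟨P.1.asIdeal, (IsDedekindDomain.mem_primesOverFinset_iff p.ne_bot _).mpr
      ⟨P.1.isPrime, ⟨(congrArg HeightOneSpectrum.asIdeal P.2).symm⟩⟩⟩
  have hf : Function.Injective f := by
    intro P Q h
    apply Subtype.ext
    apply HeightOneSpectrum.ext
    exact congrArg Subtype.val h
  refine ⟨Finite.of_injective f hf, ?_⟩
  refine (Nat.card_le_card_of_injective f hf).trans ?_
  rw [Nat.card_eq_fintype_card, Fintype.card_coe]
  haveI : NoZeroSMulDivisors (𝓞 k) (𝓞 K) := ⟨fun {c x} h => by
    rw [Algebra.smul_def, mul_eq_zero] at h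
    rcases h with h | h
    · left
      exact FaithfulSMul.algebraMap_injective (𝓞 k) (𝓞 K) (by rw [h, map_zero])
    · right; exact h⟩
  exact Ideal.card_primesOverFinset_le_finrank (𝓞 K) k K p.ne_bot

lemma absNorm_ge_sq {P : HeightOneSpectrum (𝓞 K)} (h : nrm P ≠ nrm (below k P)) :
    nrm (below k P) ^ 2 ≤ nrm P := by
  have hfin : Finite (𝓞 K ⧸ P.asIdeal) := Ideal.finiteQuotientOfFreeOfNeBot _ P.ne_bot
  have hfin' : Finite (𝓞 k ⧸ (below k P).asIdeal) := finite_quot _
  have hlies : P.asIdeal.LiesOver (below k P).asIdeal := ⟨rfl⟩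
  letI : Field (𝓞 k ⧸ (below k P).asIdeal) := Ideal.Quotient.field _
  have hcard : Nat.card (𝓞 K ⧸ P.asIdeal) = Nat.card (𝓞 k ⧸ (below k P).asIdeal) ^
      Module.finrank (𝓞 k ⧸ (below k P).asIdeal) (𝓞 K ⧸ P.asIdeal) :=
    Module.natCard_eq_pow_finrank
  set d := Module.finrank (𝓞 k ⧸ (below k P).asIdeal) (𝓞 K ⧸ P.asIdeal) with hd
  have h1 : nrm P = nrm (below k P) ^ d := by
    unfold nrm
    rw [Ideal.absNorm_apply, Ideal.absNorm_apply, Submodule.cardQuot_apply,
      Submodule.cardQuot_apply, hcard]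
    push_cast
    rfl
  have h2 := two_le_nrm (below k P)
  have hd0 : d ≠ 0 := by
    intro h0
    rw [h0, pow_zero] at h1
    have := two_le_nrm P
    linarith
  have hd1 : d ≠ 1 := by
    intro h0
    rw [h0, pow_one] at h1
    exact h h1
  rw [h1]
  exact pow_le_pow_right₀ (by linarith) (by omega)

lemma summable_below {g : HeightOneSpectrum (𝓞 k) → ℝ} (hg0 : ∀ v, 0 ≤ g v) (hg : Summable g) :
    Summable (fun P : HeightOneSpectrum (𝓞 K) => g (below k P)) := by
  rw [← (Equiv.sigmaFiberEquiv (fun P : HeightOneSpectrum (𝓞 K) => below k P)).summable_iff]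
  change Summable (fun x : (Σ y : HeightOneSpectrum (𝓞 k),
    {P : HeightOneSpectrum (𝓞 K) // below k P = y}) => g (below k x.2.1))
  rw [summable_sigma_of_nonneg (fun x => hg0 _)]
  constructor
  · intro p
    have := (fiber_card (K := K) p).1
    exact Summable.of_finite
  · have hle : ∀ p : HeightOneSpectrum (𝓞 k),
        ∑' y : {P : HeightOneSpectrum (𝓞 K) // below k P = p}, g (below k y.1) ≤
          (Module.finrank k K : ℝ) * g p := by
      intro p
      have hfin := (fiber_card (K := K) p).1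
      cases nonempty_fintype {P : HeightOneSpectrum (𝓞 K) // below k P = p}
      have hval : ∀ y : {P : HeightOneSpectrum (𝓞 K) // below k P = p},
          g (below k y.1) = g p := by
        intro y
        rw [y.2]
      rw [tsum_congr hval, tsum_const, nsmul_eq_mul]
      refine mul_le_mul_of_nonneg_right ?_ (hg0 p)
      exact_mod_cast (fiber_card (K := K) p).2
    refine Summable.of_nonneg_of_le (fun p => tsum_nonneg fun y => hg0 _) hle (hg.mul_left _)

/-- primes of residue degree at least two contribute a bounded amount -/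
lemma bounded_higher_degree (k K : Type*) [Field k] [NumberField k] [Field K] [NumberField K]
    [Algebra k K] : Summable (fun P : HeightOneSpectrum (𝓞 K) => nrm (below k P) ^ (-2 : ℝ)) :=
  summable_below (fun v => Real.rpow_nonneg (nrm_pos v).le _) (summable_nrm (by norm_num))

lemma tsum_degOne {u : HeightOneSpectrum (𝓞 k) → ℝ} (hu : Bdd u) {s : ℝ} (hs : 1 < s) :
    wsum (fun P : HeightOneSpectrum (𝓞 K) =>
      open scoped Classical in if nrm P = nrm (below k P) then u (below k P) else 0) s =
    wsum (fun p => u p * degOne k K p) s := by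
  classical
  have hB : Bdd (fun P : HeightOneSpectrum (𝓞 K) =>
      if nrm P = nrm (below k P) then u (below k P) else 0) := by
    obtain ⟨C, hC⟩ := hu
    refine ⟨C, fun P => ?_⟩
    dsimp only
    split_ifs
    · exact hC _
    · rw [abs_zero]; exact (abs_nonneg _).trans (hC (below k P))
  have hsum := hB.summable hs
  unfold wsum
  have h1 := hsum.hasSum.tsum_fiberwise (fun P : HeightOneSpectrum (𝓞 K) => below k P)
  have h2 : (fun p : HeightOneSpectrum (𝓞 k) =>
      ∑' (b : ↑((fun P : HeightOneSpectrum (𝓞 K) => below k P) ⁻¹' {p})),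
        (if nrm (b : HeightOneSpectrum (𝓞 K)) = nrm (below k (b : HeightOneSpectrum (𝓞 K))) then
          u (below k (b : HeightOneSpectrum (𝓞 K))) else 0) *
          nrm (b : HeightOneSpectrum (𝓞 K)) ^ (-s)) =
      fun p => u p * degOne k K p * nrm p ^ (-s) := by
    funext p
    have hfin : Finite ↑((fun P : HeightOneSpectrum (𝓞 K) => below k P) ⁻¹' {p}) :=
      (fiber_card (K := K) p).1
    cases nonempty_fintype ↑((fun P : HeightOneSpectrum (𝓞 K) => below k P) ⁻¹' {p})
    rw [tsum_fintype]
    have hval : ∀ b : ↑((fun P : HeightOneSpectrum (𝓞 K) => below k P) ⁻¹' {p}),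
        (if nrm (b : HeightOneSpectrum (𝓞 K)) = nrm (below k (b : HeightOneSpectrum (𝓞 K))) then
          u (below k (b : HeightOneSpectrum (𝓞 K))) else 0) *
          nrm (b : HeightOneSpectrum (𝓞 K)) ^ (-s) =
        if nrm (b : HeightOneSpectrum (𝓞 K)) = nrm p then u p * nrm p ^ (-s) else 0 := by
      intro b
      have hb : below k (b : HeightOneSpectrum (𝓞 K)) = p := b.2
      rw [hb]
      split_ifs with h
      · rw [h]
      · rw [zero_mul]
    rw [Finset.sum_congr rfl (fun b _ => hval b), ← Finset.sum_filter, Finset.sum_const,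
      nsmul_eq_mul]
    have hcard : (Finset.filter (fun b : ↑((fun P : HeightOneSpectrum (𝓞 K) => below k P) ⁻¹' {p}) =>
        nrm (b : HeightOneSpectrum (𝓞 K)) = nrm p) Finset.univ).card = degOne k K p := by
      unfold degOne
      rw [← Fintype.card_subtype, ← Nat.card_eq_fintype_card]
      refine Nat.card_congr
        ⟨fun b => ⟨b.1.1, ?_, ?_⟩, fun b => ⟨⟨b.1, ?_⟩, ?_⟩, fun b => rfl, fun b => rfl⟩
      · have hb : below k (b.1 : HeightOneSpectrum (𝓞 K)) = p := b.1.2
        exact congrArg HeightOneSpectrum.asIdeal hb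
      · have := b.2
        unfold nrm at this
        exact_mod_cast this
      · change below k b.1 = p
        apply HeightOneSpectrum.ext
        exact b.2.1
      · change nrm b.1 = nrm p
        unfold nrm
        rw [b.2.2]
    rw [hcard]
    ring
  rw [← h1.tsum_eq]
  exact tsum_congr (fun p => congrFun h2 p)

/-- comparison of a weighted prime sum over `K` with one over `k` -/
lemma wsum_compare {u : HeightOneSpectrum (𝓞 k) → ℝ} {U : HeightOneSpectrum (𝓞 K) → ℝ}
    (hu : Bdd u) (hU : Bdd U)
    (h : {P : HeightOneSpectrum (𝓞 K) | nrm P = nrm (below k P) ∧ U P ≠ u (below k P)}.Finite) :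
    ∃ C : ℝ, ∀ s : ℝ, 1 < s → |wsum U s - wsum (fun p => u p * degOne k K p) s| ≤ C := by
  classical
  obtain ⟨A, hA⟩ := hu
  obtain ⟨D, hD⟩ := hU
  have hA0 : 0 ≤ A := by
    obtain ⟨P⟩ : Nonempty (HeightOneSpectrum (𝓞 k)) := by
      obtain ⟨M, hM⟩ := Ideal.exists_maximal (𝓞 k)
      exact ⟨⟨M, hM.isPrime, Ring.ne_bot_of_isMaximal_of_not_isField hM
        (RingOfIntegers.not_isField k)⟩⟩
    exact (abs_nonneg _).trans (hA P)
  have hD0 : 0 ≤ D := by
    obtain ⟨P⟩ : Nonempty (HeightOneSpectrum (𝓞 K)) := by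
      obtain ⟨M, hM⟩ := Ideal.exists_maximal (𝓞 K)
      exact ⟨⟨M, hM.isPrime, Ring.ne_bot_of_isMaximal_of_not_isField hM
        (RingOfIntegers.not_isField K)⟩⟩
    exact (abs_nonneg _).trans (hD P)
  let V : HeightOneSpectrum (𝓞 K) → ℝ := fun P =>
    if nrm P = nrm (below k P) then u (below k P) else 0
  have hV : ∀ P, |V P| ≤ A := by
    intro P
    simp only [V]
    split_ifs
    · exact hA _
    · rw [abs_zero]; exact hA0
  -- majorant
  let M : HeightOneSpectrum (𝓞 K) → ℝ := fun P =>
    (D + A) * nrm (below k P) ^ (-2 : ℝ) + if P ∈ h.toFinset then (D + A) else 0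
  have hMsum : Summable M := by
    refine Summable.add ((bounded_higher_degree k K).mul_left _) ?_
    exact summable_of_ne_finset_zero (s := h.toFinset) (fun P hP => by simp [hP])
  refine ⟨∑' P, M P, fun s hs => ?_⟩
  rw [← tsum_degOne (K := K) ⟨A, hA⟩ hs]
  have e1 : wsum U s - wsum V s = ∑' P, (U P - V P) * nrm P ^ (-s) := by
    unfold wsum
    rw [← (Bdd.summable ⟨D, hD⟩ hs).tsum_sub (Bdd.summable ⟨A, hV⟩ hs)]
    exact tsum_congr fun P => by ring
  have e2 : Summable (fun P : HeightOneSpectrum (𝓞 K) => (U P - V P) * nrm P ^ (-s)) := by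
    have := (Bdd.summable (u := U) ⟨D, hD⟩ hs).sub (Bdd.summable (u := V) ⟨A, hV⟩ hs)
    refine this.congr fun P => by ring
  have hbound : ∀ P, ‖(U P - V P) * nrm P ^ (-s)‖ ≤ M P := by
    intro P
    rw [norm_mul, Real.norm_eq_abs, Real.norm_of_nonneg (Real.rpow_nonneg (nrm_pos P).le _)]
    have h3 : |U P - V P| ≤ D + A := by
      have := abs_sub (U P) (V P)
      linarith [hD P, hV P]
    have hle1 : nrm P ^ (-s) ≤ 1 :=
      Real.rpow_le_one_of_one_le_of_nonpos (by linarith [two_le_nrm P]) (by linarith)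
    by_cases hP : nrm P = nrm (below k P)
    · by_cases hP2 : U P = u (below k P)
      · have : V P = U P := by simp only [V, hP, if_true, hP2]
        rw [this, sub_self, abs_zero, zero_mul]
        simp only [M]
        have : 0 ≤ (D + A) * nrm (below k P) ^ (-2 : ℝ) :=
          mul_nonneg (by linarith) (Real.rpow_nonneg (nrm_pos _).le _)
        split_ifs <;> linarith
      · have hmem : P ∈ h.toFinset := by simp [hP, hP2]
        simp only [M, hmem, if_true]
        have : 0 ≤ (D + A) * nrm (below k P) ^ (-2 : ℝ) :=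
          mul_nonneg (by linarith) (Real.rpow_nonneg (nrm_pos _).le _)
        have h4 : |U P - V P| * nrm P ^ (-s) ≤ (D + A) * 1 :=
          mul_le_mul h3 hle1 (Real.rpow_nonneg (nrm_pos _).le _) (by linarith)
        linarith
    · have h5 := absNorm_ge_sq hP
      have h6 : nrm P ^ (-s) ≤ nrm (below k P) ^ (-2 : ℝ) := by
        calc nrm P ^ (-s) ≤ nrm P ^ (-1 : ℝ) :=
              Real.rpow_le_rpow_of_exponent_le (by linarith [two_le_nrm P]) (by linarith)
          _ ≤ (nrm (below k P) ^ 2) ^ (-1 : ℝ) := by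
              apply Real.rpow_le_rpow_of_nonpos _ h5 (by norm_num)
              exact pow_pos (nrm_pos _) 2
          _ = nrm (below k P) ^ (-2 : ℝ) := by
              rw [← Real.rpow_natCast, ← Real.rpow_mul (nrm_pos _).le]
              norm_num
      have h7 : |U P - V P| * nrm P ^ (-s) ≤ (D + A) * nrm (below k P) ^ (-2 : ℝ) :=
        mul_le_mul h3 h6 (Real.rpow_nonneg (nrm_pos _).le _) (by linarith)
      simp only [M]
      split_ifs <;> linarith
  rw [e1, ← Real.norm_eq_abs]
  calc ‖∑' P, (U P - V P) * nrm P ^ (-s)‖ ≤ ∑' P, ‖(U P - V P) * nrm P ^ (-s)‖ :=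
        norm_tsum_le_tsum_norm e2.norm
    _ ≤ ∑' P, M P := e2.norm.tsum_le_tsum hbound hMsum

lemma degOne_le (p : HeightOneSpectrum (𝓞 k)) : degOne k K p ≤ Module.finrank k K := by
  refine le_trans ?_ (fiber_card (K := K) p).2
  have := (fiber_card (K := K) p).1
  unfold degOne
  refine Nat.card_le_card_of_injective
    (fun P => ⟨P.1, HeightOneSpectrum.ext P.2.1⟩) ?_
  intro P Q h
  exact Subtype.ext (congrArg (fun z => z.1) h)

lemma degOne_bdd (k K : Type*) [Field k] [NumberField k] [Field K] [NumberField K]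
    [Algebra k K] : Bdd (fun p : HeightOneSpectrum (𝓞 k) => (degOne k K p : ℝ)) := by
  refine ⟨Module.finrank k K, fun p => ?_⟩
  rw [Nat.abs_cast]
  exact_mod_cast degOne_le p

lemma degOne_mean (k K : Type*) [Field k] [NumberField k] [Field K] [NumberField K]
    [Algebra k K] : HasMean (𝓝[>] 1) (fun p : HeightOneSpectrum (𝓞 k) => (degOne k K p : ℝ)) 1 := by
  obtain ⟨C, hC⟩ := wsum_compare (k := k) (K := K) (u := fun _ => 1) (U := fun _ => 1)
    (Bdd.const 1) (Bdd.const 1) (by simp)
  refine tendsto_of_bounded_diff (f := wsum (fun _ : HeightOneSpectrum (𝓞 K) => (1 : ℝ))) (C := C) ?_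
    hasMean_one
  filter_upwards [self_mem_nhdsWithin] with s hs
  simpa using hC s hs

end Ext

end Pool.Agent.H3.TatePole
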