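import Mathlib

open NumberField IsDedekindDomain Filter Topology Polynomial

/-!
Definitions: Frobenius elements, the `L`-function of a representation of the Galois group of a
number field, weights at most two, poles, twists.
-/

namespace Pool.Agent.H3.TatePole

section Frob

variable {F : Type*} [Field F] [NumberField F] {Ω : Type*} [Field Ω] [Algebra F Ω]

instance smulCommClass_gal : SMulCommClass Gal(Ω/F) (𝓞 F) (𝓞 Ω) where
  smul_comm σ a x := by
    apply RingOfIntegers.coe_injective (K := Ω)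
    have h1 : ∀ (τ : Gal(Ω/F)) (y : 𝓞 Ω), algebraMap (𝓞 Ω) Ω (τ • y) = τ (algebraMap (𝓞 Ω) Ω y) :=
      fun τ y => rfl
    have h2 : ∀ (y : 𝓞 Ω), algebraMap (𝓞 Ω) Ω (a • y) =
        algebraMap F Ω (algebraMap (𝓞 F) F a) * algebraMap (𝓞 Ω) Ω y := by
      intro y
      rw [Algebra.smul_def, map_mul]
      rfl
    rw [h1, h2, h2, h1, map_mul, AlgEquiv.commutes]

/-- A prime of the ring `𝓞 Ω` of all algebraic integers of `Ω` above the prime `𝔭` of `F`,
together with an arithmetic Frobenius element at it. -/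
structure FrobeniusAt (Ω : Type*) [Field Ω] [Algebra F Ω] (𝔭 : HeightOneSpectrum (𝓞 F)) where
  /-- the prime above `𝔭` -/
  Q : Ideal (𝓞 Ω)
  isPrime : Q.IsPrime
  under_eq : Q.under (𝓞 F) = 𝔭.asIdeal
  /-- an arithmetic Frobenius at `Q` -/
  φ : Gal(Ω/F)
  isArithFrob : IsArithFrobAt (𝓞 F) φ Q

instance isInvariant_gal [IsGalois F Ω] : Algebra.IsInvariant (𝓞 F) (𝓞 Ω) Gal(Ω/F) where
  isInvariant b hb := by
    have h1 : ∀ g : Gal(Ω/F), g (algebraMap (𝓞 Ω) Ω b) = algebraMap (𝓞 Ω) Ω b := by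
      intro g
      exact congrArg (algebraMap (𝓞 Ω) Ω) (hb g)
    have h2 := (InfiniteGalois.mem_bot_iff_fixed (algebraMap (𝓞 Ω) Ω b)).mpr h1
    obtain ⟨a, ha⟩ := h2
    have hint : IsIntegral ℤ a := by
      have : IsIntegral ℤ (algebraMap F Ω a) := by
        change (algebraMap F Ω) a = _ at ha
        rw [ha]
        exact RingOfIntegers.isIntegral_coe b
      exact (isIntegral_algebraMap_iff (algebraMap F Ω).injective).mp this
    refine ⟨⟨a, hint⟩, ?_⟩
    apply RingOfIntegers.coe_injective (K := Ω)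
    exact ha

lemma continuousSMul_gal [IsGalois F Ω] : letI : TopologicalSpace (𝓞 Ω) := ⊥
    ContinuousSMul Gal(Ω/F) (𝓞 Ω) := by
  letI : TopologicalSpace (𝓞 Ω) := ⊥
  haveI : DiscreteTopology (𝓞 Ω) := ⟨rfl⟩
  rw [continuousSMul_iff_stabilizer_isOpen]
  intro x
  have h := stabilizer_isOpen_of_isIntegral (K := F) (algebraMap (𝓞 Ω) Ω x)
  have e : (MulAction.stabilizer Gal(Ω/F) x : Set Gal(Ω/F)) =
      (MulAction.stabilizer Gal(Ω/F) (algebraMap (𝓞 Ω) Ω x) : Set Gal(Ω/F)) := by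
    ext g
    simp only [SetLike.mem_coe, MulAction.mem_stabilizer_iff]
    constructor
    · intro hg
      exact congrArg (algebraMap (𝓞 Ω) Ω) hg
    · intro hg
      exact RingOfIntegers.coe_injective (K := Ω) hg
  rw [e]
  exact h

/-- Frobenius elements exist. -/
theorem nonempty_frobeniusAt [IsGalois F Ω] (𝔭 : HeightOneSpectrum (𝓞 F)) :
    Nonempty (FrobeniusAt Ω 𝔭) := by
  letI : TopologicalSpace (𝓞 Ω) := ⊥
  haveI : DiscreteTopology (𝓞 Ω) := ⟨rfl⟩
  haveI : ContinuousSMul Gal(Ω/F) (𝓞 Ω) := continuousSMul_gal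
  haveI : Algebra.IsIntegral (𝓞 F) (𝓞 Ω) := inferInstance
  haveI : 𝔭.asIdeal.IsMaximal := 𝔭.isMaximal
  obtain ⟨Q, hQ, hlies⟩ := Ideal.exists_maximal_ideal_liesOver_of_isIntegral 𝔭.asIdeal (S := 𝓞 Ω)
  haveI : Finite (𝓞 F ⧸ 𝔭.asIdeal) := Ideal.finiteQuotientOfFreeOfNeBot _ 𝔭.ne_bot
  letI : Fintype (𝓞 F ⧸ 𝔭.asIdeal) := Fintype.ofFinite _
  letI : Field (𝓞 F ⧸ 𝔭.asIdeal) := Ideal.Quotient.field _
  letI : Field (𝓞 Ω ⧸ Q) := Ideal.Quotient.field _
  haveI : Algebra.IsAlgebraic (𝓞 F ⧸ 𝔭.asIdeal) (𝓞 Ω ⧸ Q) := Algebra.IsIntegral.isAlgebraic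
  obtain ⟨⟨σ, hσ⟩, hσ2⟩ := Ideal.Quotient.stabilizerHom_surjective_of_profinite (G := Gal(Ω/F))
    𝔭.asIdeal Q (FiniteField.frobeniusAlgEquivOfAlgebraic (𝓞 F ⧸ 𝔭.asIdeal) (𝓞 Ω ⧸ Q))
  refine ⟨⟨Q, hQ.isPrime, hlies.over.symm, σ, fun x => ?_⟩⟩
  have h1 := DFunLike.congr_fun hσ2 (Ideal.Quotient.mk Q x)
  have h2 : Ideal.Quotient.mk Q (σ • x) = Ideal.Quotient.mk Q x ^ Fintype.card (𝓞 F ⧸ 𝔭.asIdeal) := h1
  rw [← map_pow, Ideal.Quotient.eq] at h2
  have h3 : Nat.card (𝓞 F ⧸ Q.under (𝓞 F)) = Fintype.card (𝓞 F ⧸ 𝔭.asIdeal) := by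
    rw [← hlies.over, Nat.card_eq_fintype_card]
  rw [h3]
  exact h2

end Frob

section Rep

variable {F : Type*} [Field F] [NumberField F] {Ω : Type*} [Field Ω] [Algebra F Ω]
variable {E V : Type*} [Field E] [AddCommGroup V] [Module E V]

/-- The subspace `V^{I_Q}` of vectors fixed by the inertia group at the prime `Q` of `𝓞 Ω`. -/
def inertiaInvariants (ρ : Representation E Gal(Ω/F) V) (Q : Ideal (𝓞 Ω)) : Submodule E V where
  carrier := {v | ∀ σ ∈ Q.inertia Gal(Ω/F), ρ σ v = v}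
  add_mem' := fun {a b} ha hb σ hσ => by rw [map_add, ha σ hσ, hb σ hσ]
  zero_mem' := fun σ _ => map_zero _
  smul_mem' := fun c v hv σ hσ => by rw [map_smul, hv σ hσ]

open scoped Pointwise in
/-- conjugating inertia -/
lemma inertia_conj {Q : Ideal (𝓞 Ω)} {τ σ : Gal(Ω/F)} (hσ : σ ∈ (τ • Q).inertia Gal(Ω/F)) :
    τ⁻¹ * σ * τ ∈ Q.inertia Gal(Ω/F) := by
  intro x
  have h : σ • τ • x - τ • x ∈ τ • Q := hσ (τ • x)
  rw [Ideal.mem_pointwise_smul_iff_inv_smul_mem, smul_sub, inv_smul_smul] at h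
  change (τ⁻¹ * σ * τ) • x - x ∈ Q
  rw [mul_smul, mul_smul]
  exact h

open scoped Pointwise in
lemma frob_preserves (ρ : Representation E Gal(Ω/F) V) {𝔭 : HeightOneSpectrum (𝓞 F)}
    (D : FrobeniusAt Ω 𝔭) :
    ∀ v ∈ inertiaInvariants ρ D.Q, ρ D.φ⁻¹ v ∈ inertiaInvariants ρ D.Q := by
  haveI := D.isPrime
  intro v hv σ hσ
  have hstab : D.φ • D.Q = D.Q := by
    have := D.isArithFrob.mem_stabilizer
    exact this
  have h1 : D.φ * σ * D.φ⁻¹ ∈ D.Q.inertia Gal(Ω/F) := by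
    have h2 : (D.φ⁻¹)⁻¹ * σ * D.φ⁻¹ ∈ (D.Q).inertia Gal(Ω/F) := by
      apply inertia_conj
      have : D.φ⁻¹ • D.Q = D.Q := by
        conv_lhs => rw [← hstab]
        rw [inv_smul_smul]
      rw [this]
      exact hσ
    rwa [inv_inv] at h2
  have h3 := hv _ h1
  rw [map_mul, map_mul] at h3
  have h4 : ρ D.φ⁻¹ (ρ D.φ (ρ σ (ρ D.φ⁻¹ v))) = ρ σ (ρ D.φ⁻¹ v) := by
    rw [← Module.End.mul_apply, ← map_mul, inv_mul_cancel, map_one, Module.End.one_apply]
  rw [← h4]
  exact congrArg (ρ D.φ⁻¹) h3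

/-- The action of geometric Frobenius on the inertia invariants. -/
noncomputable def geomFrob (ρ : Representation E Gal(Ω/F) V) {𝔭 : HeightOneSpectrum (𝓞 F)}
    (D : FrobeniusAt Ω 𝔭) : inertiaInvariants ρ D.Q →ₗ[E] inertiaInvariants ρ D.Q :=
  (ρ D.φ⁻¹).restrict (frob_preserves ρ D)

lemma geomFrob_apply (ρ : Representation E Gal(Ω/F) V) {𝔭 : HeightOneSpectrum (𝓞 F)}
    (D : FrobeniusAt Ω 𝔭) (v : inertiaInvariants ρ D.Q) :
    (geomFrob ρ D v : V) = ρ D.φ⁻¹ v := rfl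

/-- The local Euler polynomial `det(1 - X·Frob | V^{I})`. -/
noncomputable def localPoly [FiniteDimensional E V] (ρ : Representation E Gal(Ω/F) V)
    {𝔭 : HeightOneSpectrum (𝓞 F)} (D : FrobeniusAt Ω 𝔭) : E[X] :=
  (geomFrob ρ D).charpoly.reverse

/-- A chosen prime above `𝔭` with a Frobenius element (the local Euler polynomial does not depend
on the choice, see `charpoly_geomFrob_eq`). -/
noncomputable def frobeniusAt (Ω : Type*) [Field Ω] [Algebra F Ω] [IsGalois F Ω]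
    (𝔭 : HeightOneSpectrum (𝓞 F)) : FrobeniusAt Ω 𝔭 :=
  Classical.choice (nonempty_frobeniusAt 𝔭)

/-- The `L`-function `∏_𝔭 det(1 - Frob_𝔭 N(𝔭)^{-s} | V^{I_𝔭})⁻¹`. -/
noncomputable def LFunction [IsGalois F Ω] [FiniteDimensional E V] (ι : E →+* ℂ)
    (ρ : Representation E Gal(Ω/F) V) (s : ℂ) : ℂ :=
  ∏' 𝔭 : HeightOneSpectrum (𝓞 F),
    (((localPoly ρ (frobeniusAt Ω 𝔭)).map ι).eval ((Ideal.absNorm 𝔭.asIdeal : ℂ) ^ (-s)))⁻¹

/-- Restriction of a representation of `Gal(Ω/F)` to `Gal(Ω/K)`. -/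
def resRep (ρ : Representation E Gal(Ω/F) V) (K : IntermediateField F Ω) :
    Representation E Gal(Ω/K) V :=
  ρ.comp (AlgEquiv.restrictScalarsHom F)

end Rep

section Weights

variable {k : Type*} [Field k] [NumberField k] {Ω : Type*} [Field Ω] [Algebra k Ω]
variable {E V : Type*} [Field E] [AddCommGroup V] [Module E V] [FiniteDimensional E V]

instance numberField_intermediate (K : IntermediateField k Ω) [FiniteDimensional k K] :
    NumberField K := NumberField.of_module_finite k K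

/-- `ρ` is unramified outside a finite set of primes of `k`, and, over every finite extension `K`
of `k` inside `Ω` and at every prime `𝔓` of `K`, the eigenvalues `α` of geometric Frobenius on the
inertia invariants satisfy `|ι α| ≤ N(𝔓)` (weights at most two). -/
structure WeightsLeTwo (ι : E →+* ℂ) (ρ : Representation E Gal(Ω/k) V) : Prop where
  unramified : {𝔭 : HeightOneSpectrum (𝓞 k) | ∃ Q : Ideal (𝓞 Ω), Q.IsPrime ∧
    Q.under (𝓞 k) = 𝔭.asIdeal ∧ ∃ σ ∈ Q.inertia Gal(Ω/k), ρ σ ≠ 1}.Finite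
  weights : ∀ (K : IntermediateField k Ω) [FiniteDimensional k K]
    (𝔓 : HeightOneSpectrum (𝓞 K)) (D : FrobeniusAt Ω 𝔓) (z : ℂ),
    z ∈ ((geomFrob (resRep ρ K) D).charpoly.map ι).roots → ‖z‖ ≤ Ideal.absNorm 𝔓.asIdeal

/-- `L` has a pole of order `r` at `s₀`: it extends meromorphically from the half plane
`Re s > Re s₀` to a neighbourhood of `s₀`, and `(s - s₀)^r L(s)` is holomorphic and non-zero at `s₀`. -/
def HasPoleOfOrder (L : ℂ → ℂ) (s₀ : ℂ) (r : ℤ) : Prop :=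
  ∃ g : ℂ → ℂ, AnalyticAt ℂ g s₀ ∧ g s₀ ≠ 0 ∧
    ∀ᶠ s in 𝓝[{s : ℂ | s₀.re < s.re}] s₀, L s = (s - s₀) ^ (-r) * g s

end Weights

section FixedRank

variable {k : Type*} [Field k] {Ω : Type*} [Field Ω] [Algebra k Ω]
variable {W : Type*} [AddCommGroup W] [Module ℚ W]

/-- vectors fixed by the absolute Galois group of `K` -/
def fixedVectors (A : Representation ℚ Gal(Ω/k) W) (K : IntermediateField k Ω) :
    Submodule ℚ W where
  carrier := {w | ∀ σ ∈ K.fixingSubgroup, A σ w = w}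
  add_mem' := fun {a b} ha hb σ hσ => by rw [map_add, ha σ hσ, hb σ hσ]
  zero_mem' := fun σ _ => map_zero _
  smul_mem' := fun c v hv σ hσ => by rw [map_smul, hv σ hσ]

/-- the rank of the module of `Gal(Ω/K)`-invariants -/
noncomputable def fixedRank (A : Representation ℚ Gal(Ω/k) W) (K : IntermediateField k Ω) : ℕ :=
  Module.finrank ℚ (fixedVectors A K)

end FixedRank

section Growth

/-- `log |L(s)| / log (1 / (s - 2))` tends to `x` as `s` tends to `2` from the right along the real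
axis; this is the case if `L` has a pole of order `x` at `s = 2`. -/
def HasGrowth (L : ℂ → ℂ) (x : ℝ) : Prop :=
  Tendsto (fun s : ℝ => Real.log ‖L s‖ / Real.log (1 / (s - 2))) (𝓝[>] 2) (𝓝 x)

/-- The intermediate field `K` is a limit of members of `𝒦`: for every finite normal extension `M`
of `k` inside `Ω`, some member of `𝒦` has the same intersection with `M` as `K`. -/
def IsLimitOf {k : Type*} [Field k] {Ω : Type*} [Field Ω] [Algebra k Ω]
    (𝒦 : Set (IntermediateField k Ω)) (K : IntermediateField k Ω) : Prop :=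
  ∀ M : IntermediateField k Ω, FiniteDimensional k M → Normal k M → ∃ K' ∈ 𝒦, K' ⊓ M = K ⊓ M

end Growth

end Pool.Agent.H3.TatePole

namespace Pool.Agent.H3.Artin

open scoped TensorProduct

section Twist

variable {k : Type*} [Field k] [NumberField k] {Ω : Type*} [Field Ω] [Algebra k Ω]
variable {V W : Type*} [AddCommGroup V] [Module ℂ V] [AddCommGroup W] [Module ℂ W]

/-- The twist `V ⊗ χ` of a complex representation of `Gal(Ω/k)` by a representation `χ` of the
Galois group of a normal extension `M` of `k`. -/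
noncomputable def twist (ρ : Representation ℂ Gal(Ω/k) V) {M : IntermediateField k Ω} [Normal k M]
    (χ : Representation ℂ Gal(M/k) W) : Representation ℂ Gal(Ω/k) (V ⊗[ℂ] W) :=
  ρ.tprod (χ.comp (AlgEquiv.restrictNormalHom M))

/-- The `L`-function of the twist of `ρ` by `χ`. -/
noncomputable def twistedL [IsGalois k Ω] [FiniteDimensional ℂ V] [FiniteDimensional ℂ W]
    (ρ : Representation ℂ Gal(Ω/k) V) {M : IntermediateField k Ω} [Normal k M]
    (χ : Representation ℂ Gal(M/k) W) : ℂ → ℂ :=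
  Pool.Agent.H3.TatePole.LFunction (RingHom.id ℂ) (twist ρ χ)

/-- The dimension of the space of `Gal(Ω/k)`-invariant vectors of the twist of `α` by `χ`. -/
noncomputable def twistedRank (α : Representation ℂ Gal(Ω/k) V) {M : IntermediateField k Ω}
    [Normal k M] (χ : Representation ℂ Gal(M/k) W) : ℕ :=
  Module.finrank ℂ (twist α χ).invariants

/-- `ω` maps geometric Frobenius elements at all but finitely many primes to the norm of the prime
(for instance the inverse of the `ℓ`-adic cyclotomic character, viewed in `ℂ`). -/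
def IsTateTwist (ω : Gal(Ω/k) →* ℂ) : Prop :=
  {𝔭 : HeightOneSpectrum (𝓞 k) | ∃ D : Pool.Agent.H3.TatePole.FrobeniusAt Ω 𝔭,
    ω D.φ⁻¹ ≠ Ideal.absNorm 𝔭.asIdeal}.Finite

end Twist

end Pool.Agent.H3.Artin
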