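import Mathlib
import Pool.Agent.H3.TatePole.Ext
import Pool.Agent.H3.TatePole.Defs

open NumberField IsDedekindDomain Filter Topology IntermediateField

namespace Pool.Agent.H3.TatePole

section Disjoint

variable {k Ω : Type*} [Field k] [NumberField k] [Field Ω] [Algebra k Ω]

lemma exists_integral_basis (K : Type*) [Field K] [NumberField K] [Algebra k K] :
    ∃ (b : Module.Basis (Fin (Module.finrank k K)) k K), ∀ i, IsIntegral ℤ (b i) := by
  classical
  obtain ⟨s, b, hb⟩ := FiniteDimensional.exists_is_basis_integral (𝓞 k) k K
  have hcard : Nat.card s = Module.finrank k K := (Module.finrank_eq_nat_card_basis b).symm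
  have hfin : Finite s := Module.Finite.finite_basis b
  let e : s ≃ Fin (Module.finrank k K) := (Finite.equivFinOfCardEq hcard)
  refine ⟨b.reindex e, fun i => ?_⟩
  rw [Module.Basis.reindex_apply]
  exact isIntegral_trans (R := ℤ) (A := 𝓞 k) _ (hb _)

/-- Mean value of a product of degree-one counting functions for linearly disjoint fields. -/
lemma degOne_mul_mean (A B : IntermediateField k Ω) [FiniteDimensional k A] [FiniteDimensional k B]
    (H : A.LinearDisjoint B) :
    HasMean (𝓝[>] 1) (fun p : HeightOneSpectrum (𝓞 k) => (degOne k A p : ℝ) * degOne k B p) 1 := by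
  classical
  let L : IntermediateField k Ω := A ⊔ B
  haveI : FiniteDimensional k L := finiteDimensional_sup A B
  letI iA : Algebra A L := (inclusion (le_sup_left : A ≤ L)).toAlgebra
  letI iB : Algebra B L := (inclusion (le_sup_right : B ≤ L)).toAlgebra
  haveI : IsScalarTower k A L := IsScalarTower.of_algebraMap_eq fun x => rfl
  haveI : IsScalarTower k B L := IsScalarTower.of_algebraMap_eq fun x => rfl
  obtain ⟨b, hb⟩ := exists_integral_basis (k := k) A
  -- the family is linearly independent over `B`
  have hli : LinearIndependent B (fun i => algebraMap A L (b i)) := by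
    have h1 := H.linearIndependent_left b.linearIndependent
    have h2 : LinearIndependent B (fun i => (algebraMap A L (b i) : Ω)) := h1
    let φ : L →ₗ[B] Ω :=
      { toFun := fun x => (x : Ω)
        map_add' := fun x y => rfl
        map_smul' := fun c x => by
          rw [Algebra.smul_def, Algebra.smul_def]; rfl }
    exact LinearIndependent.of_comp φ h2
  haveI : FiniteDimensional B L := FiniteDimensional.right k B L
  have hcard : Fintype.card (Fin (Module.finrank k A)) = Module.finrank B L := by
    have h1 := H.finrank_sup
    have h2 : Module.finrank k B * Module.finrank B L = Module.finrank k L :=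
      Module.finrank_mul_finrank k B L
    have h3 : Module.finrank k L = Module.finrank k A * Module.finrank k B := h1
    have h4 : 0 < Module.finrank k B := Module.finrank_pos
    rw [Fintype.card_fin]
    have h5 : Module.finrank k B * Module.finrank B L = Module.finrank k B * Module.finrank k A := by
      rw [h2, h3, mul_comm]
    exact (Nat.eq_of_mul_eq_mul_left h4 h5).symm
  haveI : Nonempty (Fin (Module.finrank k A)) := ⟨⟨0, Module.finrank_pos⟩⟩
  let b' : Module.Basis (Fin (Module.finrank k A)) B L :=
    basisOfLinearIndependentOfCardEqFinrank hli hcard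
  have hb' : ∀ i, b' i = algebraMap A L (b i) := by
    intro i
    simp [b']
  have hfin := degOne_mul b b' hb' hb
  have hL := degOne_mean k L
  refine hasMean_congr (degOne_bdd k L) ((degOne_bdd k A).mul (degOne_bdd k B)) ?_ hL
  refine hfin.subset fun p hp => ?_
  intro h
  apply hp
  change (degOne k L p : ℝ) = (degOne k A p : ℝ) * degOne k B p
  rw [h]
  push_cast
  rfl

end Disjoint

end Pool.Agent.H3.TatePole
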