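import Mathlib
import Pool.Agent.H3.TatePole.Ext

open NumberField IsDedekindDomain Filter Topology

namespace Pool.Agent.H3.TatePole

section Analytic

lemma log_one_sub_bound {w : ℂ} (hw : ‖w‖ ≤ 1 / 2) :
    ‖-Complex.log (1 - w) - w‖ ≤ ‖w‖ ^ 2 := by
  have h := Complex.norm_log_one_add_sub_self_le (z := -w) (by rw [norm_neg]; linarith)
  rw [norm_neg] at h
  have e : -Complex.log (1 - w) - w = -(Complex.log (1 + -w) - -w) := by ring_nf
  rw [e, norm_neg]
  refine h.trans ?_
  have h1 : (1 - ‖w‖)⁻¹ ≤ 2 := by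
    rw [inv_le_comm₀ (by linarith) (by norm_num)]
    linarith
  have : 0 ≤ ‖w‖ ^ 2 := sq_nonneg _
  nlinarith

variable {K : Type*} [Field K] [NumberField K]

/-- Logarithm of an Euler product with bounded normalised Frobenius eigenvalues. -/
lemma euler_log_bound (B : ℕ) (R : HeightOneSpectrum (𝓞 K) → Multiset ℂ)
    (hcard : ∀ v, (R v).card ≤ B) (hR : ∀ v, ∀ z ∈ R v, ‖z‖ ≤ nrm v) :
    ∃ C : ℝ, ∀ s : ℝ, 2 < s →
      |Real.log ‖∏' v : HeightOneSpectrum (𝓞 K),
          (((R v).map fun z => 1 - z * ((Ideal.absNorm v.asIdeal : ℂ) ^ (-(s : ℂ)))).prod)⁻¹‖ -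
        wsum (fun v => ((R v).sum).re / nrm v) (s - 1)| ≤ C := by
  refine ⟨∑' v : HeightOneSpectrum (𝓞 K), B * nrm v ^ (-2 : ℝ), fun s hs => ?_⟩
  have hx : ∀ v : HeightOneSpectrum (𝓞 K),
      ((Ideal.absNorm v.asIdeal : ℂ) ^ (-(s : ℂ))) = ((nrm v ^ (-s) : ℝ) : ℂ) := by
    intro v
    unfold nrm
    rw [Complex.ofReal_cpow (by positivity)]
    push_cast
    rfl
  set x : HeightOneSpectrum (𝓞 K) → ℝ := fun v => nrm v ^ (-s) with hxdef
  have hx0 : ∀ v, 0 < x v := fun v => Real.rpow_pos_of_pos (nrm_pos v) _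
  -- size of `z x`
  have hzx : ∀ v, ∀ z ∈ R v, ‖z * (x v : ℂ)‖ ≤ nrm v ^ (1 - s) := by
    intro v z hz
    rw [norm_mul, Complex.norm_real, Real.norm_of_nonneg (hx0 v).le]
    calc ‖z‖ * x v ≤ nrm v * x v := mul_le_mul_of_nonneg_right (hR v z hz) (hx0 v).le
      _ = nrm v ^ (1 - s) := by
        rw [hxdef]
        simp only
        rw [Real.rpow_sub (nrm_pos v), Real.rpow_one, Real.rpow_neg (nrm_pos v).le]
        ring
  have hhalf : ∀ v : HeightOneSpectrum (𝓞 K), nrm v ^ (1 - s) ≤ 1 / 2 := by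
    intro v
    have := rpow_neg_le_half K (s := s - 1) (by linarith) v
    rw [neg_sub] at this
    exact this
  have hsq : ∀ v : HeightOneSpectrum (𝓞 K), (nrm v ^ (1 - s)) ^ 2 ≤ nrm v ^ (-2 : ℝ) := by
    intro v
    rw [← Real.rpow_natCast, ← Real.rpow_mul (nrm_pos v).le]
    exact Real.rpow_le_rpow_of_exponent_le (by linarith [two_le_nrm v]) (by push_cast; linarith)
  -- the logarithms of the local factors
  let lam : HeightOneSpectrum (𝓞 K) → ℂ := fun v =>
    ((R v).map fun z => -Complex.log (1 - z * (x v : ℂ))).sum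
  have hlam : ∀ v, ‖lam v - (R v).sum * (x v : ℂ)‖ ≤ B * nrm v ^ (-2 : ℝ) := by
    intro v
    have e1 : lam v - (R v).sum * (x v : ℂ) =
        ((R v).map fun z => (-Complex.log (1 - z * (x v : ℂ)) - z * (x v : ℂ))).sum := by
      rw [Multiset.sum_map_sub, Multiset.sum_map_mul_right, Multiset.map_id']
    rw [e1]
    refine (norm_multiset_sum_le _).trans ?_
    rw [Multiset.map_map]
    have h2 : ((R v).map (norm ∘ fun z => (-Complex.log (1 - z * (x v : ℂ)) - z * (x v : ℂ)))).sum ≤
        ((R v).map fun _ => nrm v ^ (-2 : ℝ)).sum := by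
      apply Multiset.sum_map_le_sum_map
      intro z hz
      have h3 := log_one_sub_bound ((hzx v z hz).trans (hhalf v))
      refine h3.trans (le_trans ?_ (hsq v))
      exact pow_le_pow_left₀ (norm_nonneg _) (hzx v z hz) 2
    refine h2.trans ?_
    rw [Multiset.map_const', Multiset.sum_replicate, nsmul_eq_mul]
    exact mul_le_mul_of_nonneg_right (by exact_mod_cast hcard v)
      (Real.rpow_nonneg (nrm_pos v).le _)
  have hmain : ∀ v, ‖(R v).sum * (x v : ℂ)‖ ≤ B * nrm v ^ (1 - s) := by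
    intro v
    rw [← Multiset.map_id' (R v), ← Multiset.sum_map_mul_right]
    refine (norm_multiset_sum_le _).trans ?_
    rw [Multiset.map_map]
    have h2 : ((R v).map (norm ∘ fun z => z * (x v : ℂ))).sum ≤
        ((R v).map fun _ => nrm v ^ (1 - s)).sum := by
      apply Multiset.sum_map_le_sum_map
      intro z hz
      exact hzx v z hz
    refine h2.trans ?_
    rw [Multiset.map_const', Multiset.sum_replicate, nsmul_eq_mul]
    exact mul_le_mul_of_nonneg_right (by exact_mod_cast hcard v)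
      (Real.rpow_nonneg (nrm_pos v).le _)
  have hS2 : Summable (fun v : HeightOneSpectrum (𝓞 K) => (B : ℝ) * nrm v ^ (-2 : ℝ)) :=
    (summable_nrm (by norm_num)).mul_left _
  have hS1 : Summable (fun v : HeightOneSpectrum (𝓞 K) => (B : ℝ) * nrm v ^ (1 - s)) := by
    have := summable_nrm (k := K) (s := s - 1) (by linarith)
    simp only [neg_sub] at this
    exact this.mul_left _
  have hsum1 : Summable (fun v => (R v).sum * (x v : ℂ)) := Summable.of_norm_bounded hS1 hmain
  have hsum2 : Summable (fun v => lam v - (R v).sum * (x v : ℂ)) :=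
    Summable.of_norm_bounded hS2 hlam
  have hsuml : Summable lam := by
    have := hsum2.add hsum1
    refine this.congr fun v => by ring
  -- the product is the exponential of the sum
  have hfac : ∀ v, Complex.exp (lam v) =
      (((R v).map fun z => 1 - z * ((Ideal.absNorm v.asIdeal : ℂ) ^ (-(s : ℂ)))).prod)⁻¹ := by
    intro v
    rw [hx v, Complex.exp_multiset_sum, Multiset.map_map, ← Multiset.prod_map_inv]
    refine congrArg Multiset.prod (Multiset.map_congr rfl fun z hz => ?_)
    have hne : (1 : ℂ) - z * (x v : ℂ) ≠ 0 := by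
      intro h0
      have h1 : z * (x v : ℂ) = 1 := (sub_eq_zero.mp h0).symm
      have h2 := (hzx v z hz).trans (hhalf v)
      rw [h1, norm_one] at h2
      norm_num at h2
    rw [Function.comp_apply, Complex.exp_neg, Complex.exp_log hne]
  have hprod : ∏' v : HeightOneSpectrum (𝓞 K),
      (((R v).map fun z => 1 - z * ((Ideal.absNorm v.asIdeal : ℂ) ^ (-(s : ℂ)))).prod)⁻¹ =
      Complex.exp (∑' v, lam v) := by
    rw [← (hsuml.hasSum.cexp).tprod_eq]
    exact tprod_congr fun v => (hfac v).symm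
  rw [hprod, Complex.norm_exp, Real.log_exp]
  have hw : wsum (fun v => ((R v).sum).re / nrm v) (s - 1) = (∑' v, (R v).sum * (x v : ℂ)).re := by
    rw [Complex.re_tsum hsum1]
    unfold wsum
    refine tsum_congr fun v => ?_
    rw [mul_comm ((R v).sum) _, Complex.re_ofReal_mul]
    have : nrm v ^ (-(s - 1)) = nrm v * x v := by
      rw [hxdef]
      simp only
      rw [neg_sub, Real.rpow_sub (nrm_pos v), Real.rpow_one, Real.rpow_neg (nrm_pos v).le]
      ring
    rw [this]
    have := nrm_pos v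
    field_simp
  rw [hw, ← Complex.sub_re, ← hsuml.tsum_sub hsum1]
  refine (Complex.abs_re_le_norm _).trans ?_
  refine (norm_tsum_le_tsum_norm hsum2.norm).trans ?_
  exact hsum2.norm.tsum_le_tsum hlam hS2

end Analytic

end Pool.Agent.H3.TatePole
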