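import Mathlib
import Pool.Agent.H3.TatePole.Defs

open NumberField IsDedekindDomain Filter Topology Polynomial

namespace Pool.Agent.H3.TatePole

section Rep

variable {F : Type*} [Field F] [NumberField F] {Ω : Type*} [Field Ω] [Algebra F Ω]
variable {E V : Type*} [Field E] [AddCommGroup V] [Module E V]

open scoped Pointwise in
/-- The characteristic polynomial of geometric Frobenius on inertia invariants depends only on the
prime of `F`. -/
theorem charpoly_geomFrob_eq [IsGalois F Ω] [FiniteDimensional E V] (ρ : Representation E Gal(Ω/F) V)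
    {𝔭 : HeightOneSpectrum (𝓞 F)} (D D' : FrobeniusAt Ω 𝔭) :
    (geomFrob ρ D).charpoly = (geomFrob ρ D').charpoly := by
  letI : TopologicalSpace (𝓞 Ω) := ⊥
  haveI : DiscreteTopology (𝓞 Ω) := ⟨rfl⟩
  haveI : ContinuousSMul Gal(Ω/F) (𝓞 Ω) := continuousSMul_gal
  haveI := D.isPrime
  haveI := D'.isPrime
  obtain ⟨τ, hτ⟩ := Algebra.IsInvariant.exists_smul_of_under_eq_of_profinite (A := 𝓞 F)
    (G := Gal(Ω/F)) D.Q D'.Q (D.under_eq.trans D'.under_eq.symm)
  -- `ρ τ` maps invariants to invariants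
  have hto : ∀ v ∈ inertiaInvariants ρ D.Q, ρ τ v ∈ inertiaInvariants ρ D'.Q := by
    intro v hv σ hσ
    rw [hτ] at hσ
    have h1 := hv _ (inertia_conj hσ)
    have h2 : ρ τ (ρ (τ⁻¹ * σ * τ) v) = ρ σ (ρ τ v) := by
      rw [← Module.End.mul_apply, ← Module.End.mul_apply, ← map_mul, ← map_mul]
      congr 2
      group
    rw [← h2, h1]
  have hfrom : ∀ v ∈ inertiaInvariants ρ D'.Q, ρ τ⁻¹ v ∈ inertiaInvariants ρ D.Q := by
    intro v hv σ hσ
    have hσ' : (τ⁻¹)⁻¹ * σ * τ⁻¹ ∈ D'.Q.inertia Gal(Ω/F) := by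
      apply inertia_conj
      rw [hτ, inv_smul_smul]
      exact hσ
    rw [inv_inv] at hσ'
    have h1 := hv _ hσ'
    have h2 : ρ τ⁻¹ (ρ (τ * σ * τ⁻¹) v) = ρ σ (ρ τ⁻¹ v) := by
      rw [← Module.End.mul_apply, ← Module.End.mul_apply, ← map_mul, ← map_mul]
      congr 2
      group
    rw [← h2, h1]
  let e : inertiaInvariants ρ D.Q ≃ₗ[E] inertiaInvariants ρ D'.Q :=
    { toFun := fun v => ⟨ρ τ v, hto v v.2⟩
      invFun := fun v => ⟨ρ τ⁻¹ v, hfrom v v.2⟩
      map_add' := fun v w => Subtype.ext (map_add _ _ _)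
      map_smul' := fun c v => Subtype.ext (map_smul _ _ _)
      left_inv := fun v => Subtype.ext (by
        change ρ τ⁻¹ (ρ τ v) = v
        rw [← Module.End.mul_apply, ← map_mul, inv_mul_cancel, map_one, Module.End.one_apply])
      right_inv := fun v => Subtype.ext (by
        change ρ τ (ρ τ⁻¹ v) = v
        rw [← Module.End.mul_apply, ← map_mul, mul_inv_cancel, map_one, Module.End.one_apply]) }
  have hconj : e.conj (geomFrob ρ D) = geomFrob ρ D' := by
    ext v
    change ρ τ (ρ D.φ⁻¹ (ρ τ⁻¹ v)) = ρ D'.φ⁻¹ v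
    have h1 : IsArithFrobAt (𝓞 F) (τ * D.φ * τ⁻¹) D'.Q := by
      rw [hτ]
      exact D.isArithFrob.conj τ
    have h2 : (τ * D.φ * τ⁻¹) * D'.φ⁻¹ ∈ D'.Q.inertia Gal(Ω/F) :=
      h1.mul_inv_mem_inertia D'.isArithFrob
    have h3 : ρ ((τ * D.φ * τ⁻¹) * D'.φ⁻¹) v = v := v.2 _ h2
    have h5 : ρ τ (ρ D.φ⁻¹ (ρ τ⁻¹ v)) = ρ ((τ * D.φ * τ⁻¹)⁻¹) v := by
      rw [← Module.End.mul_apply, ← Module.End.mul_apply, ← map_mul, ← map_mul]
      congr 2
    have h6 : ρ ((τ * D.φ * τ⁻¹)⁻¹) (ρ ((τ * D.φ * τ⁻¹) * D'.φ⁻¹) v) = ρ D'.φ⁻¹ v := by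
      rw [← Module.End.mul_apply, ← map_mul, ← mul_assoc, inv_mul_cancel, one_mul]
    rw [h5, ← h6, h3]
  rw [← hconj, LinearEquiv.charpoly_conj]

/-- evaluation of the reversed characteristic polynomial in terms of its roots -/
lemma eval_reverse_charpoly (ι : E →+* ℂ) (f : E[X]) (hf : f.Monic) {x : ℂ} (hx : x ≠ 0) :
    ((f.reverse).map ι).eval x = (((f.map ι).roots).map fun z => 1 - z * x).prod := by
  have hmonic : (f.map ι).Monic := hf.map ι
  have h1 : (f.map ι) = (((f.map ι).roots).map fun z => X - C z).prod :=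
    (IsAlgClosed.splits (f.map ι)).eq_prod_roots_of_monic hmonic
  have h2 : (f.reverse).map ι = (f.map ι).reverse := by
    unfold Polynomial.reverse
    rw [Polynomial.natDegree_map, Polynomial.reflect_map]
  have hxi : x⁻¹ ≠ 0 := inv_ne_zero hx
  letI : Invertible x⁻¹ := invertibleOfNonzero hxi
  have h3 := Polynomial.eval₂_reverse_mul_pow (RingHom.id ℂ) x⁻¹ (f.map ι)
  rw [invOf_eq_inv, inv_inv, Polynomial.eval₂_id, Polynomial.eval₂_id] at h3
  have hcard : Multiset.card (f.map ι).roots = (f.map ι).natDegree :=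
    (splits_iff_card_roots.mp (IsAlgClosed.splits (f.map ι)))
  rw [h2]
  have h4 : (f.map ι).reverse.eval x = x ^ (f.map ι).natDegree * (f.map ι).eval x⁻¹ := by
    rw [← h3, inv_pow]
    field_simp
  have h6 : (f.map ι).eval x⁻¹ =
      ((f.map ι).roots.map ((Polynomial.eval x⁻¹) ∘ fun z => X - C z)).prod := by
    conv_lhs => rw [h1]
    rw [Polynomial.eval_multiset_prod, Multiset.map_map]
  rw [h4, h6, ← hcard]
  have h5 : ∀ R : Multiset ℂ, x ^ Multiset.card R *
      (R.map ((Polynomial.eval x⁻¹) ∘ fun z => X - C z)).prod = (R.map fun z => 1 - z * x).prod := by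
    intro R
    induction R using Multiset.induction_on with
    | empty => simp
    | cons a R ih =>
      rw [Multiset.card_cons, Multiset.map_cons, Multiset.prod_cons, Multiset.map_cons,
        Multiset.prod_cons, ← ih, pow_succ]
      simp only [Function.comp_apply, eval_sub, eval_X, eval_C]
      field_simp
  exact h5 _

end Rep

end Pool.Agent.H3.TatePole
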