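import Mathlib
import Pool.Agent.H3.TatePole.Rep
import Pool.Agent.H3.TatePole.EulerLog
import Pool.Agent.H3.TatePole.Disjoint

open NumberField IsDedekindDomain Filter Topology Polynomial

namespace Pool.Agent.H3.TatePole

section Weights

variable {k : Type*} [Field k] [NumberField k] {Ω : Type*} [Field Ω] [Algebra k Ω]
variable {E V : Type*} [Field E] [AddCommGroup V] [Module E V] [FiniteDimensional E V]

lemma charpoly_geomFrob_of_unramified {F : Type*} [Field F] [NumberField F] {Ω : Type*} [Field Ω]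
    [Algebra F Ω] (ρ : Representation E Gal(Ω/F) V) {𝔭 : HeightOneSpectrum (𝓞 F)}
    (D : FrobeniusAt Ω 𝔭) (h : ∀ σ ∈ D.Q.inertia Gal(Ω/F), ρ σ = 1) :
    (geomFrob ρ D).charpoly = (ρ D.φ⁻¹).charpoly := by
  have htop : inertiaInvariants ρ D.Q = ⊤ := by
    rw [eq_top_iff]
    intro v _ σ hσ
    rw [h σ hσ]
    rfl
  let e : inertiaInvariants ρ D.Q ≃ₗ[E] V := LinearEquiv.ofTop _ htop
  have : e.conj (geomFrob ρ D) = ρ D.φ⁻¹ := by
    ext v
    rfl
  rw [← this, LinearEquiv.charpoly_conj]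

/-- A Frobenius at a prime of `K` of residue degree one over `k` is a Frobenius over `k`. -/
def FrobeniusAt.descend {K : IntermediateField k Ω} [FiniteDimensional k K]
    {𝔓 : HeightOneSpectrum (𝓞 K)} (D : FrobeniusAt Ω 𝔓) (h : nrm 𝔓 = nrm (below k 𝔓)) :
    FrobeniusAt Ω (below k 𝔓) where
  Q := D.Q
  isPrime := D.isPrime
  under_eq := by
    rw [below_asIdeal, ← D.under_eq]
    exact (Ideal.under_under (A := 𝓞 k) (B := 𝓞 K) D.Q).symm
  φ := AlgEquiv.restrictScalarsHom k D.φ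
  isArithFrob := by
    intro x
    have h1 := D.isArithFrob x
    have h2 : Nat.card (𝓞 k ⧸ D.Q.under (𝓞 k)) = Nat.card (𝓞 K ⧸ D.Q.under (𝓞 K)) := by
      have e1 : D.Q.under (𝓞 K) = 𝔓.asIdeal := D.under_eq
      have e2 : D.Q.under (𝓞 k) = (below k 𝔓).asIdeal := by
        rw [below_asIdeal, ← D.under_eq]
        exact (Ideal.under_under (A := 𝓞 k) (B := 𝓞 K) D.Q).symm
      rw [e1, e2]
      unfold nrm at h
      rw [Ideal.absNorm_apply, Ideal.absNorm_apply, Submodule.cardQuot_apply,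
        Submodule.cardQuot_apply] at h
      exact_mod_cast h.symm
    rw [h2]
    exact h1

/-- Frobenius eigenvalues (as complex numbers, with multiplicity) at `𝔭` on inertia invariants. -/
noncomputable def eigs {F : Type*} [Field F] [NumberField F] {Ω : Type*} [Field Ω] [Algebra F Ω]
    [IsGalois F Ω] (ι : E →+* ℂ) (ρ : Representation E Gal(Ω/F) V) (𝔭 : HeightOneSpectrum (𝓞 F)) :
    Multiset ℂ :=
  ((geomFrob ρ (frobeniusAt Ω 𝔭)).charpoly.map ι).roots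

lemma LFunction_eq {F : Type*} [Field F] [NumberField F] {Ω : Type*} [Field Ω] [Algebra F Ω]
    [IsGalois F Ω] (ι : E →+* ℂ) (ρ : Representation E Gal(Ω/F) V) (s : ℂ) :
    LFunction ι ρ s = ∏' v : HeightOneSpectrum (𝓞 F),
      (((eigs ι ρ v).map fun z => 1 - z * ((Ideal.absNorm v.asIdeal : ℂ) ^ (-s))).prod)⁻¹ := by
  unfold LFunction
  refine tprod_congr fun v => ?_
  congr 1
  unfold localPoly eigs
  apply eval_reverse_charpoly ι _ (LinearMap.charpoly_monic _)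
  have h := one_lt_absNorm F v
  have : (Ideal.absNorm v.asIdeal : ℂ) ≠ 0 := by
    have : Ideal.absNorm v.asIdeal ≠ 0 := by omega
    exact_mod_cast this
  exact Complex.cpow_ne_zero_iff.mpr (Or.inl this)

lemma card_eigs_le {F : Type*} [Field F] [NumberField F] {Ω : Type*} [Field Ω] [Algebra F Ω]
    [IsGalois F Ω] (ι : E →+* ℂ) (ρ : Representation E Gal(Ω/F) V) (𝔭 : HeightOneSpectrum (𝓞 F)) :
    Multiset.card (eigs ι ρ 𝔭) ≤ Module.finrank E V := by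
  unfold eigs
  refine (Polynomial.card_roots' _).trans ?_
  refine (Polynomial.natDegree_map_le).trans ?_
  rw [LinearMap.charpoly_natDegree]
  exact Submodule.finrank_le _

/-- normalised real part of the trace of Frobenius -/
noncomputable def ctr {F : Type*} [Field F] [NumberField F] {Ω : Type*} [Field Ω] [Algebra F Ω]
    [IsGalois F Ω] (ι : E →+* ℂ) (ρ : Representation E Gal(Ω/F) V) (𝔭 : HeightOneSpectrum (𝓞 F)) : ℝ :=
  ((eigs ι ρ 𝔭).sum).re / nrm 𝔭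

lemma abs_ctr_le {F : Type*} [Field F] [NumberField F] {Ω : Type*} [Field Ω] [Algebra F Ω]
    [IsGalois F Ω] (ι : E →+* ℂ) (ρ : Representation E Gal(Ω/F) V) (𝔭 : HeightOneSpectrum (𝓞 F))
    (h : ∀ z ∈ eigs ι ρ 𝔭, ‖z‖ ≤ nrm 𝔭) : |ctr ι ρ 𝔭| ≤ Module.finrank E V := by
  unfold ctr
  rw [abs_div, abs_of_pos (nrm_pos 𝔭), div_le_iff₀ (nrm_pos 𝔭)]
  refine (Complex.abs_re_le_norm _).trans ?_
  rw [← Multiset.map_id' (eigs ι ρ 𝔭)]
  refine (norm_multiset_sum_le _).trans ?_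
  rw [Multiset.map_map]
  have h2 : ((eigs ι ρ 𝔭).map (norm ∘ fun z => z)).sum ≤ ((eigs ι ρ 𝔭).map fun _ => nrm 𝔭).sum :=
    Multiset.sum_map_le_sum_map _ _ fun z hz => h z hz
  refine h2.trans ?_
  rw [Multiset.map_const', Multiset.sum_replicate, nsmul_eq_mul]
  exact mul_le_mul_of_nonneg_right (by exact_mod_cast card_eigs_le ι ρ 𝔭) (nrm_pos 𝔭).le

section MainLog

variable [IsGalois k Ω] (ι : E →+* ℂ) (ρ : Representation E Gal(Ω/k) V)

/-- clipped normalised trace function on the primes of `k` -/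
noncomputable def cfun (𝔭 : HeightOneSpectrum (𝓞 k)) : ℝ :=
  max (-(Module.finrank E V : ℝ)) (min (Module.finrank E V : ℝ) (ctr ι ρ 𝔭))

lemma abs_cfun_le (𝔭 : HeightOneSpectrum (𝓞 k)) : |cfun ι ρ 𝔭| ≤ Module.finrank E V := by
  unfold cfun
  have h0 : (0 : ℝ) ≤ Module.finrank E V := by positivity
  rw [abs_le]
  refine ⟨le_max_left _ _, max_le (by linarith) (min_le_left _ _)⟩

lemma cfun_eq_of_le (𝔭 : HeightOneSpectrum (𝓞 k)) (h : |ctr ι ρ 𝔭| ≤ Module.finrank E V) :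
    cfun ι ρ 𝔭 = ctr ι ρ 𝔭 := by
  unfold cfun
  rw [abs_le] at h
  rw [min_eq_right h.2, max_eq_right h.1]

lemma ctr_descend {K : IntermediateField k Ω} [FiniteDimensional k K]
    {𝔓 : HeightOneSpectrum (𝓞 K)} (h : nrm 𝔓 = nrm (below k 𝔓))
    (hunr : ∀ Q : Ideal (𝓞 Ω), Q.IsPrime → Q.under (𝓞 k) = (below k 𝔓).asIdeal →
      ∀ σ ∈ Q.inertia Gal(Ω/k), ρ σ = 1) :
    ctr ι (resRep ρ K) 𝔓 = ctr ι ρ (below k 𝔓) := by
  let D := frobeniusAt Ω 𝔓
  let D' := D.descend h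
  have h1 : (geomFrob (resRep ρ K) D).charpoly = (ρ D'.φ⁻¹).charpoly := by
    rw [charpoly_geomFrob_of_unramified (resRep ρ K) D]
    · rfl
    · intro σ hσ
      exact hunr D'.Q D'.isPrime D'.under_eq (AlgEquiv.restrictScalarsHom k σ) hσ
  have h2 : (geomFrob ρ D').charpoly = (ρ D'.φ⁻¹).charpoly :=
    charpoly_geomFrob_of_unramified ρ D' (hunr D'.Q D'.isPrime D'.under_eq)
  have h3 : (geomFrob ρ D').charpoly = (geomFrob ρ (frobeniusAt Ω (below k 𝔓))).charpoly :=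
    charpoly_geomFrob_eq ρ _ _
  unfold ctr eigs
  rw [show (geomFrob (resRep ρ K) (frobeniusAt Ω 𝔓)).charpoly =
    (geomFrob ρ (frobeniusAt Ω (below k 𝔓))).charpoly from h1.trans (h2.symm.trans h3), h]

/-- Main comparison: the logarithm of the `L`-function over `K` near `s = 2`. -/
lemma log_LFunction (hρ : WeightsLeTwo ι ρ) (K : IntermediateField k Ω) [FiniteDimensional k K] :
    ∃ C : ℝ, ∀ t : ℝ, 1 < t →
      |Real.log ‖LFunction ι (resRep ρ K) ((t + 1 : ℝ) : ℂ)‖ -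
        wsum (fun 𝔭 => cfun ι ρ 𝔭 * degOne k K 𝔭) t| ≤ C := by
  have hR : ∀ v : HeightOneSpectrum (𝓞 K), ∀ z ∈ eigs ι (resRep ρ K) v, ‖z‖ ≤ nrm v :=
    fun v z hz => hρ.weights K v (frobeniusAt Ω v) z hz
  obtain ⟨C₁, hC₁⟩ := euler_log_bound (Module.finrank E V) (eigs ι (resRep ρ K))
    (card_eigs_le ι (resRep ρ K)) hR
  have hctr : ∀ v : HeightOneSpectrum (𝓞 K), |ctr ι (resRep ρ K) v| ≤ Module.finrank E V :=
    fun v => abs_ctr_le ι (resRep ρ K) v (hR v)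
  have hfin : {P : HeightOneSpectrum (𝓞 K) | nrm P = nrm (below k P) ∧
      ctr ι (resRep ρ K) P ≠ cfun ι ρ (below k P)}.Finite := by
    have h1 : ((fun P : HeightOneSpectrum (𝓞 K) => below k P) ⁻¹'
        {𝔭 : HeightOneSpectrum (𝓞 k) | ∃ Q : Ideal (𝓞 Ω), Q.IsPrime ∧
        Q.under (𝓞 k) = 𝔭.asIdeal ∧ ∃ σ ∈ Q.inertia Gal(Ω/k), ρ σ ≠ 1}).Finite := by
      refine Set.Finite.preimage' hρ.unramified fun p _ => ?_
      exact (fiber_card (K := K) p).1
    refine h1.subset fun P hP => ?_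
    by_contra hcon
    apply hP.2
    have hunr : ∀ Q : Ideal (𝓞 Ω), Q.IsPrime → Q.under (𝓞 k) = (below k P).asIdeal →
        ∀ σ ∈ Q.inertia Gal(Ω/k), ρ σ = 1 := by
      intro Q hQ hQ2 σ hσ
      by_contra hne
      exact hcon ⟨Q, hQ, hQ2, σ, hσ, hne⟩
    have h2 := ctr_descend ι ρ hP.1 hunr
    rw [cfun_eq_of_le ι ρ _ (by rw [← h2]; exact hctr P), h2]
  obtain ⟨C₂, hC₂⟩ := wsum_compare (k := k) (K := K) (u := cfun ι ρ) (U := ctr ι (resRep ρ K))
    ⟨_, abs_cfun_le ι ρ⟩ ⟨_, hctr⟩ hfin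
  refine ⟨C₁ + C₂, fun t ht => ?_⟩
  have h1 := hC₁ (t + 1) (by linarith)
  have h2 := hC₂ t ht
  rw [← LFunction_eq, add_sub_cancel_right] at h1
  have e : (fun v : HeightOneSpectrum (𝓞 K) => ((eigs ι (resRep ρ K) v).sum).re / nrm v) =
    ctr ι (resRep ρ K) := rfl
  rw [e] at h1
  have h3 := abs_sub_le (Real.log ‖LFunction ι (resRep ρ K) ((t + 1 : ℝ) : ℂ)‖)
    (wsum (ctr ι (resRep ρ K)) t) (wsum (fun 𝔭 => cfun ι ρ 𝔭 * degOne k K 𝔭) t)
  linarith

end MainLog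

section Pole

/-- A pole of order `r` at `2` determines the logarithmic growth along the real axis. -/
lemma HasPoleOfOrder.tendsto {L : ℂ → ℂ} {r : ℤ} (h : HasPoleOfOrder L 2 r) :
    Tendsto (fun t : ℝ => Real.log ‖L ((t + 1 : ℝ) : ℂ)‖ / Lam t) (𝓝[>] 1) (𝓝 r) := by
  obtain ⟨g, hg, hg0, hL⟩ := h
  have hmap : Tendsto (fun t : ℝ => ((t + 1 : ℝ) : ℂ)) (𝓝[>] 1) (𝓝[{s : ℂ | (2 : ℂ).re < s.re}] 2) := by
    rw [tendsto_nhdsWithin_iff]
    constructor
    · have : Continuous (fun t : ℝ => ((t + 1 : ℝ) : ℂ)) := by fun_prop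
      have h1 := (this.tendsto 1).mono_left (nhdsWithin_le_nhds (s := Set.Ioi 1))
      have h2 : ((1 + 1 : ℝ) : ℂ) = 2 := by norm_num
      rw [h2] at h1
      exact h1
    · filter_upwards [self_mem_nhdsWithin] with t ht
      have : (1 : ℝ) < t := ht
      simp only [Set.mem_setOf_eq, Complex.ofReal_re]
      norm_num
      linarith
  have h1 := hmap.eventually hL
  have hgc : Tendsto (fun t : ℝ => g ((t + 1 : ℝ) : ℂ)) (𝓝[>] 1) (𝓝 (g 2)) :=
    hg.continuousAt.tendsto.comp (hmap.mono_right nhdsWithin_le_nhds)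
  have hlog : Tendsto (fun t : ℝ => Real.log ‖g ((t + 1 : ℝ) : ℂ)‖) (𝓝[>] 1)
      (𝓝 (Real.log ‖g 2‖)) :=
    (Real.continuousAt_log (norm_ne_zero_iff.mpr hg0)).tendsto.comp hgc.norm
  have hlog2 := hlog.div_atTop Lam_tendsto
  have hg1 : ∀ᶠ t : ℝ in 𝓝[>] 1, g ((t + 1 : ℝ) : ℂ) ≠ 0 := hgc.eventually_ne hg0
  have h3 : Tendsto (fun t : ℝ => Real.log ‖g ((t + 1 : ℝ) : ℂ)‖ / Lam t + r) (𝓝[>] 1) (𝓝 r) := by
    simpa using hlog2.add_const (r : ℝ)
  refine h3.congr' ?_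
  filter_upwards [h1, hg1, self_mem_nhdsWithin, Lam_tendsto.eventually_gt_atTop 0] with t ht1 ht2 ht3 ht4
  have ht3' : (1 : ℝ) < t := ht3
  rw [ht1, norm_mul, norm_zpow]
  have e1 : ((t + 1 : ℝ) : ℂ) - 2 = ((t - 1 : ℝ) : ℂ) := by push_cast; ring
  rw [e1, Complex.norm_real, Real.norm_of_nonneg (by linarith)]
  rw [Real.log_mul (zpow_ne_zero _ (by linarith)) (norm_ne_zero_iff.mpr ht2), Real.log_zpow]
  have e2 : Lam t = -Real.log (t - 1) := by
    unfold Lam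
    rw [one_div, Real.log_inv]
  rw [eq_div_iff ht4.ne', add_mul, div_mul_cancel₀ _ ht4.ne']
  rw [e2]
  push_cast
  ring

end Pole

end Weights

end Pool.Agent.H3.TatePole
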