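import Mathlib
import Pool.Agent.H3.TatePole.Rep
import Pool.Agent.H3.TatePole.Disjoint

open NumberField IsDedekindDomain Filter Topology Polynomial

namespace Pool.Agent.H3.TatePole

section Fix

variable {k : Type*} [Field k] [NumberField k] {Ω : Type*} [Field Ω] [Algebra k Ω]
variable (K : Type*) [Field K] [NumberField K] [Algebra k K]

/-- reduction of an embedding modulo a prime of `𝓞 Ω` -/
def redHom (Q : Ideal (𝓞 Ω)) (τ : K →ₐ[k] Ω) : 𝓞 K →ₐ[𝓞 k] (𝓞 Ω ⧸ Q) :=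
  (Ideal.Quotient.mkₐ (𝓞 k) Q).comp (RingOfIntegers.mapAlgHom τ)

variable {K}

lemma redHom_apply (Q : Ideal (𝓞 Ω)) (τ : K →ₐ[k] Ω) (x : 𝓞 K) :
    redHom K Q τ x = Ideal.Quotient.mk Q (RingOfIntegers.mapAlgHom τ x) := rfl

/-- equivariance of reduction -/
lemma redHom_frob {𝔭 : HeightOneSpectrum (𝓞 k)} (D : FrobeniusAt Ω 𝔭) (τ : K →ₐ[k] Ω) (x : 𝓞 K) :
    redHom K D.Q ((D.φ : Ω →ₐ[k] Ω).comp τ) x =
      (redHom K D.Q τ x) ^ (Nat.card (𝓞 k ⧸ 𝔭.asIdeal)) := by
  rw [redHom_apply, redHom_apply, ← map_pow, Ideal.Quotient.eq]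
  have h := D.isArithFrob (RingOfIntegers.mapAlgHom τ x)
  rw [D.under_eq] at h
  exact h

/-- a nonzero algebraic integer divides a nonzero rational integer -/
lemma exists_int_dvd {x : 𝓞 Ω} (hx : x ≠ 0) : ∃ N : ℕ, N ≠ 0 ∧ x ∣ (N : 𝓞 Ω) := by
  have hint : IsIntegral ℤ x := RingOfIntegers.isIntegral x
  obtain ⟨r, hr, h1⟩ := hint.isAlgebraic.exists_nonzero_dvd (mem_nonZeroDivisors_of_ne_zero hx)
  refine ⟨r.natAbs, by simpa using hr, ?_⟩
  have h5 : (algebraMap ℤ (𝓞 Ω)) r = ((r : ℤ) : 𝓞 Ω) := by simp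
  rw [h5] at h1
  have h6 : ((r.natAbs : ℕ) : 𝓞 Ω) = ((r.natAbs : ℤ) : 𝓞 Ω) := (Int.cast_natCast _).symm
  rw [h6]
  rcases Int.natAbs_eq r with h | h
  · rw [← h]; exact h1
  · have : ((r.natAbs : ℤ)) = -r := by omega
    rw [this, Int.cast_neg]
    exact h1.neg_right

/-- an integral primitive element controls homomorphisms out of the ring of integers -/
lemma exists_integral_primitive (k K : Type*) [Field k] [NumberField k] [Field K] [NumberField K]
    [Algebra k K] : ∃ (α : 𝓞 K) (N : ℕ), N ≠ 0 ∧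
      (∀ x : 𝓞 K, ∃ g : (𝓞 k)[X], (N : 𝓞 K) * x = aeval α g) ∧
      (minpoly (𝓞 k) α).natDegree ≤ Module.finrank k K := by
  classical
  let pb := Field.powerBasisOfFiniteOfSeparable k K
  -- integral multiple of the generator
  have hγ : IsAlgebraic ℤ pb.gen := by
    have h1 : IsAlgebraic ℚ pb.gen := Algebra.IsAlgebraic.isAlgebraic _
    exact (IsFractionRing.isAlgebraic_iff ℤ ℚ K).mpr h1
  obtain ⟨y, hy0, hy⟩ := hγ.exists_integral_multiple
  let α : 𝓞 K := ⟨y • pb.gen, hy⟩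
  have hα : algebraMap (𝓞 K) K α = (y : K) * pb.gen := by
    change y • pb.gen = _
    rw [zsmul_eq_mul]
  obtain ⟨M, hM0, hM⟩ := exists_common_den pb.basis
  choose ρ hρ using hM
  refine ⟨α, M * y.natAbs ^ pb.dim, mul_ne_zero hM0 (pow_ne_zero _ (by simpa using hy0)), ?_, ?_⟩
  · intro x
    -- sign of y
    have hsign : ∃ ε : 𝓞 k, ((y.natAbs ^ pb.dim : ℕ) : K) =
        algebraMap k K (algebraMap (𝓞 k) k ε) * (y : K) ^ pb.dim := by
      rcases Int.natAbs_eq y with h | h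
      · refine ⟨1, ?_⟩
        have h4 : ((y.natAbs : ℤ) : K) = (y.natAbs : K) := Int.cast_natCast _
        have h3 : (y.natAbs : K) = (y : K) := by rw [← h4, ← h]
        rw [map_one, map_one, one_mul, ← h3]
        push_cast
        rfl
      · refine ⟨(-1) ^ pb.dim, ?_⟩
        have h4 : ((y.natAbs : ℤ) : K) = (y.natAbs : K) := Int.cast_natCast _
        have h3 : (y.natAbs : K) = -(y : K) := by
          rw [← h4, eq_neg_iff_add_eq_zero, ← Int.cast_add]
          have : (y.natAbs : ℤ) + y = 0 := by omega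
          rw [this, Int.cast_zero]
        rw [map_pow, map_pow, map_neg, map_neg, map_one, map_one, ← mul_pow]
        push_cast
        rw [h3]
        ring
    obtain ⟨ε, hε⟩ := hsign
    refine ⟨∑ i : Fin pb.dim, C (ε * ρ x i * ((y : 𝓞 k)) ^ (pb.dim - i)) * X ^ (i : ℕ), ?_⟩
    apply RingOfIntegers.coe_injective (K := K)
    rw [map_mul, map_natCast]
    have hx : (M : K) * algebraMap (𝓞 K) K x =
        ∑ i : Fin pb.dim, algebraMap k K (algebraMap (𝓞 k) k (ρ x i)) * pb.gen ^ (i : ℕ) := by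
      conv_lhs => rw [← pb.basis.sum_repr (algebraMap (𝓞 K) K x), Finset.mul_sum]
      refine Finset.sum_congr rfl fun i _ => ?_
      rw [hρ, pb.basis_eq_pow, Algebra.smul_def, map_mul, map_natCast]
      ring
    have e1 : ((M * y.natAbs ^ pb.dim : ℕ) : K) * algebraMap (𝓞 K) K x =
        ((y.natAbs ^ pb.dim : ℕ) : K) * ((M : K) * algebraMap (𝓞 K) K x) := by
      push_cast; ring
    rw [e1, hx, hε, Finset.mul_sum, map_sum, map_sum]
    refine Finset.sum_congr rfl fun i _ => ?_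
    have hi : (y : K) ^ pb.dim = (y : K) ^ (pb.dim - (i : ℕ)) * (y : K) ^ (i : ℕ) := by
      rw [← pow_add, Nat.sub_add_cancel i.2.le]
    rw [map_mul, map_pow, aeval_X, aeval_C, map_mul, map_pow, hα, mul_pow, hi]
    have e2 : algebraMap (𝓞 K) K (algebraMap (𝓞 k) (𝓞 K) (ε * ρ x i * (y : 𝓞 k) ^ (pb.dim - (i : ℕ)))) =
        algebraMap k K (algebraMap (𝓞 k) k (ε * ρ x i * (y : 𝓞 k) ^ (pb.dim - (i : ℕ)))) := rfl
    rw [e2, map_mul, map_mul, map_mul, map_mul, map_pow, map_pow, map_intCast, map_intCast]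
    ring
  · have hint : IsIntegral (𝓞 k) α := Algebra.IsIntegral.isIntegral α
    have h1 := minpoly.isIntegrallyClosed_eq_field_fractions k K hint
    have h2 : (minpoly k (algebraMap (𝓞 K) K α)).natDegree ≤ Module.finrank k K :=
      minpoly.natDegree_le _
    rw [h1, (minpoly.monic hint).natDegree_map] at h2
    exact h2

/-- bound for the number of homomorphisms into a domain -/
lemma card_hom_le {K : Type*} [Field K] [NumberField K] [Algebra k K] (α : 𝓞 K) (N₁ : ℕ)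
    (hgen : ∀ x : 𝓞 K, ∃ g : (𝓞 k)[X], (N₁ : 𝓞 K) * x = aeval α g)
    (hdeg : (minpoly (𝓞 k) α).natDegree ≤ Module.finrank k K)
    {B : Type*} [CommRing B] [IsDomain B] [Algebra (𝓞 k) B] (hne : (N₁ : B) ≠ 0) :
    Finite (𝓞 K →ₐ[𝓞 k] B) ∧ Nat.card (𝓞 K →ₐ[𝓞 k] B) ≤ Module.finrank k K := by
  classical
  have hev : Function.Injective (fun h : 𝓞 K →ₐ[𝓞 k] B => h α) := by
    intro h h' hh
    have hh' : h α = h' α := hh
    ext x
    obtain ⟨g, hg⟩ := hgen x
    have h1 : h ((N₁ : 𝓞 K) * x) = h' ((N₁ : 𝓞 K) * x) := by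
      rw [hg, ← Polynomial.aeval_algHom_apply, ← Polynomial.aeval_algHom_apply, hh']
    rw [map_mul, map_mul, map_natCast, map_natCast] at h1
    exact mul_left_cancel₀ hne h1
  let f : B[X] := (minpoly (𝓞 k) α).map (algebraMap (𝓞 k) B)
  have hint : IsIntegral (𝓞 k) α := Algebra.IsIntegral.isIntegral α
  have hf : f.Monic := (minpoly.monic hint).map _
  have hroot : ∀ h : 𝓞 K →ₐ[𝓞 k] B, h α ∈ f.roots.toFinset := by
    intro h
    rw [Multiset.mem_toFinset, Polynomial.mem_roots hf.ne_zero, Polynomial.IsRoot.def,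
      Polynomial.eval_map_algebraMap, Polynomial.aeval_algHom_apply, minpoly.aeval, map_zero]
  let e : (𝓞 K →ₐ[𝓞 k] B) → f.roots.toFinset := fun h => ⟨h α, hroot h⟩
  have he : Function.Injective e := fun h h' hh => hev (congrArg Subtype.val hh)
  refine ⟨Finite.of_injective e he, ?_⟩
  refine (Nat.card_le_card_of_injective e he).trans ?_
  rw [Nat.card_eq_fintype_card, Fintype.card_coe]
  refine (Multiset.toFinset_card_le _).trans ?_
  refine (Polynomial.card_roots' f).trans ?_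
  rw [(minpoly.monic hint).natDegree_map]
  exact hdeg

/-- An integral primitive element separates embeddings. -/
lemma embedding_ext {K : Type*} [Field K] [NumberField K] [Algebra k K] (α : 𝓞 K) (N₁ : ℕ)
    (hN₁ : N₁ ≠ 0) (hgen : ∀ x : 𝓞 K, ∃ g : (𝓞 k)[X], (N₁ : 𝓞 K) * x = aeval α g)
    (τ τ' : K →ₐ[k] Ω) (h : RingOfIntegers.mapAlgHom τ α = RingOfIntegers.mapAlgHom τ' α) :
    τ = τ' := by
  have hne : ((N₁ : 𝓞 Ω)) ≠ 0 := by
    haveI : CharZero Ω := charZero_of_injective_algebraMap (algebraMap k Ω).injective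
    exact_mod_cast hN₁
  have hring : ∀ x : 𝓞 K, τ (algebraMap (𝓞 K) K x) = τ' (algebraMap (𝓞 K) K x) := by
    intro x
    obtain ⟨g, hg⟩ := hgen x
    have h1 : (RingOfIntegers.mapAlgHom τ) ((N₁ : 𝓞 K) * x) =
        (RingOfIntegers.mapAlgHom τ') ((N₁ : 𝓞 K) * x) := by
      rw [hg, ← Polynomial.aeval_algHom_apply, ← Polynomial.aeval_algHom_apply, h]
    rw [map_mul, map_mul, map_natCast, map_natCast] at h1
    have h2 := mul_left_cancel₀ hne h1
    exact congrArg (algebraMap (𝓞 Ω) Ω) h2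
  ext z
  obtain ⟨a, b, hb, rfl⟩ := IsFractionRing.div_surjective (A := 𝓞 K) z
  rw [map_div₀, map_div₀, hring, hring]

/-- For all but finitely many residue characteristics, reduction of embeddings is injective. -/
lemma redHom_injective {K : Type*} [Field K] [NumberField K] [Algebra k K] (α : 𝓞 K) (N₁ : ℕ)
    (hN₁ : N₁ ≠ 0) (hgen : ∀ x : 𝓞 K, ∃ g : (𝓞 k)[X], (N₁ : 𝓞 K) * x = aeval α g) :
    ∃ N : ℕ, N ≠ 0 ∧ ∀ Q : Ideal (𝓞 Ω), Q.IsPrime → (N : 𝓞 Ω) ∉ Q →
      Function.Injective (redHom (k := k) K Q) := by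
  classical
  have hdiff : ∀ p : (K →ₐ[k] Ω) × (K →ₐ[k] Ω), ∃ N : ℕ, N ≠ 0 ∧ (p.1 ≠ p.2 →
      (RingOfIntegers.mapAlgHom p.1 α - RingOfIntegers.mapAlgHom p.2 α) ∣ (N : 𝓞 Ω)) := by
    intro p
    by_cases h : p.1 = p.2
    · exact ⟨1, one_ne_zero, fun hne => absurd h hne⟩
    · have hne : RingOfIntegers.mapAlgHom p.1 α - RingOfIntegers.mapAlgHom p.2 α ≠ 0 := by
        intro h0
        exact h (embedding_ext α N₁ hN₁ hgen _ _ (sub_eq_zero.mp h0))
      obtain ⟨N, hN, hd⟩ := exists_int_dvd hne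
      exact ⟨N, hN, fun _ => hd⟩
  choose N₂ hN₂ hN₂d using hdiff
  refine ⟨∏ p, N₂ p, Finset.prod_ne_zero_iff.mpr fun p _ => hN₂ p, ?_⟩
  intro Q hQ hNQ τ τ' h
  by_contra hne
  have h1 : redHom K Q τ α = redHom K Q τ' α := by rw [h]
  have h2 : RingOfIntegers.mapAlgHom τ α - RingOfIntegers.mapAlgHom τ' α ∈ Q := by
    rw [← Ideal.Quotient.eq]
    exact h1
  have h3 : (N₂ (τ, τ') : 𝓞 Ω) ∈ Q := Ideal.mem_of_dvd _ (hN₂d (τ, τ') hne) h2
  apply hNQ
  have h4 : (N₂ (τ, τ')) ∣ ∏ p, N₂ p := Finset.dvd_prod_of_mem _ (Finset.mem_univ _)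
  obtain ⟨c, hc⟩ := h4
  rw [hc, Nat.cast_mul]
  exact Ideal.mul_mem_right _ _ h3

/-- For all but finitely many residue characteristics, reduction of embeddings is bijective. -/
lemma redHom_bijective (K : Type*) [Field K] [NumberField K] [Algebra k K]
    (hsplit : ∀ x : K, ((minpoly k x).map (algebraMap k Ω)).Splits) :
    ∃ N : ℕ, N ≠ 0 ∧ ∀ Q : Ideal (𝓞 Ω), Q.IsPrime → (N : 𝓞 Ω) ∉ Q →
      Function.Bijective (redHom (k := k) K Q) := by
  classical
  obtain ⟨α, N₁, hN₁, hgen, hdeg⟩ := exists_integral_primitive k K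
  obtain ⟨N₂, hN₂, hinj⟩ := redHom_injective (Ω := Ω) α N₁ hN₁ hgen
  have hcard : Fintype.card (K →ₐ[k] Ω) = Module.finrank k K :=
    AlgHom.card_of_splits k K Ω hsplit
  refine ⟨N₁ * N₂, mul_ne_zero hN₁ hN₂, ?_⟩
  intro Q hQ hNQ
  haveI := hQ
  have hNQ1 : (N₁ : 𝓞 Ω) ∉ Q := by
    intro h
    apply hNQ
    rw [Nat.cast_mul]
    exact Ideal.mul_mem_right _ _ h
  have hNQ2 : (N₂ : 𝓞 Ω) ∉ Q := by
    intro h
    apply hNQ
    rw [Nat.cast_mul]
    exact Ideal.mul_mem_left _ _ h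
  have hne : (N₁ : 𝓞 Ω ⧸ Q) ≠ 0 := by
    intro h0
    apply hNQ1
    rw [← Ideal.Quotient.eq_zero_iff_mem, map_natCast]
    exact h0
  obtain ⟨hfin, hle⟩ := card_hom_le α N₁ hgen hdeg hne
  have hle' : Nat.card (𝓞 K →ₐ[𝓞 k] (𝓞 Ω ⧸ Q)) ≤ Nat.card (K →ₐ[k] Ω) := by
    rw [Nat.card_eq_fintype_card (α := (K →ₐ[k] Ω)), hcard]
    exact hle
  exact Function.Injective.bijective_of_nat_card_le (hinj Q hQ hNQ2) hle'

/-- Elements fixed by the `q`-power map come from the field with `q` elements. -/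
lemma fixed_in_image {F B : Type*} [Field F] [Finite F] [CommRing B] [IsDomain B] (ψ : F →+* B)
    (y : B) (hy : y ^ Nat.card F = y) : ∃ x, ψ x = y := by
  classical
  cases nonempty_fintype F
  have hq1 : 1 < Nat.card F := Finite.one_lt_card
  have hdegp : (X ^ Nat.card F - X : B[X]).natDegree = Nat.card F := by
    rw [Polynomial.natDegree_sub_eq_left_of_natDegree_lt]
    · exact Polynomial.natDegree_X_pow _
    · rw [Polynomial.natDegree_X, Polynomial.natDegree_X_pow]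
      exact hq1
  have hp0 : (X ^ Nat.card F - X : B[X]) ≠ 0 := by
    intro h
    rw [h, Polynomial.natDegree_zero] at hdegp
    omega
  have hroots : ∀ z : B, z ^ Nat.card F = z →
      z ∈ (X ^ Nat.card F - X : B[X]).roots.toFinset := by
    intro z hz
    rw [Multiset.mem_toFinset, Polynomial.mem_roots hp0, Polynomial.IsRoot.def,
      eval_sub, eval_pow, eval_X, hz, sub_self]
  have himg : Finset.image ψ Finset.univ ⊆ (X ^ Nat.card F - X : B[X]).roots.toFinset := by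
    intro z hz
    obtain ⟨x, _, rfl⟩ := Finset.mem_image.mp hz
    apply hroots
    rw [← map_pow, Nat.card_eq_fintype_card, FiniteField.pow_card x]
  have heq : Finset.image ψ Finset.univ = (X ^ Nat.card F - X : B[X]).roots.toFinset := by
    apply Finset.eq_of_subset_of_card_le himg
    rw [Finset.card_image_of_injective _ ψ.injective, Finset.card_univ]
    refine (Multiset.toFinset_card_le _).trans ?_
    refine (Polynomial.card_roots' _).trans ?_
    rw [hdegp, Nat.card_eq_fintype_card]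
  have hy' := hroots y hy
  rw [← heq] at hy'
  obtain ⟨x, _, hx⟩ := Finset.mem_image.mp hy'
  exact ⟨x, hx⟩

/-- Homomorphisms into a finite field are the `q`-power-fixed homomorphisms into any domain
containing it. -/
lemma card_hom_eq_fixed {R A F B : Type*} [CommRing R] [CommRing A] [Field F] [Finite F]
    [CommRing B] [IsDomain B] [Algebra R A] [Algebra R F] [Algebra R B] (ψ : F →ₐ[R] B) :
    Nat.card (A →ₐ[R] F) = Nat.card {h : A →ₐ[R] B // ∀ x, (h x) ^ Nat.card F = h x} := by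
  classical
  cases nonempty_fintype F
  have hψ : Function.Injective ψ := (ψ : F →+* B).injective
  have hpowψ : ∀ x, (ψ x) ^ Nat.card F = ψ x := by
    intro x
    rw [← map_pow, Nat.card_eq_fintype_card, FiniteField.pow_card x]
  let Φ : (A →ₐ[R] F) → {h : A →ₐ[R] B // ∀ x, (h x) ^ Nat.card F = h x} :=
    fun f => ⟨ψ.comp f, fun x => hpowψ (f x)⟩
  refine Nat.card_congr (Equiv.ofBijective Φ ⟨?_, ?_⟩)
  · intro f g hfg
    have h1 : ψ.comp f = ψ.comp g := congrArg Subtype.val hfg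
    ext x
    exact hψ (DFunLike.congr_fun h1 x)
  · rintro ⟨h, hh⟩
    have hr : ∀ x, h x ∈ ψ.range := fun x => by
      obtain ⟨y, hy⟩ := fixed_in_image (ψ : F →+* B) (h x) (hh x)
      exact ⟨y, hy⟩
    let e := AlgEquiv.ofInjective ψ hψ
    refine ⟨(e.symm : ψ.range →ₐ[R] _).comp (h.codRestrict ψ.range hr), ?_⟩
    apply Subtype.ext
    ext x
    change ψ (e.symm ⟨h x, hr x⟩) = h x
    have := congrArg Subtype.val (e.apply_symm_apply ⟨h x, hr x⟩)
    exact this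

/-- Degree-one primes are counted by Frobenius-fixed embeddings (one prime). -/
lemma card_eq_fix {K : Type*} [Field K] [NumberField K] [Algebra k K]
    {𝔭 : HeightOneSpectrum (𝓞 k)} (D : FrobeniusAt Ω 𝔭)
    (hbij : Function.Bijective (redHom (k := k) K D.Q)) :
    Nat.card (𝓞 K →ₐ[𝓞 k] 𝓞 k ⧸ 𝔭.asIdeal) =
      Nat.card {τ : K →ₐ[k] Ω // (D.φ : Ω →ₐ[k] Ω).comp τ = τ} := by
  have := D.isPrime
  have : 𝔭.asIdeal.IsMaximal := 𝔭.isMaximal
  have : Finite (𝓞 k ⧸ 𝔭.asIdeal) := finite_quot 𝔭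
  letI : Field (𝓞 k ⧸ 𝔭.asIdeal) := Ideal.Quotient.field _
  let ψ : (𝓞 k ⧸ 𝔭.asIdeal) →ₐ[𝓞 k] (𝓞 Ω ⧸ D.Q) :=
    Ideal.quotientMapₐ D.Q (Algebra.ofId (𝓞 k) (𝓞 Ω)) (by rw [← D.under_eq]; exact le_rfl)
  rw [card_hom_eq_fixed ψ]
  symm
  let R := Equiv.ofBijective _ hbij
  refine Nat.card_congr (R.subtypeEquiv fun τ => ?_)
  change (D.φ : Ω →ₐ[k] Ω).comp τ = τ ↔
    ∀ x, (redHom K D.Q τ x) ^ (Nat.card (𝓞 k ⧸ 𝔭.asIdeal)) = redHom K D.Q τ x
  constructor
  · intro h x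
    have h1 := redHom_frob D τ x
    rw [h] at h1
    exact h1.symm
  · intro h
    apply hbij.1
    ext x
    rw [redHom_frob D τ x]
    exact h x

/-- Degree-one primes are counted by Frobenius-fixed embeddings. -/
lemma degOne_eq_fix (K : Type*) [Field K] [NumberField K] [Algebra k K] [IsGalois k Ω]
    (hsplit : ∀ x : K, ((minpoly k x).map (algebraMap k Ω)).Splits) :
    {𝔭 : HeightOneSpectrum (𝓞 k) | degOne k K 𝔭 ≠
      Nat.card {τ : K →ₐ[k] Ω // ((frobeniusAt Ω 𝔭).φ : Ω →ₐ[k] Ω).comp τ = τ}}.Finite := by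
  classical
  obtain ⟨N, hN0, hN⟩ := redHom_bijective (Ω := Ω) (k := k) K hsplit
  have hI : Ideal.span {(N : 𝓞 k)} ≠ ⊥ := by
    rw [Ne, Ideal.span_singleton_eq_bot]
    exact_mod_cast hN0
  refine (Ideal.finite_factors hI).subset fun 𝔭 h𝔭 => ?_
  by_contra hcon
  apply h𝔭
  have := (frobeniusAt Ω 𝔭).isPrime
  have hmem : (N : 𝓞 Ω) ∉ (frobeniusAt Ω 𝔭).Q := by
    intro hm
    apply hcon
    change 𝔭.asIdeal ∣ _
    rw [Ideal.dvd_span_singleton, ← (frobeniusAt Ω 𝔭).under_eq, Ideal.mem_comap, map_natCast]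
    exact hm
  rw [degOne_eq]
  exact card_eq_fix _ (hN _ (frobeniusAt Ω 𝔭).isPrime hmem)

end Fix

end Pool.Agent.H3.TatePole
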