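import Mathlib
import Pool.Agent.H3.TatePole.Fix
import Pool.Agent.H3.TatePole.Ext

open NumberField IsDedekindDomain Filter Topology Polynomial

namespace Pool.Agent.H3.TatePole

section Orbits

variable {k : Type*} [Field k] [NumberField k] {Ω : Type*} [Field Ω] [Algebra k Ω] [IsGalois k Ω]

/-- restriction of an automorphism to an intermediate field -/
def resHom (K : IntermediateField k Ω) (γ : Gal(Ω/k)) : K →ₐ[k] Ω := (γ : Ω →ₐ[k] Ω).comp K.val

lemma resHom_mul (K : IntermediateField k Ω) (σ γ : Gal(Ω/k)) :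
    resHom K (σ * γ) = (σ : Ω →ₐ[k] Ω).comp (resHom K γ) := rfl

lemma resHom_surjective (K : IntermediateField k Ω) : Function.Surjective (resHom K) := by
  intro τ
  refine ⟨AlgEquiv.ofBijective (τ.liftNormal Ω) (AlgHom.normal_bijective k Ω Ω _), ?_⟩
  ext x
  exact τ.liftNormal_commutes Ω x

lemma resHom_eq_iff (K : IntermediateField k Ω) (γ γ' : Gal(Ω/k)) :
    resHom K γ = resHom K γ' ↔ γ⁻¹ * γ' ∈ K.fixingSubgroup := by
  rw [IntermediateField.mem_fixingSubgroup_iff]
  constructor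
  · intro h x hx
    have h1 : γ x = γ' x := DFunLike.congr_fun h (⟨x, hx⟩ : K)
    change γ⁻¹ (γ' x) = x
    rw [← h1]
    exact γ.symm_apply_apply x
  · intro h
    ext x
    have h1 : γ⁻¹ (γ' x) = x := h x x.2
    change γ x = γ' x
    conv_lhs => rw [← h1]
    exact γ.apply_symm_apply _

variable {X : Type*} [MulAction Gal(Ω/k) X]

/-- the field fixed by the stabilizer of a point -/
noncomputable def ptField (x : X) : IntermediateField k Ω :=
  IntermediateField.fixedField (MulAction.stabilizer Gal(Ω/k) x)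

lemma ptField_le (x : X) (M : IntermediateField k Ω)
    (hM : ∀ σ ∈ M.fixingSubgroup, σ • x = x) : ptField (k := k) (Ω := Ω) x ≤ M := by
  have h1 : M.fixingSubgroup ≤ MulAction.stabilizer Gal(Ω/k) x := fun σ hσ => hM σ hσ
  have h2 := IntermediateField.fixedField_antitone h1
  rw [InfiniteGalois.fixedField_fixingSubgroup] at h2
  exact h2

lemma fixingSubgroup_ptField (x : X) (M : IntermediateField k Ω) [FiniteDimensional k M]
    (hM : ∀ σ ∈ M.fixingSubgroup, σ • x = x) :
    (ptField (k := k) (Ω := Ω) x).fixingSubgroup = MulAction.stabilizer Gal(Ω/k) x := by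
  have h1 : M.fixingSubgroup ≤ MulAction.stabilizer Gal(Ω/k) x := fun σ hσ => hM σ hσ
  have h2 : IsOpen (MulAction.stabilizer Gal(Ω/k) x : Set Gal(Ω/k)) :=
    Subgroup.isOpen_mono h1 M.fixingSubgroup_isOpen
  have h3 := Subgroup.isClosed_of_isOpen _ h2
  exact InfiniteGalois.fixingSubgroup_fixedField ⟨_, h3⟩

/-- Fixed points of `φ` in the orbit of `x` are the embeddings of the field of `x` fixed by `φ`. -/
lemma card_fix_orbit (x : X) (M : IntermediateField k Ω) [FiniteDimensional k M]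
    (hM : ∀ σ ∈ M.fixingSubgroup, σ • x = x) (φ : Gal(Ω/k)) :
    Nat.card {y : X // φ • y = y ∧ y ∈ MulAction.orbit Gal(Ω/k) x} =
      Nat.card {τ : ptField (k := k) (Ω := Ω) x →ₐ[k] Ω // (φ : Ω →ₐ[k] Ω).comp τ = τ} := by
  classical
  have hst : ∀ γ γ' : Gal(Ω/k), resHom (ptField (k := k) (Ω := Ω) x) γ =
      resHom (ptField (k := k) (Ω := Ω) x) γ' ↔ γ • x = γ' • x := by
    intro γ γ'
    rw [resHom_eq_iff, fixingSubgroup_ptField x M hM, MulAction.mem_stabilizer_iff, mul_smul,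
      inv_smul_eq_iff]
    exact eq_comm
  have hsurj := resHom_surjective (ptField (k := k) (Ω := Ω) x)
  symm
  let g : (ptField (k := k) (Ω := Ω) x →ₐ[k] Ω) → Gal(Ω/k) := fun τ => (hsurj τ).choose
  have hg : ∀ τ, resHom (ptField (k := k) (Ω := Ω) x) (g τ) = τ := fun τ => (hsurj τ).choose_spec
  have key : ∀ γ : Gal(Ω/k), (φ : Ω →ₐ[k] Ω).comp (resHom (ptField (k := k) (Ω := Ω) x) γ) =
      resHom (ptField (k := k) (Ω := Ω) x) γ ↔ φ • γ • x = γ • x := by
    intro γ
    rw [← resHom_mul, hst, mul_smul]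
  refine Nat.card_congr (Equiv.ofBijective (fun τ => ⟨g τ.1 • x, ?_, ⟨g τ.1, rfl⟩⟩) ⟨?_, ?_⟩)
  · rw [← key, hg]
    exact τ.2
  · rintro ⟨τ, hτ⟩ ⟨τ', hτ'⟩ h
    have h1 : g τ • x = g τ' • x := congrArg Subtype.val h
    rw [← hst, hg, hg] at h1
    exact Subtype.ext h1
  · rintro ⟨_, hy, γ, rfl⟩
    refine ⟨⟨resHom _ γ, (key γ).mpr hy⟩, ?_⟩
    apply Subtype.ext
    change g (resHom _ γ) • x = γ • x
    rw [← hst, hg]

lemma splits_intermediate (K : IntermediateField k Ω) [FiniteDimensional k K] (x : K) :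
    ((minpoly k x).map (algebraMap k Ω)).Splits := by
  have h := Normal.splits (F := k) (K := Ω) inferInstance (x : Ω)
  rw [show minpoly k (x : Ω) = minpoly k x from minpoly.algebraMap_eq K.val.injective x] at h
  exact h

/-- The function counting embeddings fixed by Frobenius has mean one. -/
lemma fix_mean (K : IntermediateField k Ω) [FiniteDimensional k K] :
    HasMean (𝓝[>] 1) (fun 𝔭 : HeightOneSpectrum (𝓞 k) =>
      (Nat.card {τ : K →ₐ[k] Ω // ((frobeniusAt Ω 𝔭).φ : Ω →ₐ[k] Ω).comp τ = τ} : ℝ)) 1 := by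
  have h1 := degOne_eq_fix (Ω := Ω) (k := k) K (splits_intermediate K)
  refine hasMean_congr (degOne_bdd k K) ?_ ?_ (degOne_mean k K)
  · refine ⟨Nat.card (K →ₐ[k] Ω), fun 𝔭 => ?_⟩
    rw [Nat.abs_cast]
    exact_mod_cast Nat.card_le_card_of_injective _ Subtype.val_injective
  · refine h1.subset fun 𝔭 h => ?_
    intro h2
    apply h
    exact_mod_cast h2

/-- Number of fixed points as a sum over orbits. -/
lemma card_fix_eq_sum [Finite X] [Fintype (MulAction.orbitRel.Quotient Gal(Ω/k) X)]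
    (φ : Gal(Ω/k)) :
    Nat.card {y : X // φ • y = y} = ∑ ω : MulAction.orbitRel.Quotient Gal(Ω/k) X,
      Nat.card {y : X // φ • y = y ∧ y ∈ MulAction.orbit Gal(Ω/k) (Quotient.out ω)} := by
  classical
  rw [← Nat.card_sigma]
  refine Nat.card_congr
    { toFun := fun y => ⟨Quotient.mk _ y.1, ⟨y.1, y.2, ?_⟩⟩
      invFun := fun z => ⟨z.2.1, z.2.2.1⟩
      left_inv := fun y => rfl
      right_inv := ?_ }
  · have h := Quotient.exact (Quotient.out_eq (Quotient.mk (MulAction.orbitRel Gal(Ω/k) X) y.1))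
    exact (MulAction.orbitRel Gal(Ω/k) X).symm h
  · rintro ⟨ω, ⟨y, hy, ho⟩⟩
    have h1 : Quotient.mk (MulAction.orbitRel Gal(Ω/k) X) y = ω := by
      rw [← Quotient.out_eq ω]
      exact Quotient.sound ho
    subst h1
    rfl

/-- **Fixed points of Frobenius on a finite set**: the mean is the number of orbits. -/
theorem mean_fixedPoints [Finite X] (M : IntermediateField k Ω) [FiniteDimensional k M]
    (hM : ∀ σ ∈ M.fixingSubgroup, ∀ x : X, σ • x = x) :
    HasMean (𝓝[>] 1) (fun 𝔭 : HeightOneSpectrum (𝓞 k) =>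
      (Nat.card {y : X // (frobeniusAt Ω 𝔭).φ • y = y} : ℝ))
      (Nat.card (MulAction.orbitRel.Quotient Gal(Ω/k) X)) := by
  classical
  haveI : Finite (MulAction.orbitRel.Quotient Gal(Ω/k) X) := Quotient.finite _
  letI : Fintype (MulAction.orbitRel.Quotient Gal(Ω/k) X) := Fintype.ofFinite _
  have hfd : ∀ x : X, FiniteDimensional k (ptField (k := k) (Ω := Ω) x) := by
    intro x
    have hle := ptField_le x M fun σ hσ => hM σ hσ x
    exact Module.Finite.of_injective (IntermediateField.inclusion hle).toLinearMap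
      (IntermediateField.inclusion_injective hle)
  have h1 : (fun 𝔭 : HeightOneSpectrum (𝓞 k) =>
      (Nat.card {y : X // (frobeniusAt Ω 𝔭).φ • y = y} : ℝ)) =
      fun 𝔭 => ∑ ω : MulAction.orbitRel.Quotient Gal(Ω/k) X,
        (Nat.card {τ : ptField (k := k) (Ω := Ω) (Quotient.out ω) →ₐ[k] Ω //
          ((frobeniusAt Ω 𝔭).φ : Ω →ₐ[k] Ω).comp τ = τ} : ℝ) := by
    funext 𝔭
    rw [card_fix_eq_sum]
    push_cast
    refine Finset.sum_congr rfl fun ω _ => ?_
    rw [card_fix_orbit (Quotient.out ω) M (fun σ hσ => hM σ hσ _)]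
  rw [h1]
  have h2 : (Nat.card (MulAction.orbitRel.Quotient Gal(Ω/k) X) : ℝ) =
      ∑ ω : MulAction.orbitRel.Quotient Gal(Ω/k) X, (1 : ℝ) := by
    rw [Finset.sum_const, Finset.card_univ, Nat.card_eq_fintype_card]
    simp
  rw [h2]
  refine HasMean.sum le_rfl _ (fun ω _ => ?_) (fun ω _ => ?_)
  · haveI := hfd (Quotient.out ω)
    refine ⟨Nat.card (ptField (k := k) (Ω := Ω) (Quotient.out ω) →ₐ[k] Ω), fun 𝔭 => ?_⟩
    rw [Nat.abs_cast]
    exact_mod_cast Nat.card_le_card_of_injective _ Subtype.val_injective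
  · haveI := hfd (Quotient.out ω)
    exact fix_mean _

end Orbits

end Pool.Agent.H3.TatePole
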