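import Mathlib
import Pool.Agent.H3.TatePole.Weights

open NumberField IsDedekindDomain Filter Topology Polynomial

namespace Pool.Agent.H3.TatePole

section Bessel

variable {k : Type*} [Field k] [NumberField k] {Ω : Type*} [Field Ω] [Algebra k Ω]

/-- Bessel inequality for pole orders. -/
lemma bessel {𝓕 : Filter ℝ} [𝓕.NeBot] (h𝓕 : 𝓕 ≤ 𝓝[>] 1)
    {c : HeightOneSpectrum (𝓞 k) → ℝ} {B : ℝ} (hc : ∀ v, |c v| ≤ B) {β : ℝ}
    (hβ : HasMean 𝓕 c β) (n : ℕ) (hn : 1 ≤ n) (t : Finset (IntermediateField k Ω))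
    (hfd : ∀ K ∈ t, FiniteDimensional k K) (hdeg : ∀ K ∈ t, Module.finrank k K ≤ n)
    (hdisj : ∀ K ∈ t, ∀ M ∈ t, K ≠ M → K.LinearDisjoint M)
    (P : IntermediateField k Ω → HeightOneSpectrum (𝓞 k) → ℝ)
    (hP : ∀ K ∈ t, ∀ (_ : FiniteDimensional k K), P K = fun p => (degOne k K p : ℝ))
    (r : IntermediateField k Ω → ℝ) (hr : ∀ K ∈ t, HasMean 𝓕 (fun p => c p * P K p) (r K)) :
    ∑ K ∈ t, (r K - β) ^ 2 ≤ (n - 1) * B ^ 2 := by
  classical
  have hcb : Bdd c := ⟨B, hc⟩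
  have hPb : ∀ K ∈ t, Bdd (P K) := fun K hK => by
    haveI := hfd K hK
    rw [hP K hK inferInstance]
    exact degOne_bdd k K
  have hPmean : ∀ K ∈ t, HasMean 𝓕 (P K) 1 := fun K hK => by
    haveI := hfd K hK
    rw [hP K hK inferInstance]
    exact (degOne_mean k K).mono h𝓕
  have hPle : ∀ K ∈ t, ∀ p, P K p ≤ n := fun K hK p => by
    haveI := hfd K hK
    rw [hP K hK inferInstance]
    change (degOne k K p : ℝ) ≤ n
    exact_mod_cast (degOne_le p).trans (hdeg K hK)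
  have hP0 : ∀ K ∈ t, ∀ p, 0 ≤ P K p := fun K hK p => by
    haveI := hfd K hK
    rw [hP K hK inferInstance]
    positivity
  have h1mean : HasMean 𝓕 (fun _ : HeightOneSpectrum (𝓞 k) => (1 : ℝ)) 1 := hasMean_one.mono h𝓕
  set a : IntermediateField k Ω → ℝ := fun K => r K - β with ha
  set A : ℝ := ∑ K ∈ t, (a K) ^ 2 with hA
  let g : HeightOneSpectrum (𝓞 k) → ℝ := fun p => ∑ K ∈ t, a K * (P K p - 1)
  have hgb : Bdd g := by
    refine Bdd.sum t fun K hK => (Bdd.const (a K)).mul ?_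
    have := (hPb K hK).add (Bdd.const (-1))
    simpa [sub_eq_add_neg] using this
  -- mean of c * g
  have hcg : HasMean 𝓕 (fun p => c p * g p) A := by
    have h1 : (fun p => c p * g p) = fun p => ∑ K ∈ t, a K * (c p * P K p + (-1) * c p) := by
      funext p
      simp only [g]
      rw [Finset.mul_sum]
      exact Finset.sum_congr rfl fun K _ => by ring
    rw [h1, hA]
    have h2 : ∀ K ∈ t, HasMean 𝓕 (fun p => a K * (c p * P K p + (-1) * c p)) (a K ^ 2) := by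
      intro K hK
      have h3 := ((hr K hK).add h𝓕 (hcb.mul (hPb K hK)) ((Bdd.const (-1)).mul hcb)
        (hβ.const_mul (-1))).const_mul (a K)
      have h4 : a K * (r K + -1 * β) = a K ^ 2 := by rw [ha]; ring
      rwa [h4] at h3
    exact HasMean.sum h𝓕 t
      (fun K hK => (Bdd.const (a K)).mul ((hcb.mul (hPb K hK)).add ((Bdd.const (-1)).mul hcb))) h2
  -- majorant of g^2
  let q : IntermediateField k Ω → IntermediateField k Ω → HeightOneSpectrum (𝓞 k) → ℝ :=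
    fun K M p => if K = M then ((n : ℝ) - 2) * P K p + 1 else
      (P K p * P M p + (-1) * P K p) + ((-1) * P M p + 1)
  have hqb : ∀ K ∈ t, ∀ M ∈ t, Bdd (q K M) := by
    intro K hK M hM
    simp only [q]
    split_ifs with h
    · exact ((Bdd.const _).mul (hPb K hK)).add (Bdd.const 1)
    · exact (((hPb K hK).mul (hPb M hM)).add ((Bdd.const (-1)).mul (hPb K hK))).add
        (((Bdd.const (-1)).mul (hPb M hM)).add (Bdd.const 1))
  have hqmean : ∀ K ∈ t, ∀ M ∈ t, HasMean 𝓕 (q K M) (if K = M then (n : ℝ) - 1 else 0) := by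
    intro K hK M hM
    simp only [q]
    split_ifs with h
    · have h3 := ((hPmean K hK).const_mul ((n : ℝ) - 2)).add h𝓕
        ((Bdd.const ((n : ℝ) - 2)).mul (hPb K hK)) (Bdd.const 1) h1mean
      have h4 : ((n : ℝ) - 2) * 1 + 1 = n - 1 := by ring
      rwa [h4] at h3
    · haveI := hfd K hK
      haveI := hfd M hM
      have hprod : HasMean 𝓕 (fun p => P K p * P M p) 1 := by
        rw [hP K hK inferInstance, hP M hM inferInstance]
        exact (degOne_mul_mean K M (hdisj K hK M hM h)).mono h𝓕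
      have h3 := (hprod.add h𝓕 ((hPb K hK).mul (hPb M hM)) ((Bdd.const (-1)).mul (hPb K hK))
        ((hPmean K hK).const_mul (-1))).add h𝓕
        (((hPb K hK).mul (hPb M hM)).add ((Bdd.const (-1)).mul (hPb K hK)))
        (((Bdd.const (-1)).mul (hPb M hM)).add (Bdd.const 1))
        (((hPmean M hM).const_mul (-1)).add h𝓕 ((Bdd.const (-1)).mul (hPb M hM)) (Bdd.const 1) h1mean)
      have h4 : (1 + -1 * 1 + (-1 * 1 + 1) : ℝ) = 0 := by ring
      rwa [h4] at h3
  let H : HeightOneSpectrum (𝓞 k) → ℝ := fun p => ∑ K ∈ t, ∑ M ∈ t, (a K * a M) * q K M p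
  have hHb : Bdd H := Bdd.sum t fun K hK => Bdd.sum t fun M hM => (Bdd.const _).mul (hqb K hK M hM)
  have hHmean : HasMean 𝓕 H (((n : ℝ) - 1) * A) := by
    have h1 : HasMean 𝓕 H (∑ K ∈ t, ∑ M ∈ t, (a K * a M) * (if K = M then (n : ℝ) - 1 else 0)) :=
      HasMean.sum h𝓕 t (fun K hK => Bdd.sum t fun M hM => (Bdd.const _).mul (hqb K hK M hM))
        fun K hK => HasMean.sum h𝓕 t (fun M hM => (Bdd.const _).mul (hqb K hK M hM))
          fun M hM => (hqmean K hK M hM).const_mul _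
    have h2 : ∑ K ∈ t, ∑ M ∈ t, (a K * a M) * (if K = M then (n : ℝ) - 1 else 0) =
        ((n : ℝ) - 1) * A := by
      rw [hA, Finset.mul_sum]
      refine Finset.sum_congr rfl fun K hK => ?_
      rw [Finset.sum_eq_single K]
      · simp; ring
      · intro M _ hne
        simp [hne.symm]
      · intro h; exact absurd hK h
    rwa [h2] at h1
  have hgH : ∀ p, g p ^ 2 ≤ H p := by
    intro p
    simp only [g, H]
    rw [sq, Finset.sum_mul_sum]
    refine Finset.sum_le_sum fun K hK => Finset.sum_le_sum fun M hM => ?_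
    simp only [q]
    split_ifs with h
    · subst h
      have h1 : (P K p - 1) * (P K p - 1) ≤ ((n : ℝ) - 2) * P K p + 1 := by
        nlinarith [hPle K hK p, hP0 K hK p]
      have h2 : 0 ≤ a K * a K := mul_self_nonneg _
      nlinarith
    · apply le_of_eq; ring
  have hA0 : 0 ≤ A := Finset.sum_nonneg fun K _ => sq_nonneg _
  -- Cauchy-Schwarz and limit
  have hlim1 : Tendsto (fun s => (wsum (fun p => c p * g p) s / Lam s) ^ 2) 𝓕 (𝓝 (A ^ 2)) :=
    Tendsto.pow hcg 2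
  have hlim2 : Tendsto (fun s => B ^ 2 * (wsum (fun _ : HeightOneSpectrum (𝓞 k) => (1 : ℝ)) s / Lam s) *
      (wsum H s / Lam s)) 𝓕 (𝓝 (B ^ 2 * 1 * (((n : ℝ) - 1) * A))) :=
    (Tendsto.const_mul (B ^ 2) h1mean).mul hHmean
  have hev : ∀ᶠ s in 𝓕, (wsum (fun p => c p * g p) s / Lam s) ^ 2 ≤
      B ^ 2 * (wsum (fun _ : HeightOneSpectrum (𝓞 k) => (1 : ℝ)) s / Lam s) * (wsum H s / Lam s) := by
    have e1 : ∀ᶠ s in 𝓕, (1 : ℝ) < s := h𝓕 self_mem_nhdsWithin
    have e2 : ∀ᶠ s in 𝓕, 0 < Lam s := h𝓕 (Lam_tendsto.eventually_gt_atTop 0)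
    filter_upwards [e1, e2] with s hs hL
    have h1 := wsum_cs hcb hgb hs
    have h2 : wsum (fun v => c v ^ 2) s ≤ B ^ 2 * wsum (fun _ : HeightOneSpectrum (𝓞 k) => (1 : ℝ)) s := by
      rw [← wsum_const_mul]
      refine wsum_mono (by simpa [sq] using hcb.mul hcb) ((Bdd.const _).mul (Bdd.const 1)) ?_ hs
      intro v
      rw [mul_one]
      exact sq_le_sq' (by linarith [(abs_le.mp (hc v)).1]) (abs_le.mp (hc v)).2
    have h3 : wsum (fun v => g v ^ 2) s ≤ wsum H s :=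
      wsum_mono (by simpa [sq] using hgb.mul hgb) hHb hgH hs
    have h4 : 0 ≤ wsum (fun v => g v ^ 2) s :=
      tsum_nonneg fun v => mul_nonneg (sq_nonneg _) (Real.rpow_nonneg (nrm_pos v).le _)
    have h5 : 0 ≤ B ^ 2 * wsum (fun _ : HeightOneSpectrum (𝓞 k) => (1 : ℝ)) s := by
      refine mul_nonneg (sq_nonneg _) ?_
      exact tsum_nonneg fun v => mul_nonneg zero_le_one (Real.rpow_nonneg (nrm_pos v).le _)
    have h6 : (wsum (fun p => c p * g p) s) ^ 2 ≤
        (B ^ 2 * wsum (fun _ : HeightOneSpectrum (𝓞 k) => (1 : ℝ)) s) * wsum H s :=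
      h1.trans (mul_le_mul h2 h3 h4 h5)
    rw [div_pow, div_le_iff₀ (by positivity)]
    have h7 : B ^ 2 * (wsum (fun _ : HeightOneSpectrum (𝓞 k) => (1 : ℝ)) s / Lam s) * (wsum H s / Lam s) *
        Lam s ^ 2 = (B ^ 2 * wsum (fun _ : HeightOneSpectrum (𝓞 k) => (1 : ℝ)) s) * wsum H s := by
      field_simp
    rw [h7]
    exact h6
  have hfinal : A ^ 2 ≤ B ^ 2 * 1 * (((n : ℝ) - 1) * A) := le_of_tendsto_of_tendsto hlim1 hlim2 hev
  rcases hA0.eq_or_lt with h0 | hpos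
  · rw [← h0]
    have h1 : (1 : ℝ) ≤ n := by exact_mod_cast hn
    have h2 : 0 ≤ B ^ 2 := sq_nonneg _
    nlinarith
  · have : A * A ≤ ((n - 1) * B ^ 2) * A := by nlinarith
    exact le_of_mul_le_mul_right this hpos

/-- existence of limit points of the mean of a bounded function -/
lemma exists_mean {c : HeightOneSpectrum (𝓞 k) → ℝ} {B : ℝ} (hc : ∀ v, |c v| ≤ B) :
    ∃ (𝓕 : Filter ℝ) (β : ℝ), 𝓕.NeBot ∧ 𝓕 ≤ 𝓝[>] 1 ∧ HasMean 𝓕 c β := by
  have hB0 : 0 ≤ B := by
    obtain ⟨M, hM⟩ := Ideal.exists_maximal (𝓞 k)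
    exact (abs_nonneg _).trans (hc ⟨M, hM.isPrime, Ring.ne_bot_of_isMaximal_of_not_isField hM
        (RingOfIntegers.not_isField k)⟩)
  let 𝒰 : Ultrafilter ℝ := Ultrafilter.of (𝓝[>] (1 : ℝ))
  have h𝒰 : (𝒰 : Filter ℝ) ≤ 𝓝[>] 1 := Ultrafilter.of_le _
  have hbound : ∀ᶠ s in (𝒰 : Filter ℝ), wsum c s / Lam s ∈ Set.Icc (-(2 * B)) (2 * B) := by
    have e1 : ∀ᶠ s : ℝ in 𝓝[>] 1, (1 : ℝ) < s := self_mem_nhdsWithin
    have e2 : ∀ᶠ s : ℝ in 𝓝[>] 1, 0 < Lam s := Lam_tendsto.eventually_gt_atTop 0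
    have e3 : ∀ᶠ s : ℝ in 𝓝[>] 1, wsum (fun _ : HeightOneSpectrum (𝓞 k) => (1 : ℝ)) s / Lam s < 2 :=
      (hasMean_one (k := k)).eventually_lt_const (by norm_num)
    have e4 : ∀ᶠ s : ℝ in 𝓝[>] 1, wsum c s / Lam s ∈ Set.Icc (-(2 * B)) (2 * B) := by
      filter_upwards [e1, e2, e3] with s h1 h2 h3
      have hcb : Bdd c := ⟨B, hc⟩
      have h4 : wsum c s ≤ B * wsum (fun _ : HeightOneSpectrum (𝓞 k) => (1 : ℝ)) s := by
        rw [← wsum_const_mul]
        refine wsum_mono hcb ((Bdd.const B).mul (Bdd.const 1)) (fun v => ?_) h1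
        rw [mul_one]; exact (abs_le.mp (hc v)).2
      have h5 : (-B) * wsum (fun _ : HeightOneSpectrum (𝓞 k) => (1 : ℝ)) s ≤ wsum c s := by
        rw [← wsum_const_mul]
        refine wsum_mono ((Bdd.const (-B)).mul (Bdd.const 1)) hcb (fun v => ?_) h1
        rw [mul_one]; exact (abs_le.mp (hc v)).1
      rw [div_lt_iff₀ h2] at h3
      constructor
      · rw [le_div_iff₀ h2]
        nlinarith
      · rw [div_le_iff₀ h2]
        nlinarith
    exact h𝒰 e4
  obtain ⟨β, _, hβ⟩ := (isCompact_Icc (a := -(2 * B)) (b := 2 * B)).ultrafilter_le_nhds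
    (Ultrafilter.map (fun s => wsum c s / Lam s) 𝒰) (by
      rw [le_principal_iff]
      exact hbound)
  exact ⟨𝒰, β, inferInstance, h𝒰, hβ⟩

end Bessel

section Main

variable {k : Type*} [Field k] [NumberField k] {Ω : Type*} [Field Ω] [Algebra k Ω] [IsGalois k Ω]
variable {E V : Type*} [Field E] [AddCommGroup V] [Module E V] [FiniteDimensional E V]
variable {ι : E →+* ℂ} {ρ : Representation E Gal(Ω/k) V}

/-- the pole order over `K` is the mean value of `c · P_K` -/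
lemma hasMean_of_pole (hρ : WeightsLeTwo ι ρ) (K : IntermediateField k Ω) [FiniteDimensional k K]
    {r : ℤ} (h : HasPoleOfOrder (LFunction ι (resRep ρ K)) 2 r) :
    HasMean (𝓝[>] 1) (fun 𝔭 => cfun ι ρ 𝔭 * (degOne k K 𝔭 : ℝ)) r := by
  obtain ⟨C, hC⟩ := log_LFunction ι ρ hρ K
  refine tendsto_of_bounded_diff (C := C) ?_ h.tendsto
  filter_upwards [self_mem_nhdsWithin] with t ht
  exact hC t ht

/-- quantitative rigidity -/
lemma sum_sq_le {𝓕 : Filter ℝ} [𝓕.NeBot] (h𝓕 : 𝓕 ≤ 𝓝[>] 1) (hρ : WeightsLeTwo ι ρ) {β : ℝ}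
    (hβ : HasMean 𝓕 (cfun ι ρ) β) (n : ℕ) (hn : 1 ≤ n) (t : Finset (IntermediateField k Ω))
    (hfd : ∀ K ∈ t, FiniteDimensional k K) (hdeg : ∀ K ∈ t, Module.finrank k K ≤ n)
    (hdisj : ∀ K ∈ t, ∀ M ∈ t, K ≠ M → K.LinearDisjoint M)
    (r : IntermediateField k Ω → ℤ)
    (hr : ∀ K ∈ t, ∀ (_ : FiniteDimensional k K), HasPoleOfOrder (LFunction ι (resRep ρ K)) 2 (r K)) :
    ∑ K ∈ t, ((r K : ℝ) - β) ^ 2 ≤ (n - 1) * (Module.finrank E V : ℝ) ^ 2 := by
  classical
  let P : IntermediateField k Ω → HeightOneSpectrum (𝓞 k) → ℝ := fun K =>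
    if h : FiniteDimensional k K then (haveI := h; fun p => (degOne k K p : ℝ)) else 0
  have hP : ∀ K ∈ t, ∀ (_ : FiniteDimensional k K), P K = fun p => (degOne k K p : ℝ) := by
    intro K _ h
    simp only [P, h, dif_pos]
  refine bessel h𝓕 (abs_cfun_le ι ρ) hβ n hn t hfd hdeg hdisj P hP (fun K => (r K : ℝ)) ?_
  intro K hK
  haveI := hfd K hK
  rw [hP K hK inferInstance]
  exact (hasMean_of_pole hρ K (hr K hK inferInstance)).mono h𝓕

/-- **Rigidity of the pole order.** -/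
theorem rigidity (hρ : WeightsLeTwo ι ρ) (n : ℕ) (hn : 1 ≤ n) :
    ∃ (r : ℤ) (T : Finset (IntermediateField k Ω)),
      T.card ≤ 4 * (n - 1) * (Module.finrank E V) ^ 2 ∧
      (∀ M ∈ T, M ≠ ⊥ ∧ FiniteDimensional k M ∧ Module.finrank k M ≤ n) ∧
      ∀ (K : IntermediateField k Ω) [FiniteDimensional k K], Module.finrank k K ≤ n →
        (∀ M ∈ T, K.LinearDisjoint M) →
        ∀ r' : ℤ, HasPoleOfOrder (LFunction ι (resRep ρ K)) 2 r' → r' = r := by
  classical
  obtain ⟨𝓕, β, hne, h𝓕, hβ⟩ := exists_mean (abs_cfun_le ι ρ)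
  let r : ℤ := round β
  -- exceptional fields
  let Exc : IntermediateField k Ω → Prop := fun K => ∃ h : FiniteDimensional k K,
    (Module.finrank k K ≤ n ∧ ∃ r' : ℤ, HasPoleOfOrder (LFunction ι (resRep ρ K)) 2 r' ∧ r' ≠ r)
  -- good families
  let Fam : Finset (IntermediateField k Ω) → Prop := fun t =>
    (∀ K ∈ t, Exc K) ∧ (∀ K ∈ t, ∀ M ∈ t, K ≠ M → K.LinearDisjoint M)
  have hdist : ∀ r' : ℤ, r' ≠ r → (1 / 4 : ℝ) ≤ ((r' : ℝ) - β) ^ 2 := by
    intro r' hr'
    have h1 : |β - round β| ≤ 1 / 2 := abs_sub_round β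
    have h2 : (1 : ℝ) ≤ |(r' : ℝ) - (r : ℝ)| := by
      have : (1 : ℤ) ≤ |r' - r| := Int.one_le_abs (sub_ne_zero.mpr hr')
      exact_mod_cast this
    have h3 : |(r' : ℝ) - r| ≤ |(r' : ℝ) - β| + |β - r| := abs_sub_le _ _ _
    have h4 : (1 / 2 : ℝ) ≤ |(r' : ℝ) - β| := by
      have : |β - (r : ℝ)| ≤ 1 / 2 := h1
      linarith
    have h5 : ((r' : ℝ) - β) ^ 2 = |(r' : ℝ) - β| ^ 2 := (sq_abs _).symm
    rw [h5]
    nlinarith
  have hbound : ∀ t : Finset (IntermediateField k Ω), Fam t →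
      t.card ≤ 4 * (n - 1) * (Module.finrank E V) ^ 2 := by
    intro t ht
    have hchoose : ∀ K ∈ t, ∃ r' : ℤ, (∀ (_ : FiniteDimensional k K),
        HasPoleOfOrder (LFunction ι (resRep ρ K)) 2 r') ∧ r' ≠ r := by
      intro K hK
      obtain ⟨h, _, r', h1, h2⟩ := ht.1 K hK
      exact ⟨r', fun _ => h1, h2⟩
    choose! rr hrr using hchoose
    have hb := sum_sq_le h𝓕 hρ hβ n hn t (fun K hK => (ht.1 K hK).1)
      (fun K hK => (ht.1 K hK).2.1) ht.2 rr (fun K hK => (hrr K hK).1)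
    have hl : (t.card : ℝ) * (1 / 4) ≤ ∑ K ∈ t, ((rr K : ℝ) - β) ^ 2 := by
      rw [← nsmul_eq_mul, ← Finset.sum_const]
      exact Finset.sum_le_sum fun K hK => hdist _ (hrr K hK).2
    have hfin : (t.card : ℝ) ≤ 4 * ((n : ℝ) - 1) * (Module.finrank E V : ℝ) ^ 2 := by
      linarith
    have hcast : ((4 * (n - 1) * (Module.finrank E V) ^ 2 : ℕ) : ℝ) =
        4 * ((n : ℝ) - 1) * (Module.finrank E V : ℝ) ^ 2 := by
      push_cast [Nat.cast_sub hn]
      ring
    rw [← hcast] at hfin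
    exact_mod_cast hfin
  -- maximal family
  have hbdd : ∃ m : ℕ, (∃ t, Fam t ∧ t.card = m) ∧ ∀ t, Fam t → t.card ≤ m := by
    have hex : ∃ m : ℕ, ∀ t, Fam t → t.card ≤ m := ⟨_, hbound⟩
    refine ⟨Nat.find hex, ?_, Nat.find_spec hex⟩
    by_contra hcon
    push Not at hcon
    have hfam0 : Fam ∅ := ⟨by simp, by simp⟩
    have h1 : ∀ t, Fam t → t.card < Nat.find hex := fun t ht =>
      lt_of_le_of_ne (Nat.find_spec hex t ht) (hcon t ht)
    have hpos : 0 < Nat.find hex := by simpa using h1 ∅ hfam0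
    have := Nat.find_min hex (m := Nat.find hex - 1) (by omega)
    apply this
    intro t ht
    have := h1 t ht
    omega
  obtain ⟨m, ⟨T, hT, hTm⟩, hmax⟩ := hbdd
  -- `⊥` is not exceptional
  have hbot : ¬ Exc ⊥ := by
    rintro ⟨h, hd, r', h1, h2⟩
    have hb := sum_sq_le h𝓕 hρ hβ 1 le_rfl {(⊥ : IntermediateField k Ω)}
      (fun K hK => by rw [Finset.mem_singleton.mp hK]; exact h)
      (fun K hK => by
        rw [Finset.mem_singleton.mp hK]
        exact (IntermediateField.finrank_bot).le)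
      (fun K hK M hM hne => absurd ((Finset.mem_singleton.mp hK).trans
        (Finset.mem_singleton.mp hM).symm) hne)
      (fun _ => r') (fun K hK => by
        rw [Finset.mem_singleton.mp hK]
        intro _
        exact h1)
    have h3 := hdist r' h2
    simp at hb
    nlinarith
  refine ⟨r, T, hbound T hT, ?_, ?_⟩
  · intro M hM
    have hM' := hT.1 M hM
    refine ⟨?_, hM'.1, hM'.2.1⟩
    rintro rfl
    exact hbot hM'
  · intro K hK hd hdisj r' hr'
    by_contra hne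
    have hexc : Exc K := ⟨hK, hd, r', hr', hne⟩
    have hKT : K ∉ T := by
      intro hmem
      have h1 := (hdisj K hmem).eq_bot_of_self
      rw [h1] at hexc
      exact hbot hexc
    have hfam : Fam (insert K T) := by
      constructor
      · intro M hM
        rcases Finset.mem_insert.mp hM with h | h
        · rw [h]; exact hexc
        · exact hT.1 M h
      · intro M hM N hN hMN
        rcases Finset.mem_insert.mp hM with h | h <;> rcases Finset.mem_insert.mp hN with h' | h'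
        · exact absurd (h.trans h'.symm) hMN
        · rw [h]; exact hdisj N h'
        · rw [h']; exact (hdisj M h).symm
        · exact hT.2 M h N h' hMN
    have h1 := hmax _ hfam
    rw [Finset.card_insert_of_notMem hKT] at h1
    omega

end Main

end Pool.Agent.H3.TatePole
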