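import Mathlib
import Pool.Agent.H3.TatePole.Orbits
import Pool.Agent.H3.TatePole.Rigidity

open NumberField IsDedekindDomain Filter Topology Polynomial

namespace Pool.Agent.H3.TatePole

section Pairs

variable {k : Type*} [Field k] [NumberField k] {Ω : Type*} [Field Ω] [Algebra k Ω] [IsGalois k Ω]

/-- pairs of embeddings -/
def PairHom (K F : IntermediateField k Ω) : Type _ := (K →ₐ[k] Ω) × (F →ₐ[k] Ω)

instance (K F : IntermediateField k Ω) : MulAction Gal(Ω/k) (PairHom K F) where
  smul σ x := ((σ : Ω →ₐ[k] Ω).comp x.1, (σ : Ω →ₐ[k] Ω).comp x.2)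
  one_smul _ := rfl
  mul_smul _ _ _ := rfl

lemma PairHom.smul_fst {K F : IntermediateField k Ω} (σ : Gal(Ω/k)) (x : PairHom K F) :
    (σ • x).1 = (σ : Ω →ₐ[k] Ω).comp x.1 := rfl

lemma PairHom.smul_snd {K F : IntermediateField k Ω} (σ : Gal(Ω/k)) (x : PairHom K F) :
    (σ • x).2 = (σ : Ω →ₐ[k] Ω).comp x.2 := rfl

instance (K F : IntermediateField k Ω) [FiniteDimensional k K] [FiniteDimensional k F] :
    Finite (PairHom K F) := inferInstanceAs (Finite ((K →ₐ[k] Ω) × (F →ₐ[k] Ω)))

/-- number of orbits on pairs of embeddings -/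
noncomputable def dpair (K F : IntermediateField k Ω) : ℕ :=
  Nat.card (MulAction.orbitRel.Quotient Gal(Ω/k) (PairHom K F))

lemma card_fix_pair (K F : IntermediateField k Ω) (φ : Gal(Ω/k)) :
    Nat.card {y : PairHom K F // φ • y = y} =
      Nat.card {τ : K →ₐ[k] Ω // (φ : Ω →ₐ[k] Ω).comp τ = τ} *
      Nat.card {τ : F →ₐ[k] Ω // (φ : Ω →ₐ[k] Ω).comp τ = τ} := by
  rw [← Nat.card_prod]
  refine Nat.card_congr
    { toFun := fun y => (⟨y.1.1, congrArg Prod.fst y.2⟩, ⟨y.1.2, congrArg Prod.snd y.2⟩)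
      invFun := fun z => ⟨(z.1.1, z.2.1), Prod.ext z.1.2 z.2.2⟩
      left_inv := fun y => rfl
      right_inv := fun z => rfl }

/-- automorphisms trivial on a normal field containing `K` fix embeddings of `K` -/
lemma comp_eq_of_mem_fixingSubgroup {K M : IntermediateField k Ω} [Normal k M] (h : K ≤ M)
    {σ : Gal(Ω/k)} (hσ : σ ∈ M.fixingSubgroup) (τ : K →ₐ[k] Ω) :
    (σ : Ω →ₐ[k] Ω).comp τ = τ := by
  ext x
  rw [IntermediateField.mem_fixingSubgroup_iff] at hσ
  have h1 : τ x ∈ M := by
    obtain ⟨γ, rfl⟩ := resHom_surjective K τ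
    have h2 : M.map (γ : Ω →ₐ[k] Ω) = M := by
      have := IntermediateField.normal_iff_forall_map_eq'.mp ‹Normal k M› γ
      exact this
    rw [← h2]
    exact ⟨x, h x.2, rfl⟩
  exact hσ _ h1

/-- The mean value of a product of degree-one counting functions. -/
lemma degOne_mul_mean_general (K F : IntermediateField k Ω) [FiniteDimensional k K]
    [FiniteDimensional k F] :
    HasMean (𝓝[>] 1) (fun p : HeightOneSpectrum (𝓞 k) => (degOne k K p : ℝ) * degOne k F p)
      (dpair K F) := by
  haveI : FiniteDimensional k (K ⊔ F : IntermediateField k Ω) :=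
    IntermediateField.finiteDimensional_sup K F
  haveI : FiniteDimensional k (IntermediateField.normalClosure k (K ⊔ F : IntermediateField k Ω) Ω) :=
    inferInstance
  have h1 := mean_fixedPoints (X := PairHom K F)
    (IntermediateField.normalClosure k (K ⊔ F : IntermediateField k Ω) Ω) (by
      intro σ hσ x
      have hK : K ≤ IntermediateField.normalClosure k (K ⊔ F : IntermediateField k Ω) Ω :=
        le_sup_left.trans (IntermediateField.le_normalClosure _)
      have hF : F ≤ IntermediateField.normalClosure k (K ⊔ F : IntermediateField k Ω) Ω :=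
        le_sup_right.trans (IntermediateField.le_normalClosure _)
      exact Prod.ext (comp_eq_of_mem_fixingSubgroup hK hσ x.1)
        (comp_eq_of_mem_fixingSubgroup hF hσ x.2))
  refine hasMean_congr ?_ ((degOne_bdd k K).mul (degOne_bdd k F)) ?_ h1
  · refine ⟨Nat.card (PairHom K F), fun 𝔭 => ?_⟩
    rw [Nat.abs_cast]
    exact_mod_cast Nat.card_le_card_of_injective _ Subtype.val_injective
  · refine ((degOne_eq_fix (Ω := Ω) (k := k) K (splits_intermediate K)).union
      (degOne_eq_fix (Ω := Ω) (k := k) F (splits_intermediate F))).subset fun 𝔭 h𝔭 => ?_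
    by_contra hcon
    apply h𝔭
    simp only [Set.mem_union, Set.mem_ofPred_eq, not_or, not_not] at hcon
    rw [hcon.1, hcon.2, card_fix_pair]
    push_cast
    rfl

/-- the Galois correspondence for an intersection of finite extensions -/
lemma fixingSubgroup_inf (K M : IntermediateField k Ω) [FiniteDimensional k K] :
    (K ⊓ M).fixingSubgroup = K.fixingSubgroup ⊔ M.fixingSubgroup := by
  have hopen : IsOpen ((K.fixingSubgroup ⊔ M.fixingSubgroup : Subgroup Gal(Ω/k)) : Set Gal(Ω/k)) :=
    Subgroup.isOpen_mono le_sup_left K.fixingSubgroup_isOpen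
  have hclosed := Subgroup.isClosed_of_isOpen _ hopen
  have h1 : IntermediateField.fixingSubgroup (IntermediateField.fixedField
      (K.fixingSubgroup ⊔ M.fixingSubgroup)) = K.fixingSubgroup ⊔ M.fixingSubgroup :=
    InfiniteGalois.fixingSubgroup_fixedField ⟨_, hclosed⟩
  have h2 : IntermediateField.fixedField (K.fixingSubgroup ⊔ M.fixingSubgroup) = K ⊓ M := by
    apply le_antisymm
    · apply le_inf
      · have h := IntermediateField.fixedField_antitone
          (le_sup_left : K.fixingSubgroup ≤ K.fixingSubgroup ⊔ M.fixingSubgroup)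
        rwa [InfiniteGalois.fixedField_fixingSubgroup] at h
      · have h := IntermediateField.fixedField_antitone
          (le_sup_right : M.fixingSubgroup ≤ K.fixingSubgroup ⊔ M.fixingSubgroup)
        rwa [InfiniteGalois.fixedField_fixingSubgroup] at h
    · rw [IntermediateField.le_iff_le]
      exact sup_le (IntermediateField.fixingSubgroup_antitone inf_le_left)
        (IntermediateField.fixingSubgroup_antitone inf_le_right)
  rw [← h2, h1]

/-- restriction of pairs of embeddings -/
def PairHom.res (K M F : IntermediateField k Ω) (x : PairHom K F) : PairHom (K ⊓ M) F :=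
  (x.1.comp (IntermediateField.inclusion inf_le_left), x.2)

/-- Orthogonality: double cosets do not see `K` beyond `K ∩ M`. -/
lemma dpair_inf (K M F : IntermediateField k Ω) [FiniteDimensional k K] [Normal k M]
    (hF : F ≤ M) : dpair K F = dpair (K ⊓ M) F := by
  unfold dpair
  have hs : ∀ x y : PairHom K F, MulAction.orbitRel Gal(Ω/k) (PairHom K F) x y →
      MulAction.orbitRel Gal(Ω/k) (PairHom (K ⊓ M) F) (x.res K M F) (y.res K M F) := by
    rintro _ y ⟨σ, rfl⟩
    exact ⟨σ, rfl⟩
  refine Nat.card_congr (Equiv.ofBijective (Quotient.map (PairHom.res K M F) hs) ⟨?_, ?_⟩)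
  · intro a b hab
    induction a using Quotient.inductionOn with | _ x => ?_
    induction b using Quotient.inductionOn with | _ y => ?_
    have h1 := Quotient.exact hab
    obtain ⟨σ, hσ⟩ := h1
    obtain ⟨γ₁, hγ₁⟩ := resHom_surjective K x.1
    obtain ⟨γ₂, hγ₂⟩ := resHom_surjective K (σ • y).1
    have h2 : resHom (K ⊓ M) γ₂ = resHom (K ⊓ M) γ₁ := by
      have e1 : ((σ • y).res K M F).1 = (x.res K M F).1 := congrArg Prod.fst hσ
      have e2 : resHom (K ⊓ M) γ₂ = ((σ • y).res K M F).1 := by
        change _ = ((σ • y).1).comp (IntermediateField.inclusion inf_le_left)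
        rw [← hγ₂]
        rfl
      have e3 : resHom (K ⊓ M) γ₁ = (x.res K M F).1 := by
        change _ = (x.1).comp (IntermediateField.inclusion inf_le_left)
        rw [← hγ₁]
        rfl
      rw [e2, e3, e1]
    have h3 : γ₁⁻¹ * γ₂ ∈ (K ⊓ M).fixingSubgroup := (resHom_eq_iff _ _ _).mp h2.symm
    rw [fixingSubgroup_inf] at h3
    haveI : M.fixingSubgroup.Normal := (InfiniteGalois.normal_iff_isGalois M).mpr
      { to_isSeparable := inferInstance, to_normal := inferInstance }
    rw [← SetLike.mem_coe, Subgroup.mul_normal] at h3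
    obtain ⟨κ, hκ, μ, hμ, hκμ⟩ := h3
    have hκμ' : κ * μ = γ₁⁻¹ * γ₂ := hκμ
    -- the element `γ₂ μ⁻¹ γ₂⁻¹`
    have hmem : γ₂ * μ⁻¹ * γ₂⁻¹ ∈ M.fixingSubgroup :=
      Subgroup.Normal.conj_mem inferInstance _ (inv_mem hμ) _
    refine Quotient.sound ?_
    refine ⟨γ₂ * μ⁻¹ * γ₂⁻¹ * σ, ?_⟩
    change (γ₂ * μ⁻¹ * γ₂⁻¹ * σ) • y = x
    rw [mul_smul]
    have hx2 : (σ • y).2 = x.2 := by
      have h5 := congrArg (fun z : PairHom (K ⊓ M) F => z.2) hσ
      exact h5
    refine Prod.ext ?_ ?_
    · rw [PairHom.smul_fst, ← hγ₂, ← resHom_mul, ← hγ₁, resHom_eq_iff]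
      have : (γ₂ * μ⁻¹ * γ₂⁻¹ * γ₂)⁻¹ * γ₁ = κ⁻¹ := by
        have h4 : γ₂ = γ₁ * κ * μ := by
          rw [mul_assoc, hκμ', mul_inv_cancel_left]
        rw [h4]
        group
      rw [this]
      exact inv_mem hκ
    · rw [PairHom.smul_snd, comp_eq_of_mem_fixingSubgroup hF hmem, hx2]
  · intro b
    induction b using Quotient.inductionOn with | _ y => ?_
    obtain ⟨γ, hγ⟩ := resHom_surjective (K ⊓ M) y.1
    refine ⟨Quotient.mk _ (resHom K γ, y.2), ?_⟩
    change Quotient.mk _ (PairHom.res K M F (resHom K γ, y.2)) = Quotient.mk _ y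
    congr 1
    refine Prod.ext ?_ rfl
    rw [← hγ]
    rfl

lemma one_le_dpair (K F : IntermediateField k Ω) [FiniteDimensional k K] [FiniteDimensional k F] :
    1 ≤ dpair K F := by
  unfold dpair
  haveI : Finite (MulAction.orbitRel.Quotient Gal(Ω/k) (PairHom K F)) := Quotient.finite _
  haveI : Nonempty (MulAction.orbitRel.Quotient Gal(Ω/k) (PairHom K F)) :=
    ⟨Quotient.mk _ (K.val, F.val)⟩
  exact Nat.card_pos

end Pairs

end Pool.Agent.H3.TatePole
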