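import Mathlib
import Pool.Agent.H3.TatePole.Pairs

open NumberField IsDedekindDomain Filter Topology Polynomial

namespace Pool.Agent.H3.TatePole

section Stab

variable {k : Type*} [Field k] [NumberField k] {Ω : Type*} [Field Ω] [Algebra k Ω]

/-- Cauchy-Schwarz for means -/
lemma mean_cs {𝓕 : Filter ℝ} [𝓕.NeBot] (h𝓕 : 𝓕 ≤ 𝓝[>] 1)
    {c f : HeightOneSpectrum (𝓞 k) → ℝ} {B : ℝ} (hc : ∀ v, |c v| ≤ B) (hf : Bdd f) {x y : ℝ}
    (hx : HasMean 𝓕 (fun p => c p * f p) x) (hy : HasMean 𝓕 (fun p => f p ^ 2) y) :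
    x ^ 2 ≤ B ^ 2 * y := by
  have hcb : Bdd c := ⟨B, hc⟩
  have h1mean : HasMean 𝓕 (fun _ : HeightOneSpectrum (𝓞 k) => (1 : ℝ)) 1 := hasMean_one.mono h𝓕
  have hlim1 : Tendsto (fun s => (wsum (fun p => c p * f p) s / Lam s) ^ 2) 𝓕 (𝓝 (x ^ 2)) :=
    Tendsto.pow hx 2
  have hlim2 : Tendsto (fun s => B ^ 2 * (wsum (fun _ : HeightOneSpectrum (𝓞 k) => (1 : ℝ)) s / Lam s) *
      (wsum (fun p => f p ^ 2) s / Lam s)) 𝓕 (𝓝 (B ^ 2 * 1 * y)) :=
    (Tendsto.const_mul (B ^ 2) h1mean).mul hy
  have hev : ∀ᶠ s in 𝓕, (wsum (fun p => c p * f p) s / Lam s) ^ 2 ≤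
      B ^ 2 * (wsum (fun _ : HeightOneSpectrum (𝓞 k) => (1 : ℝ)) s / Lam s) *
        (wsum (fun p => f p ^ 2) s / Lam s) := by
    have e1 : ∀ᶠ s in 𝓕, (1 : ℝ) < s := h𝓕 self_mem_nhdsWithin
    have e2 : ∀ᶠ s in 𝓕, 0 < Lam s := h𝓕 (Lam_tendsto.eventually_gt_atTop 0)
    filter_upwards [e1, e2] with s hs hL
    have h1 := wsum_cs hcb hf hs
    have h2 : wsum (fun v => c v ^ 2) s ≤ B ^ 2 * wsum (fun _ : HeightOneSpectrum (𝓞 k) => (1 : ℝ)) s := by
      rw [← wsum_const_mul]
      refine wsum_mono (by simpa [sq] using hcb.mul hcb) ((Bdd.const _).mul (Bdd.const 1)) ?_ hs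
      intro v
      rw [mul_one]
      exact sq_le_sq' (by linarith [(abs_le.mp (hc v)).1]) (abs_le.mp (hc v)).2
    have h4 : 0 ≤ wsum (fun v => f v ^ 2) s :=
      tsum_nonneg fun v => mul_nonneg (sq_nonneg _) (Real.rpow_nonneg (nrm_pos v).le _)
    have h6 : (wsum (fun p => c p * f p) s) ^ 2 ≤
        (B ^ 2 * wsum (fun _ : HeightOneSpectrum (𝓞 k) => (1 : ℝ)) s) * wsum (fun v => f v ^ 2) s :=
      h1.trans (mul_le_mul_of_nonneg_right h2 h4)
    rw [div_pow, div_le_iff₀ (by positivity)]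
    have h7 : B ^ 2 * (wsum (fun _ : HeightOneSpectrum (𝓞 k) => (1 : ℝ)) s / Lam s) *
        (wsum (fun v => f v ^ 2) s / Lam s) *
        Lam s ^ 2 = (B ^ 2 * wsum (fun _ : HeightOneSpectrum (𝓞 k) => (1 : ℝ)) s) *
          wsum (fun v => f v ^ 2) s := by
      field_simp
    rw [h7]
    exact h6
  have h := le_of_tendsto_of_tendsto hlim1 hlim2 hev
  rwa [mul_one] at h

/-- the degree-one counting function of an intermediate field, extended by zero -/
noncomputable def PP (K : IntermediateField k Ω) (p : HeightOneSpectrum (𝓞 k)) : ℝ :=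
  open scoped Classical in
  if h : FiniteDimensional k K then (haveI := h; (degOne k K p : ℝ)) else 0

lemma PP_eq (K : IntermediateField k Ω) [FiniteDimensional k K] :
    PP K = fun p : HeightOneSpectrum (𝓞 k) => (degOne k K p : ℝ) := by
  funext p
  unfold PP
  rw [dif_pos ‹_›]

lemma PP_bdd (K : IntermediateField k Ω) : Bdd (PP K) := by
  by_cases h : FiniteDimensional k K
  · rw [PP_eq]
    exact degOne_bdd k K
  · refine ⟨0, fun p => ?_⟩
    unfold PP
    rw [dif_neg h, abs_zero]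

lemma PP_nonneg (K : IntermediateField k Ω) (p : HeightOneSpectrum (𝓞 k)) : 0 ≤ PP K p := by
  unfold PP
  split_ifs
  · positivity
  · exact le_rfl

variable [IsGalois k Ω]

lemma PP_mul_mean (K F : IntermediateField k Ω) [FiniteDimensional k K] [FiniteDimensional k F] :
    HasMean (𝓝[>] 1) (fun p => PP K p * PP F p) (dpair K F) := by
  rw [PP_eq, PP_eq]
  exact degOne_mul_mean_general K F

lemma dpair_self_le (K : IntermediateField k Ω) [FiniteDimensional k K] (N : ℕ)
    (hK : Module.finrank k K ≤ N) : (dpair K K : ℝ) ≤ N := by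
  have h1 := PP_mul_mean K K
  have h2 : HasMean (𝓝[>] 1) (fun p => (N : ℝ) * PP K p) (N * 1) := by
    refine HasMean.const_mul _ ?_
    rw [PP_eq]
    exact degOne_mean k K
  rw [mul_one] at h2
  refine le_of_tendsto_of_tendsto h1 h2 ?_
  filter_upwards [self_mem_nhdsWithin, Lam_tendsto.eventually_gt_atTop 0] with s hs hL
  have hs' : (1 : ℝ) < s := hs
  refine div_le_div_of_nonneg_right ?_ hL.le
  refine wsum_mono ((PP_bdd K).mul (PP_bdd K)) ((Bdd.const _).mul (PP_bdd K)) (fun p => ?_) hs'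
  refine mul_le_mul_of_nonneg_right ?_ (PP_nonneg K p)
  rw [PP_eq]
  change (degOne k K p : ℝ) ≤ N
  exact_mod_cast (degOne_le p).trans hK

/-- functions spanned by degree-one counting functions of subfields of `M` -/
def Below (M : IntermediateField k Ω) : Submodule ℝ (HeightOneSpectrum (𝓞 k) → ℝ) :=
  Submodule.span ℝ (PP '' {F : IntermediateField k Ω | F ≤ M})

lemma Below_mono {M M' : IntermediateField k Ω} (h : M ≤ M') : Below M ≤ Below M' :=
  Submodule.span_mono (Set.image_mono fun _ hF => le_trans hF h)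

lemma Below_bdd {M : IntermediateField k Ω} {f : HeightOneSpectrum (𝓞 k) → ℝ} (hf : f ∈ Below M) :
    Bdd f := by
  induction hf using Submodule.span_induction with
  | mem x hx =>
    obtain ⟨F, _, rfl⟩ := hx
    exact PP_bdd F
  | zero => exact Bdd.const 0
  | add x y _ _ hx hy => exact hx.add hy
  | smul a x _ hx => exact (Bdd.const a).mul hx

/-- difference function attached to a field `K` relative to `M` -/
noncomputable def gdiff (K M : IntermediateField k Ω) (p : HeightOneSpectrum (𝓞 k)) : ℝ :=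
  PP K p + (-1) * PP (K ⊓ M) p

lemma gdiff_bdd (K M : IntermediateField k Ω) : Bdd (gdiff K M) :=
  (PP_bdd K).add ((Bdd.const (-1)).mul (PP_bdd (K ⊓ M)))

instance finiteDimensional_inf (K M : IntermediateField k Ω) [FiniteDimensional k K] :
    FiniteDimensional k (K ⊓ M : IntermediateField k Ω) :=
  Module.Finite.of_injective (IntermediateField.inclusion (inf_le_left : K ⊓ M ≤ K)).toLinearMap
    (IntermediateField.inclusion_injective (inf_le_left : K ⊓ M ≤ K))

lemma finiteDimensional_of_le' {F M : IntermediateField k Ω} [FiniteDimensional k M] (h : F ≤ M) :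
    FiniteDimensional k F :=
  Module.Finite.of_injective (IntermediateField.inclusion h).toLinearMap
    (IntermediateField.inclusion_injective h)

lemma gdiff_orth (K M : IntermediateField k Ω) [FiniteDimensional k K] [FiniteDimensional k M]
    [Normal k M] {f : HeightOneSpectrum (𝓞 k) → ℝ} (hf : f ∈ Below M) :
    HasMean (𝓝[>] 1) (fun p => f p * gdiff K M p) 0 := by
  have hf' := hf
  induction hf using Submodule.span_induction with
  | mem x hx =>
    obtain ⟨F, hF, rfl⟩ := hx
    haveI : FiniteDimensional k F := finiteDimensional_of_le' hF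
    have h1 := PP_mul_mean F K
    have h2 := PP_mul_mean F (K ⊓ M)
    have e : ∀ A : IntermediateField k Ω, dpair F A = dpair A F := by
      intro A
      unfold dpair
      refine Nat.card_congr (Quotient.congr
        { toFun := fun x : PairHom F A => ((x.2, x.1) : PairHom A F)
          invFun := fun x : PairHom A F => ((x.2, x.1) : PairHom F A)
          left_inv := fun x => rfl
          right_inv := fun x => rfl } ?_)
      intro a b
      constructor
      · rintro ⟨σ, rfl⟩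
        exact ⟨σ, rfl⟩
      · rintro ⟨σ, hσ⟩
        refine ⟨σ, ?_⟩
        have h3 := congrArg (fun z : PairHom A F => ((z.2, z.1) : PairHom F A)) hσ
        exact h3
    have hd : dpair F K = dpair F (K ⊓ M) := by
      rw [e, e, dpair_inf K M F hF]
    rw [← hd] at h2
    have h3 := h1.add le_rfl ((PP_bdd F).mul (PP_bdd K))
      ((Bdd.const (-1)).mul ((PP_bdd F).mul (PP_bdd (K ⊓ M)))) (h2.const_mul (-1))
    have h4 : ((dpair F K : ℝ) + -1 * (dpair F K : ℝ)) = 0 := by ring
    rw [h4] at h3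
    convert h3 using 2
    unfold gdiff
    ring
  | zero =>
    have : (fun p => (0 : HeightOneSpectrum (𝓞 k) → ℝ) p * gdiff K M p) =
        fun p : HeightOneSpectrum (𝓞 k) => (0 : ℝ) * 1 := by
      funext p; simp
    rw [this]
    simpa using (hasMean_one (k := k)).const_mul 0
  | add x y hx hy hx' hy' =>
    have h1 := (hx' hx).add le_rfl ((Below_bdd hx).mul (gdiff_bdd K M))
      ((Below_bdd hy).mul (gdiff_bdd K M)) (hy' hy)
    rw [add_zero] at h1
    convert h1 using 2
    simp only [Pi.add_apply]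
    ring
  | smul a x hx hx' =>
    have h1 := (hx' hx).const_mul a
    rw [mul_zero] at h1
    convert h1 using 2
    simp only [Pi.smul_apply, smul_eq_mul]
    ring

/-- norm of the difference function -/
lemma gdiff_sq (K M : IntermediateField k Ω) [FiniteDimensional k K] [FiniteDimensional k M]
    [Normal k M] (N : ℕ) (hK : Module.finrank k K ≤ N) :
    ∃ D : ℝ, D ≤ N - 1 ∧ HasMean (𝓝[>] 1) (fun p => gdiff K M p ^ 2) D := by
  have h1 := PP_mul_mean K K
  have hmem : PP (K ⊓ M) ∈ Below M := Submodule.subset_span ⟨K ⊓ M, by simp, rfl⟩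
  have h2 := gdiff_orth K M hmem
  have h3 := PP_mul_mean (K ⊓ M) (K ⊓ M)
  refine ⟨(dpair K K : ℝ) + -1 * (dpair (K ⊓ M) (K ⊓ M) : ℝ), ?_, ?_⟩
  · have h4 : (1 : ℝ) ≤ (dpair (K ⊓ M) (K ⊓ M) : ℝ) := by exact_mod_cast one_le_dpair _ _
    have h5 := dpair_self_le K N hK
    linarith
  · have h4 := (h1.add le_rfl ((PP_bdd K).mul (PP_bdd K))
      ((Bdd.const (-1)).mul ((PP_bdd (K ⊓ M)).mul (PP_bdd (K ⊓ M)))) (h3.const_mul (-1))).add le_rfl
      (((PP_bdd K).mul (PP_bdd K)).add
        ((Bdd.const (-1)).mul ((PP_bdd (K ⊓ M)).mul (PP_bdd (K ⊓ M)))))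
      ((Bdd.const (-2)).mul ((PP_bdd (K ⊓ M)).mul (gdiff_bdd K M))) (h2.const_mul (-2))
    rw [mul_zero, add_zero] at h4
    convert h4 using 2
    unfold gdiff
    ring

/-- iterated compositum of Galois closures -/
noncomputable def MM (L : IntermediateField k Ω) :
    List (IntermediateField k Ω) → IntermediateField k Ω
  | [] => L
  | K :: l => MM L l ⊔ IntermediateField.normalClosure k K Ω

/-- chains of successive violations -/
def IsViolChain (𝓕 : Filter ℝ) (c : HeightOneSpectrum (𝓞 k) → ℝ) (N : ℕ)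
    (L : IntermediateField k Ω) : List (IntermediateField k Ω) → Prop
  | [] => True
  | K :: l => IsViolChain 𝓕 c N L l ∧ FiniteDimensional k K ∧ Module.finrank k K ≤ N ∧
      ∃ a : ℤ, a ≠ 0 ∧ HasMean 𝓕 (fun p => c p * gdiff K (MM L l) p) a

lemma MM_finite_normal (L : IntermediateField k Ω) [FiniteDimensional k L] [Normal k L]
    (l : List (IntermediateField k Ω)) (hl : ∀ K ∈ l, FiniteDimensional k K) :
    FiniteDimensional k (MM L l) ∧ Normal k (MM L l) := by
  induction l with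
  | nil => exact ⟨‹_›, ‹_›⟩
  | cons K l ih =>
    obtain ⟨h1, h2⟩ := ih fun F hF => hl F (List.mem_cons_of_mem _ hF)
    haveI := h1
    haveI := h2
    haveI : FiniteDimensional k K := hl K List.mem_cons_self
    exact ⟨IntermediateField.finiteDimensional_sup _ _, IntermediateField.normal_sup _ _ _ _⟩

lemma IsViolChain.finite {𝓕 : Filter ℝ} {c : HeightOneSpectrum (𝓞 k) → ℝ} {N : ℕ}
    {L : IntermediateField k Ω} {l : List (IntermediateField k Ω)}
    (h : IsViolChain 𝓕 c N L l) : ∀ K ∈ l, FiniteDimensional k K ∧ Module.finrank k K ≤ N := by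
  induction l with
  | nil => intro K hK; simp at hK
  | cons F l ih =>
    intro K hK
    rcases List.mem_cons.mp hK with h1 | h1
    · rw [h1]; exact ⟨h.2.1, h.2.2.1⟩
    · exact ih h.1 K h1

lemma violChain_aux {𝓕 : Filter ℝ} (h𝓕 : 𝓕 ≤ 𝓝[>] 1)
    {c : HeightOneSpectrum (𝓞 k) → ℝ} (hcb : Bdd c) {N : ℕ}
    {L : IntermediateField k Ω} [FiniteDimensional k L] [Normal k L]
    {l : List (IntermediateField k Ω)} (h : IsViolChain 𝓕 c N L l) :
    ∃ f ∈ Below (MM L l), ∃ A D : ℝ, HasMean 𝓕 (fun p => c p * f p) A ∧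
      HasMean 𝓕 (fun p => f p ^ 2) D ∧ D ≤ (N - 1) * A ∧ (l.length : ℝ) ≤ A := by
  induction l with
  | nil =>
    refine ⟨0, Submodule.zero_mem _, 0, 0, ?_, ?_, by simp, by simp⟩
    · have : (fun p => c p * (0 : HeightOneSpectrum (𝓞 k) → ℝ) p) =
        fun p : HeightOneSpectrum (𝓞 k) => (0 : ℝ) * 1 := by
        funext p; simp
      rw [this]
      simpa using ((hasMean_one (k := k)).mono h𝓕).const_mul 0
    · have : (fun p => (0 : HeightOneSpectrum (𝓞 k) → ℝ) p ^ 2) =
        fun p : HeightOneSpectrum (𝓞 k) => (0 : ℝ) * 1 := by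
        funext p; simp
      rw [this]
      simpa using ((hasMean_one (k := k)).mono h𝓕).const_mul 0
  | cons K l ih =>
    obtain ⟨hl, hKfd, hKN, a, ha0, ha⟩ := h
    obtain ⟨f, hf, A, D, hA, hD, hDA, hlen⟩ := ih hl
    haveI := hKfd
    obtain ⟨hMfd, hMn⟩ := MM_finite_normal L l fun F hF => (hl.finite F hF).1
    haveI := hMfd
    haveI := hMn
    obtain ⟨G, hG, hGm⟩ := gdiff_sq K (MM L l) N hKN
    have horth := gdiff_orth K (MM L l) hf
    have hmono : Below (MM L l) ≤ Below (MM L (K :: l)) := Below_mono le_sup_left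
    have hg : gdiff K (MM L l) ∈ Below (MM L (K :: l)) := by
      have h1 : PP K ∈ Below (MM L (K :: l)) := by
        refine Submodule.subset_span ⟨K, ?_, rfl⟩
        have : K ≤ MM L (K :: l) := (IntermediateField.le_normalClosure K).trans le_sup_right
        simpa using this
      have h2 : PP (K ⊓ MM L l) ∈ Below (MM L (K :: l)) := by
        refine Submodule.subset_span ⟨K ⊓ MM L l, ?_, rfl⟩
        have : K ⊓ MM L l ≤ MM L (K :: l) := inf_le_right.trans le_sup_left
        simpa using this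
      exact Submodule.add_mem _ h1 (Submodule.smul_mem _ (-1 : ℝ) h2)
    have hfb := Below_bdd hf
    have hgb := gdiff_bdd K (MM L l)
    refine ⟨f + (a : ℝ) • gdiff K (MM L l), Submodule.add_mem _ (hmono hf)
      (Submodule.smul_mem _ _ hg), A + a * a, D + a ^ 2 * G, ?_, ?_, ?_, ?_⟩
    · have h1 := hA.add h𝓕 (hcb.mul hfb) ((Bdd.const (a : ℝ)).mul (hcb.mul hgb)) (ha.const_mul (a : ℝ))
      convert h1 using 2
      simp only [Pi.add_apply, Pi.smul_apply, smul_eq_mul]
      ring
    · have h1 := (hD.add h𝓕 (by simpa [sq] using hfb.mul hfb)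
        ((Bdd.const ((a : ℝ) ^ 2)).mul (by simpa [sq] using hgb.mul hgb))
        ((hGm.mono h𝓕).const_mul ((a : ℝ) ^ 2))).add h𝓕
        ((by simpa [sq] using hfb.mul hfb : Bdd (fun p => f p ^ 2)).add
          ((Bdd.const ((a : ℝ) ^ 2)).mul
            (by simpa [sq] using hgb.mul hgb : Bdd (fun p => gdiff K (MM L l) p ^ 2))))
        ((Bdd.const (2 * (a : ℝ))).mul (hfb.mul hgb)) ((horth.mono h𝓕).const_mul (2 * (a : ℝ)))
      rw [mul_zero, add_zero] at h1
      convert h1 using 2
      simp only [Pi.add_apply, Pi.smul_apply, smul_eq_mul]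
      ring
    · have h1 : (a : ℝ) ^ 2 * G ≤ (a : ℝ) ^ 2 * (N - 1) :=
        mul_le_mul_of_nonneg_left hG (sq_nonneg _)
      nlinarith
    · have h1 : (1 : ℝ) ≤ (a : ℝ) * a := by
        have : (1 : ℤ) ≤ a * a := by
          have := Int.one_le_abs ha0
          have h3 : a * a = |a| * |a| := (abs_mul_abs_self a).symm
          rw [h3]
          nlinarith
        exact_mod_cast this
      rw [List.length_cons]
      push_cast
      linarith

/-- chains of violations are short -/
lemma violChain_length {𝓕 : Filter ℝ} [𝓕.NeBot] (h𝓕 : 𝓕 ≤ 𝓝[>] 1)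
    {c : HeightOneSpectrum (𝓞 k) → ℝ} {B : ℕ} (hc : ∀ v, |c v| ≤ B) {N : ℕ}
    {L : IntermediateField k Ω} [FiniteDimensional k L] [Normal k L]
    {l : List (IntermediateField k Ω)} (h : IsViolChain 𝓕 c N L l) :
    l.length ≤ (N - 1) * B ^ 2 := by
  rcases l with _ | ⟨K, l⟩
  · simp
  obtain ⟨f, hf, A, D, hA, hD, hDA, hlen⟩ := violChain_aux h𝓕 ⟨B, hc⟩ h
  have h1 := mean_cs h𝓕 hc (Below_bdd hf) hA hD
  have hA1 : (1 : ℝ) ≤ A := by
    refine le_trans ?_ hlen
    rw [List.length_cons]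
    push_cast
    have : (0 : ℝ) ≤ (l.length : ℝ) := Nat.cast_nonneg _
    linarith
  have hN : 1 ≤ N := by
    haveI := h.2.1
    exact (Module.finrank_pos (R := k) (M := K)).trans_le h.2.2.1
  have h2 : A * A ≤ ((N - 1) * (B : ℝ) ^ 2) * A := by
    have : (0 : ℝ) ≤ (B : ℝ) ^ 2 := by positivity
    nlinarith
  have h3 : A ≤ (N - 1) * (B : ℝ) ^ 2 := le_of_mul_le_mul_right h2 (by linarith)
  have h4 := hlen.trans h3
  have h5 : (((N - 1) * B ^ 2 : ℕ) : ℝ) = ((N : ℝ) - 1) * (B : ℝ) ^ 2 := by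
    push_cast [Nat.cast_sub hN]
    ring
  rw [← h5] at h4
  exact_mod_cast h4

/-- existence of a maximal chain -/
lemma exists_maximal_chain {𝓕 : Filter ℝ} [𝓕.NeBot] (h𝓕 : 𝓕 ≤ 𝓝[>] 1)
    {c : HeightOneSpectrum (𝓞 k) → ℝ} {B : ℕ} (hc : ∀ v, |c v| ≤ B) (N : ℕ)
    (L : IntermediateField k Ω) [FiniteDimensional k L] [Normal k L] :
    ∃ l : List (IntermediateField k Ω), l.length ≤ (N - 1) * B ^ 2 ∧
      (∀ K ∈ l, FiniteDimensional k K ∧ Module.finrank k K ≤ N) ∧
      ∀ (K : IntermediateField k Ω) [FiniteDimensional k K], Module.finrank k K ≤ N →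
        ∀ a : ℤ, HasMean 𝓕 (fun p => c p * gdiff K (MM L l) p) a → a = 0 := by
  classical
  by_contra hcon
  push Not at hcon
  have hex : ∀ m : ℕ, ∃ l : List (IntermediateField k Ω), l.length = m ∧ IsViolChain 𝓕 c N L l := by
    intro m
    induction m with
    | zero => exact ⟨[], rfl, trivial⟩
    | succ m ih =>
      obtain ⟨l, hl, hch⟩ := ih
      obtain ⟨K, hK, hKN, a, ha, ha0⟩ := hcon l (violChain_length h𝓕 hc hch) hch.finite
      exact ⟨K :: l, by simp [hl], hch, hK, hKN, a, ha0, ha⟩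
  obtain ⟨l, hl, hch⟩ := hex ((N - 1) * B ^ 2 + 1)
  have := violChain_length h𝓕 hc hch
  omega

lemma MM_eq (L : IntermediateField k Ω) (l : List (IntermediateField k Ω)) :
    MM L l = L ⊔ ⨆ F ∈ l, IntermediateField.normalClosure k F Ω := by
  induction l with
  | nil => simp [MM]
  | cons K l ih =>
    unfold MM
    rw [ih]
    simp only [List.mem_cons, iSup_or, iSup_sup_eq, iSup_iSup_eq_left]
    rw [sup_assoc, sup_comm (⨆ F ∈ l, IntermediateField.normalClosure k F Ω)]

end Stab

end Pool.Agent.H3.TatePole
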