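import Mathlib
import Pool.Agent.H3.TatePole.Stab
import Pool.Agent.H3.Cheb.Mu

open NumberField IsDedekindDomain Filter Topology Polynomial

namespace Pool.Agent.H3.TatePole

section Chain

variable {k : Type*} [Field k] [NumberField k] {Ω : Type*} [Field Ω] [Algebra k Ω] [IsGalois k Ω]

/-- norm of the difference function in terms of the number of orbits on pairs of embeddings -/
lemma gdiff_sq' (K M : IntermediateField k Ω) [FiniteDimensional k K] [FiniteDimensional k M]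
    [Normal k M] (N : ℕ) (hK : dpair K K ≤ N) :
    ∃ D : ℝ, D ≤ N - 1 ∧ HasMean (𝓝[>] 1) (fun p => gdiff K M p ^ 2) D := by
  have h1 := PP_mul_mean K K
  have hmem : PP (K ⊓ M) ∈ Below M := Submodule.subset_span ⟨K ⊓ M, by simp, rfl⟩
  have h2 := gdiff_orth K M hmem
  have h3 := PP_mul_mean (K ⊓ M) (K ⊓ M)
  refine ⟨(dpair K K : ℝ) + -1 * (dpair (K ⊓ M) (K ⊓ M) : ℝ), ?_, ?_⟩
  · have h4 : (1 : ℝ) ≤ (dpair (K ⊓ M) (K ⊓ M) : ℝ) := by exact_mod_cast one_le_dpair _ _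
    have h5 : (dpair K K : ℝ) ≤ N := by exact_mod_cast hK
    linarith
  · have h4 := (h1.add le_rfl ((PP_bdd K).mul (PP_bdd K))
      ((Bdd.const (-1)).mul ((PP_bdd (K ⊓ M)).mul (PP_bdd (K ⊓ M)))) (h3.const_mul (-1))).add le_rfl
      (((PP_bdd K).mul (PP_bdd K)).add
        ((Bdd.const (-1)).mul ((PP_bdd (K ⊓ M)).mul (PP_bdd (K ⊓ M)))))
      ((Bdd.const (-2)).mul ((PP_bdd (K ⊓ M)).mul (gdiff_bdd K M))) (h2.const_mul (-2))
    rw [mul_zero, add_zero] at h4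
    convert h4 using 2
    unfold gdiff
    ring

/-- chains of successive violations of size at least `η` by members of `𝒦` -/
def IsEtaChain (𝓕 : Filter ℝ) (c : HeightOneSpectrum (𝓞 k) → ℝ) (𝒦 : Set (IntermediateField k Ω))
    (L : IntermediateField k Ω) (η : ℝ) : List (IntermediateField k Ω) → Prop
  | [] => True
  | K :: l => IsEtaChain 𝓕 c 𝒦 L η l ∧ K ∈ 𝒦 ∧
      ∃ a : ℝ, η ≤ |a| ∧ HasMean 𝓕 (fun p => c p * gdiff K (MM L l) p) a

lemma IsEtaChain.subset {𝓕 : Filter ℝ} {c : HeightOneSpectrum (𝓞 k) → ℝ}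
    {𝒦 : Set (IntermediateField k Ω)} {L : IntermediateField k Ω} {η : ℝ}
    {l : List (IntermediateField k Ω)} (h : IsEtaChain 𝓕 c 𝒦 L η l) : ∀ K ∈ l, K ∈ 𝒦 := by
  induction l with
  | nil => intro K hK; simp at hK
  | cons F l ih =>
    intro K hK
    rcases List.mem_cons.mp hK with h1 | h1
    · rw [h1]; exact h.2.1
    · exact ih h.1 K h1

variable {𝒦 : Set (IntermediateField k Ω)} {N : ℕ}

lemma etaChain_aux {𝓕 : Filter ℝ} (h𝓕 : 𝓕 ≤ 𝓝[>] 1)
    {c : HeightOneSpectrum (𝓞 k) → ℝ} (hcb : Bdd c)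
    (hfd : ∀ K ∈ 𝒦, FiniteDimensional k K) (hdp : ∀ K ∈ 𝒦, dpair K K ≤ N)
    {L : IntermediateField k Ω} [FiniteDimensional k L] [Normal k L] {η : ℝ} (hη : 0 ≤ η)
    {l : List (IntermediateField k Ω)} (h : IsEtaChain 𝓕 c 𝒦 L η l) :
    ∃ f ∈ Below (MM L l), ∃ A D : ℝ, HasMean 𝓕 (fun p => c p * f p) A ∧
      HasMean 𝓕 (fun p => f p ^ 2) D ∧ D ≤ (N - 1) * A ∧ (l.length : ℝ) * η ^ 2 ≤ A := by
  induction l with
  | nil =>
    refine ⟨0, Submodule.zero_mem _, 0, 0, ?_, ?_, by simp, by simp⟩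
    · have : (fun p => c p * (0 : HeightOneSpectrum (𝓞 k) → ℝ) p) =
        fun p : HeightOneSpectrum (𝓞 k) => (0 : ℝ) * 1 := by
        funext p; simp
      rw [this]
      simpa using ((hasMean_one (k := k)).mono h𝓕).const_mul 0
    · have : (fun p => (0 : HeightOneSpectrum (𝓞 k) → ℝ) p ^ 2) =
        fun p : HeightOneSpectrum (𝓞 k) => (0 : ℝ) * 1 := by
        funext p; simp
      rw [this]
      simpa using ((hasMean_one (k := k)).mono h𝓕).const_mul 0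
  | cons K l ih =>
    obtain ⟨hl, hK𝒦, a, haη, ha⟩ := h
    obtain ⟨f, hf, A, D, hA, hD, hDA, hlen⟩ := ih hl
    haveI := hfd K hK𝒦
    obtain ⟨hMfd, hMn⟩ := MM_finite_normal L l fun F hF => hfd F (hl.subset F hF)
    haveI := hMfd
    haveI := hMn
    obtain ⟨G, hG, hGm⟩ := gdiff_sq' K (MM L l) N (hdp K hK𝒦)
    have horth := gdiff_orth K (MM L l) hf
    have hmono : Below (MM L l) ≤ Below (MM L (K :: l)) := Below_mono le_sup_left
    have hg : gdiff K (MM L l) ∈ Below (MM L (K :: l)) := by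
      have h1 : PP K ∈ Below (MM L (K :: l)) := by
        refine Submodule.subset_span ⟨K, ?_, rfl⟩
        have : K ≤ MM L (K :: l) := (IntermediateField.le_normalClosure K).trans le_sup_right
        simpa using this
      have h2 : PP (K ⊓ MM L l) ∈ Below (MM L (K :: l)) := by
        refine Submodule.subset_span ⟨K ⊓ MM L l, ?_, rfl⟩
        have : K ⊓ MM L l ≤ MM L (K :: l) := inf_le_right.trans le_sup_left
        simpa using this
      exact Submodule.add_mem _ h1 (Submodule.smul_mem _ (-1 : ℝ) h2)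
    have hfb := Below_bdd hf
    have hgb := gdiff_bdd K (MM L l)
    refine ⟨f + a • gdiff K (MM L l), Submodule.add_mem _ (hmono hf)
      (Submodule.smul_mem _ _ hg), A + a * a, D + a ^ 2 * G, ?_, ?_, ?_, ?_⟩
    · have h1 := hA.add h𝓕 (hcb.mul hfb) ((Bdd.const a).mul (hcb.mul hgb)) (ha.const_mul a)
      convert h1 using 2
      simp only [Pi.add_apply, Pi.smul_apply, smul_eq_mul]
      ring
    · have h1 := (hD.add h𝓕 (by simpa [sq] using hfb.mul hfb)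
        ((Bdd.const (a ^ 2)).mul (by simpa [sq] using hgb.mul hgb))
        ((hGm.mono h𝓕).const_mul (a ^ 2))).add h𝓕
        ((by simpa [sq] using hfb.mul hfb : Bdd (fun p => f p ^ 2)).add
          ((Bdd.const (a ^ 2)).mul
            (by simpa [sq] using hgb.mul hgb : Bdd (fun p => gdiff K (MM L l) p ^ 2))))
        ((Bdd.const (2 * a)).mul (hfb.mul hgb)) ((horth.mono h𝓕).const_mul (2 * a))
      rw [mul_zero, add_zero] at h1
      convert h1 using 2
      simp only [Pi.add_apply, Pi.smul_apply, smul_eq_mul]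
      ring
    · have h1 : a ^ 2 * G ≤ a ^ 2 * (N - 1) :=
        mul_le_mul_of_nonneg_left hG (sq_nonneg _)
      nlinarith
    · have h1 : η ^ 2 ≤ a * a := by
        have h2 : η ^ 2 ≤ |a| ^ 2 := pow_le_pow_left₀ hη haη 2
        rw [sq_abs] at h2
        nlinarith
      rw [List.length_cons]
      push_cast
      linarith

/-- chains of violations are short -/
lemma etaChain_length {𝓕 : Filter ℝ} [𝓕.NeBot] (h𝓕 : 𝓕 ≤ 𝓝[>] 1)
    {c : HeightOneSpectrum (𝓞 k) → ℝ} {B : ℝ} (hc : ∀ v, |c v| ≤ B)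
    (hfd : ∀ K ∈ 𝒦, FiniteDimensional k K) (hdp : ∀ K ∈ 𝒦, dpair K K ≤ N)
    {L : IntermediateField k Ω} [FiniteDimensional k L] [Normal k L] {η : ℝ} (hη : 0 < η)
    {l : List (IntermediateField k Ω)} (h : IsEtaChain 𝓕 c 𝒦 L η l) :
    (l.length : ℝ) * η ^ 2 ≤ ((N - 1 : ℕ) : ℝ) * B ^ 2 := by
  rcases l with _ | ⟨K, l⟩
  · simp only [List.length_nil, Nat.cast_zero, zero_mul]
    positivity
  obtain ⟨f, hf, A, D, hA, hD, hDA, hlen⟩ := etaChain_aux h𝓕 ⟨B, hc⟩ hfd hdp hη.le h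
  have h1 := mean_cs h𝓕 hc (Below_bdd hf) hA hD
  have hA1 : 0 < A := by
    refine lt_of_lt_of_le ?_ hlen
    rw [List.length_cons]
    push_cast
    positivity
  have hN : 1 ≤ N := by
    haveI := hfd K h.2.1
    exact (one_le_dpair K K).trans (hdp K h.2.1)
  have h2 : A * A ≤ ((N - 1) * B ^ 2) * A := by
    have : (0 : ℝ) ≤ B ^ 2 := by positivity
    nlinarith
  have h3 : A ≤ (N - 1) * B ^ 2 := le_of_mul_le_mul_right h2 hA1
  have h4 := hlen.trans h3
  rw [Nat.cast_sub hN]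
  push_cast
  exact h4

/-- existence of a maximal chain -/
lemma exists_maximal_etaChain {𝓕 : Filter ℝ} [𝓕.NeBot] (h𝓕 : 𝓕 ≤ 𝓝[>] 1)
    {c : HeightOneSpectrum (𝓞 k) → ℝ} {B : ℝ} (hc : ∀ v, |c v| ≤ B)
    (hfd : ∀ K ∈ 𝒦, FiniteDimensional k K) (hdp : ∀ K ∈ 𝒦, dpair K K ≤ N)
    (L : IntermediateField k Ω) [FiniteDimensional k L] [Normal k L] {η : ℝ} (hη : 0 < η) :
    ∃ l : List (IntermediateField k Ω), (l.length : ℝ) * η ^ 2 ≤ ((N - 1 : ℕ) : ℝ) * B ^ 2 ∧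
      (∀ K ∈ l, K ∈ 𝒦) ∧
      ∀ K ∈ 𝒦, ∀ a : ℝ, HasMean 𝓕 (fun p => c p * gdiff K (MM L l) p) a → |a| < η := by
  classical
  by_contra hcon
  push Not at hcon
  have hex : ∀ m : ℕ, ∃ l : List (IntermediateField k Ω), l.length = m ∧
      IsEtaChain 𝓕 c 𝒦 L η l := by
    intro m
    induction m with
    | zero => exact ⟨[], rfl, trivial⟩
    | succ m ih =>
      obtain ⟨l, hl, hch⟩ := ih
      obtain ⟨K, hK, a, ha, ha0⟩ := hcon l (etaChain_length h𝓕 hc hfd hdp hη hch) hch.subset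
      exact ⟨K :: l, by simp [hl], hch, hK, a, ha0, ha⟩
  obtain ⟨m, hm⟩ := exists_nat_gt (((N - 1 : ℕ) : ℝ) * B ^ 2 / η ^ 2)
  obtain ⟨l, hl, hch⟩ := hex m
  have h1 := etaChain_length h𝓕 hc hfd hdp hη hch
  rw [hl, ← le_div_iff₀ (by positivity)] at h1
  linarith

/-- **Continuity of means.** -/
theorem continuity_of_means {c : HeightOneSpectrum (𝓞 k) → ℝ} {B : ℕ} (hc : ∀ v, |c v| ≤ B)
    (hfd : ∀ K ∈ 𝒦, FiniteDimensional k K) (hdp : ∀ K ∈ 𝒦, dpair K K ≤ N)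
    (e : IntermediateField k Ω → ℤ)
    (he : ∀ K ∈ 𝒦, HasMean (𝓝[>] 1) (fun p => c p * PP K p) (e K))
    (L : IntermediateField k Ω) [FiniteDimensional k L] [Normal k L] :
    ∃ (T : Finset (IntermediateField k Ω)) (D : IntermediateField k Ω → ℤ), (∀ F ∈ T, F ∈ 𝒦) ∧
      T.card ≤ 4 * (N - 1) * B ^ 2 ∧
      ∀ (K : IntermediateField k Ω) [FiniteDimensional k K], IsLimitOf 𝒦 K →
        HasMean (𝓝[>] 1) (fun p => c p * PP K p)
          (D (K ⊓ (L ⊔ ⨆ F ∈ T, IntermediateField.normalClosure k F Ω))) := by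
  classical
  have hcb : Bdd c := ⟨_, hc⟩
  have key : ∀ (𝒰 : Ultrafilter ℝ), (𝒰 : Filter ℝ) ≤ 𝓝[>] 1 → ∀ (L' : IntermediateField k Ω)
      [FiniteDimensional k L'] [Normal k L'] (η : ℝ), 0 < η →
      ∃ l : List (IntermediateField k Ω), (l.length : ℝ) * η ^ 2 ≤ ((N - 1 : ℕ) : ℝ) * (B : ℝ) ^ 2 ∧
        (∀ K ∈ l, K ∈ 𝒦) ∧
        ∀ K ∈ 𝒦, |(e K : ℝ) - Cheb.mu 𝒰 (fun p => c p * PP (K ⊓ MM L' l) p)| < η := by
    intro 𝒰 h𝒰 L' _ _ η hη
    obtain ⟨l, hlen, hl, hmain⟩ := exists_maximal_etaChain (k := k) (Ω := Ω)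
      (𝓕 := (𝒰 : Filter ℝ)) h𝒰 hc hfd hdp L' hη
    refine ⟨l, hlen, hl, fun K hK => ?_⟩
    have h1 := (he K hK).mono h𝒰
    have h2 := Cheb.mu_spec h𝒰 (hcb.mul (PP_bdd (K ⊓ MM L' l)))
    have h3 := h1.add h𝒰 (hcb.mul (PP_bdd K))
      ((Bdd.const (-1)).mul (hcb.mul (PP_bdd (K ⊓ MM L' l)))) (h2.const_mul (-1))
    refine hmain K hK _ ?_
    have e1 : (e K : ℝ) - Cheb.mu 𝒰 (fun p => c p * PP (K ⊓ MM L' l) p) =
      (e K : ℝ) + -1 * Cheb.mu 𝒰 (fun p => c p * PP (K ⊓ MM L' l) p) := by ring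
    rw [e1]
    convert h3 using 2
    unfold gdiff
    ring
  obtain ⟨𝒰₀, h𝒰₀⟩ := Filter.exists_ultrafilter_le (𝓝[>] (1 : ℝ))
  obtain ⟨l, hlen, hl, hmain⟩ := key 𝒰₀ h𝒰₀ L (1 / 2) (by norm_num)
  have hlen' : l.length ≤ 4 * (N - 1) * B ^ 2 := by
    have : (l.length : ℝ) ≤ ((4 * (N - 1) * B ^ 2 : ℕ) : ℝ) := by
      push_cast
      linarith
    exact_mod_cast this
  obtain ⟨hMfd, hMn⟩ := MM_finite_normal L l fun F hF => hfd F (hl F hF)
  haveI := hMfd
  haveI := hMn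
  -- the value only depends on the intersection with `MM L l`
  have hloc : ∀ K ∈ 𝒦, ∀ K' ∈ 𝒦, K ⊓ MM L l = K' ⊓ MM L l → e K = e K' := by
    intro K hK K' hK' hinf
    have h1 := hmain K hK
    have h2 := hmain K' hK'
    rw [← hinf] at h2
    have h3 : |((e K - e K' : ℤ) : ℝ)| < 1 := by
      push_cast
      rw [abs_lt] at h1 h2 ⊢
      constructor <;> linarith
    have h4 : |e K - e K'| < 1 := by exact_mod_cast h3
    have h5 := Int.abs_lt_one_iff.mp h4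
    omega
  let D : IntermediateField k Ω → ℤ := fun F =>
    if h : ∃ K ∈ 𝒦, K ⊓ MM L l = F then e h.choose else 0
  have hD : ∀ K ∈ 𝒦, D (K ⊓ MM L l) = e K := by
    intro K hK
    have h : ∃ K' ∈ 𝒦, K' ⊓ MM L l = K ⊓ MM L l := ⟨K, hK, rfl⟩
    change (if h : ∃ K' ∈ 𝒦, K' ⊓ MM L l = K ⊓ MM L l then e h.choose else 0) = e K
    rw [dif_pos h]
    exact hloc _ h.choose_spec.1 K hK h.choose_spec.2
  refine ⟨l.toFinset, D, fun F hF => hl F (List.mem_toFinset.mp hF),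
    (List.toFinset_card_le l).trans hlen', ?_⟩
  intro K hK hlim
  have hM : (L ⊔ ⨆ F ∈ l.toFinset, IntermediateField.normalClosure k F Ω) = MM L l := by
    rw [MM_eq]
    congr 1
    refine iSup_congr fun F => ?_
    rw [List.mem_toFinset]
  rw [hM]
  refine Cheb.hasMean_of_mu (hcb.mul (PP_bdd K)) fun 𝒰 h𝒰 => ?_
  -- compare along `𝒰`
  haveI hfd1 : FiniteDimensional k (MM L l ⊔ IntermediateField.normalClosure k K Ω :
      IntermediateField k Ω) := IntermediateField.finiteDimensional_sup _ _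
  haveI hn1 : Normal k (MM L l ⊔ IntermediateField.normalClosure k K Ω :
      IntermediateField k Ω) := IntermediateField.normal_sup _ _ _ _
  by_contra hne
  have hpos : 0 < |(D (K ⊓ MM L l) : ℝ) - Cheb.mu 𝒰 (fun p => c p * PP K p)| :=
    abs_pos.mpr (sub_ne_zero.mpr (Ne.symm hne))
  obtain ⟨l', -, hl', hmain'⟩ := key 𝒰 h𝒰 (MM L l ⊔ IntermediateField.normalClosure k K Ω) _ hpos
  obtain ⟨hMfd', hMn'⟩ := MM_finite_normal (MM L l ⊔ IntermediateField.normalClosure k K Ω) l'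
    fun F hF => hfd F (hl' F hF)
  obtain ⟨K', hK', hinf⟩ := hlim _ hMfd' hMn'
  have hle : MM L l ⊔ IntermediateField.normalClosure k K Ω ≤
      MM (MM L l ⊔ IntermediateField.normalClosure k K Ω) l' := by
    rw [MM_eq (MM L l ⊔ IntermediateField.normalClosure k K Ω) l']
    exact le_sup_left
  have hKle : K ≤ MM (MM L l ⊔ IntermediateField.normalClosure k K Ω) l' :=
    ((IntermediateField.le_normalClosure K).trans le_sup_right).trans hle
  have hinfK : K ⊓ MM (MM L l ⊔ IntermediateField.normalClosure k K Ω) l' = K :=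
    inf_eq_left.mpr hKle
  have hinf2 : K' ⊓ MM L l = K ⊓ MM L l := by
    have h1 : MM (MM L l ⊔ IntermediateField.normalClosure k K Ω) l' ⊓ MM L l = MM L l :=
      inf_eq_right.mpr (le_sup_left.trans hle)
    rw [← h1, ← inf_assoc, ← inf_assoc, hinf]
  have h1 := hmain' K' hK'
  rw [hinf, hinfK, ← hD K' hK', hinf2] at h1
  exact lt_irrefl _ h1

end Chain

end Pool.Agent.H3.TatePole
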