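import Mathlib
import Pool.Agent.H3.TatePole.Pairs

open NumberField IsDedekindDomain Filter Topology Polynomial

namespace Pool.Agent.H3.TatePole

section Double

variable {k : Type*} [Field k] {Ω : Type*} [Field Ω] [Algebra k Ω] [NumberField k] [IsGalois k Ω]

/-- orbits on pairs of embeddings are double cosets -/
lemma card_doubleCoset (K : IntermediateField k Ω) :
    Nat.card (DoubleCoset.Quotient (K.fixingSubgroup : Set Gal(Ω/k)) K.fixingSubgroup) =
      dpair K K := by
  unfold dpair
  have hwd : ∀ g g' : Gal(Ω/k), DoubleCoset.setoid (K.fixingSubgroup : Set Gal(Ω/k))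
      K.fixingSubgroup g g' →
      MulAction.orbitRel Gal(Ω/k) (PairHom K K) (K.val, resHom K g) (K.val, resHom K g') := by
    intro g g' h
    obtain ⟨a, ha, b, hb, rfl⟩ := DoubleCoset.rel_iff.mp h
    refine ⟨a⁻¹, ?_⟩
    let z : PairHom K K := (K.val, resHom K (a * g * b))
    change a⁻¹ • z = (K.val, resHom K g)
    refine Prod.ext ?_ ?_
    · rw [PairHom.smul_fst]
      have h1 : resHom K (1 : Gal(Ω/k)) = K.val := rfl
      change (a⁻¹ : Gal(Ω/k)).toAlgHom.comp K.val = K.val
      have h2 : resHom K a⁻¹ = resHom K 1 := by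
        rw [resHom_eq_iff]
        simpa using ha
      exact h2
    · rw [PairHom.smul_snd, ← resHom_mul, resHom_eq_iff]
      have : (a⁻¹ * (a * g * b))⁻¹ * g = b⁻¹ := by group
      rw [this]
      exact inv_mem hb
  refine Nat.card_congr (Equiv.ofBijective (Quotient.map (fun g => ((K.val, resHom K g) :
    PairHom K K)) hwd) ⟨?_, ?_⟩)
  · intro a b hab
    induction a using Quotient.inductionOn with | _ g => ?_
    induction b using Quotient.inductionOn with | _ g' => ?_
    have h1 := Quotient.exact hab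
    obtain ⟨σ, hσ⟩ := h1
    have e1 : (σ : Ω →ₐ[k] Ω).comp K.val = K.val := congrArg Prod.fst hσ
    have e2 : (σ : Ω →ₐ[k] Ω).comp (resHom K g') = resHom K g := congrArg Prod.snd hσ
    refine Quotient.sound ?_
    change DoubleCoset.setoid (K.fixingSubgroup : Set Gal(Ω/k)) K.fixingSubgroup g g'
    rw [DoubleCoset.rel_iff]
    have hσ1 : σ ∈ K.fixingSubgroup := by
      have h2 : resHom K 1 = resHom K σ := e1.symm
      rw [resHom_eq_iff] at h2
      simpa using h2
    rw [← resHom_mul, resHom_eq_iff] at e2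
    refine ⟨σ⁻¹, inv_mem hσ1, ((σ * g')⁻¹ * g)⁻¹, inv_mem e2, ?_⟩
    group
  · intro b
    induction b using Quotient.inductionOn with | _ y => ?_
    obtain ⟨γ₁, hγ₁⟩ := resHom_surjective K y.1
    obtain ⟨γ₂, hγ₂⟩ := resHom_surjective K y.2
    refine ⟨Quotient.mk _ (γ₁⁻¹ * γ₂), ?_⟩
    refine Quotient.sound ?_
    refine ⟨γ₁⁻¹, ?_⟩
    change γ₁⁻¹ • y = ((K.val, resHom K (γ₁⁻¹ * γ₂)) : PairHom K K)
    refine Prod.ext ?_ ?_
    · rw [PairHom.smul_fst, ← hγ₁, ← resHom_mul, inv_mul_cancel]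
      rfl
    · rw [PairHom.smul_snd, ← hγ₂, ← resHom_mul]

end Double

end Pool.Agent.H3.TatePole
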